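import Pool.Agent.EUN.St

/-!
# An algebraic closure of a number field, algebraic over `ℚ`
-/

open NumberField IsDedekindDomain
open scoped Classical

namespace EUN

theorem t_ALC : S_ALC := by
  intro M _ _
  have h0 : CharZero (AlgebraicClosure M) :=
    charZero_of_injective_algebraMap (algebraMap M (AlgebraicClosure M)).injective
  refine ⟨AlgebraicClosure M, inferInstance, h0, inferInstance, inferInstance, ?_⟩
  have h1 : IsScalarTower ℚ M (AlgebraicClosure M) :=
    IsScalarTower.of_algebraMap_eq' (Subsingleton.elim _ _)
  exact Algebra.IsAlgebraic.trans ℚ M (AlgebraicClosure M)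

end EUN
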