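import Pool.Agent.EUN.St

/-!
# BIG: big number fields inside an algebraic closure
-/

set_option autoImplicit false

namespace EUN

theorem t_BIG : S_BIG := by
  intro M Nb Ω _ _ _ _ _ _ _ _ _ hΩ S
  have : IsAlgClosure ℚ Ω := ⟨inferInstance, hΩ⟩
  have hnorm : Normal ℚ Ω := IsAlgClosure.normal ℚ Ω
  have halg : Algebra.IsAlgebraic M Nb := Algebra.IsAlgebraic.tower_top (K := ℚ) M
  let f : Nb →ₐ[M] Ω := IsAlgClosed.lift
  let fQ : Nb →ₐ[ℚ] Ω := (f : Nb →+* Ω).toRatAlgHom
  have hfin1 : FiniteDimensional ℚ fQ.fieldRange :=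
    LinearEquiv.finiteDimensional (AlgEquiv.ofInjectiveField fQ).toLinearEquiv
  have hfin2 : FiniteDimensional ℚ (IntermediateField.adjoin ℚ (S : Set Ω)) :=
    IntermediateField.finiteDimensional_adjoin
      (fun x _ => (Algebra.IsAlgebraic.isAlgebraic (R := ℚ) x).isIntegral)
  let K0 : IntermediateField ℚ Ω := fQ.fieldRange ⊔ IntermediateField.adjoin ℚ (S : Set Ω)
  have hfin : FiniteDimensional ℚ K0 := IntermediateField.finiteDimensional_sup _ _
  let N : IntermediateField ℚ Ω := IntermediateField.normalClosure ℚ K0 Ω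
  have hfinN : FiniteDimensional ℚ N := inferInstance
  have hnormN : Normal ℚ N := normalClosure.normal ℚ K0 Ω
  have hgal : IsGalois ℚ N := ⟨⟩
  have hle : K0 ≤ N := IntermediateField.le_normalClosure K0
  have hnf : NumberField N := NumberField.of_module_finite ℚ N
  have hmem : ∀ x : Nb, (f : Nb →+* Ω) x ∈ N := by
    intro x
    apply hle
    apply (le_sup_left : fQ.fieldRange ≤ K0)
    exact ⟨x, rfl⟩
  let g : Nb →+* N := RingHom.codRestrict (f : Nb →+* Ω) N hmem
  have hgal' : @IsGalois ℚ _ N _ DivisionRing.toRatAlgebra := by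
    convert hgal
  refine ⟨N, inferInstance, hnf, (g.comp (algebraMap M Nb)).toAlgebra, g.toAlgebra,
    inferInstance, hgal', ?_, ?_, ?_⟩
  · exact @IsScalarTower.of_algebraMap_eq' M Nb N _ _ _ _ g.toAlgebra
      (g.comp (algebraMap M Nb)).toAlgebra rfl
  · refine @IsScalarTower.of_algebraMap_eq M N Ω _ _ _ (g.comp (algebraMap M Nb)).toAlgebra _ _ ?_
    intro x
    exact (f.commutes x).symm
  · intro x hx
    refine ⟨⟨x, hle ((le_sup_right : IntermediateField.adjoin ℚ (S : Set Ω) ≤ K0)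
      (IntermediateField.subset_adjoin ℚ _ hx))⟩, rfl⟩

end EUN
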