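import Pool.Agent.EUN.St

/-!
Module EUN_CORE (MP_46b841_nt): the algebraic core of the construction of eigen-units.
-/

open NumberField IsDedekindDomain
open scoped Classical

namespace EUN

open StarkC

namespace COREx

theorem exists_exp {p i j : ℕ} (hp : p.Prime) (hj : ¬ p ∣ j) (hi : ¬ p ∣ i) :
    ∃ e : ℕ, 1 ≤ e ∧ e ≤ p - 1 ∧ ¬ p ∣ e ∧ e * j ≡ i [MOD p] := by
  obtain ⟨j', -, hj'⟩ := Nat.exists_mul_mod_eq_one_of_coprime
    ((Nat.Prime.coprime_iff_not_dvd hp).2 hj).symm hp.one_lt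
  have h1 : j * j' ≡ 1 [MOD p] := by
    rw [Nat.ModEq, hj', Nat.mod_eq_of_lt hp.one_lt]
  have h2 : (j' * i) % p * j ≡ i [MOD p] := by
    have h3 : (j' * i) % p * j ≡ j' * i * j [MOD p] := (Nat.mod_modEq _ _).mul_right _
    have h4 : j' * i * j = i * (j * j') := by ring
    rw [h4] at h3
    exact h3.trans (by simpa using h1.mul_left i)
  have h5 : ¬ p ∣ (j' * i) % p := by
    intro h
    refine hi ?_
    have h6 : p ∣ (j' * i) % p * j := Dvd.dvd.mul_right h _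
    exact (Nat.ModEq.dvd_iff h2 dvd_rfl).1 h6
  have h7 : (j' * i) % p < p := Nat.mod_lt _ hp.pos
  have h8 : (j' * i) % p ≠ 0 := fun h => h5 (h ▸ dvd_zero p)
  exact ⟨(j' * i) % p, by omega, by omega, h5, h2⟩

end COREx

open COREx in
/-- **EUN_CORE.** -/
theorem t_CORE (h1 : S_STEP) : S_CORE := by
  intro Ω _ _ _ p M y ζ b b₀ s'' τ i j hp hζ hyζ hF hP hb₀ hb hb0 hyb hj hτ0 hyτ hi hs hτ
  by_contra hE
  obtain ⟨e, he1, he2, he3, hij⟩ := exists_exp hp hj hi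
  have hpi : IsIntegral ℤ (p : Ω) := by
    have : (p : Ω) = algebraMap ℤ Ω (p : ℤ) := by simp
    rw [this]
    exact isIntegral_algebraMap
  have hbi : IsIntegral ℤ b := by
    rw [hb]
    exact ((hpi.pow M).pow p).mul hb₀
  have hbe : b ^ e = ((p : Ω) ^ M) ^ p * (b₀ * b ^ (e - 1)) := by
    have h2 : b ^ e = b * b ^ (e - 1) := by
      rw [← pow_succ']
      congr 1
      omega
    rw [h2, ← mul_assoc, ← hb]
  have hprod : b ^ e * ((p : Ω) ^ M * (b ^ (p - 1 - e) * s'')) = τ ^ p - 1 := by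
    have h2 : b ^ (p - 1) = b ^ e * b ^ (p - 1 - e) := by
      rw [← pow_add]
      congr 1
      omega
    rw [hτ, h2]
    ring
  have hyτp : y (τ ^ p) = τ ^ p := by
    rw [map_pow, hyτ, mul_pow, ← pow_mul, mul_comm i p, pow_mul, hζ.pow_eq_one, one_pow, one_mul]
  have hone : 1 + b ^ e * ((p : Ω) ^ M * (b ^ (p - 1 - e) * s'')) = τ ^ p := by
    rw [hprod]
    ring
  refine h1 Ω p M y ζ (b ^ e) (b₀ * b ^ (e - 1)) (b ^ (p - 1 - e) * s'') τ (e * j) i hp hζ hyζ hF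
    hP hE (hb₀.mul (hbi.pow _)) hbe (pow_ne_zero _ hb0) ?_ ?_ ((hbi.pow _).mul hs) ?_ ?_ ?_ hyτ
    hij.symm
  · rw [map_pow, hyb, mul_pow, ← pow_mul, mul_comm j e]
  · intro h
    rcases hp.dvd_mul.1 h with h | h
    · exact he3 h
    · exact hj h
  · rw [hprod, map_sub, hyτp, map_one]
  · rw [hone]
    exact pow_ne_zero _ hτ0
  · exact hone.symm

end EUN
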