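import Pool.Agent.EUN.St

/-!
# Compactness (project EUN, module CPT)
-/

set_option autoImplicit false
set_option linter.unusedSectionVars false

open NumberField IsDedekindDomain
open scoped Classical

namespace EUN

open StarkC

namespace CPTx

section
variable {Ω : Type} [Field Ω] [CharZero Ω]

/-- the roots of the minimal polynomial -/
noncomputable def rts (x : Ω) : Finset Ω := ((minpoly ℚ x).aroots Ω).toFinset

lemma mem_rts (hA : Algebra.IsAlgebraic ℚ Ω) (x : Ω) : x ∈ rts x := by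
  unfold rts
  rw [Multiset.mem_toFinset, Polynomial.mem_aroots]
  exact ⟨minpoly.ne_zero (hA.isAlgebraic x).isIntegral, minpoly.aeval ℚ x⟩

lemma map_rts (hA : Algebra.IsAlgebraic ℚ Ω) (g : Ω ≃ₐ[ℚ] Ω) {x y : Ω} (hy : y ∈ rts x) :
    g y ∈ rts x := by
  unfold rts at hy ⊢
  rw [Multiset.mem_toFinset, Polynomial.mem_aroots] at hy ⊢
  refine ⟨hy.1, ?_⟩
  have h := Polynomial.aeval_algHom_apply (g : Ω →ₐ[ℚ] Ω) y (minpoly ℚ x)
  rw [hy.2, map_zero] at h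
  exact h

/-- automorphisms that agree on a stable set have powers that agree there -/
lemma pow_agree {g g' : Ω ≃ₐ[ℚ] Ω} {T : Set Ω} (hT : ∀ x ∈ T, g x ∈ T)
    (h : ∀ x ∈ T, g' x = g x) (i : ℕ) : ∀ x ∈ T, (g' ^ i) x = (g ^ i) x ∧ (g ^ i) x ∈ T := by
  induction i with
  | zero => intro x hx; exact ⟨rfl, hx⟩
  | succ i ih =>
    intro x hx
    obtain ⟨h1, h2⟩ := ih x hx
    rw [pow_succ', pow_succ', AlgEquiv.mul_apply, AlgEquiv.mul_apply, h1]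
    exact ⟨h _ h2, hT _ h2⟩

lemma nhd [Algebra.IsAlgebraic ℚ Ω] (g : Ω ≃ₐ[ℚ] Ω) (x : Ω) :
    {g' : Ω ≃ₐ[ℚ] Ω | g' x = g x} ∈ nhds g := by
  have h1 : IsOpen (MulAction.stabilizer (Ω ≃ₐ[ℚ] Ω) x : Set (Ω ≃ₐ[ℚ] Ω)) :=
    stabilizer_isOpen_of_isIntegral x
  have h2 : IsOpen ((fun g' : Ω ≃ₐ[ℚ] Ω => g⁻¹ * g') ⁻¹' (MulAction.stabilizer (Ω ≃ₐ[ℚ] Ω) x)) :=
    h1.preimage (continuous_const.mul continuous_id)
  have h3 : ((fun g' : Ω ≃ₐ[ℚ] Ω => g⁻¹ * g') ⁻¹' (MulAction.stabilizer (Ω ≃ₐ[ℚ] Ω) x))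
      = {g' : Ω ≃ₐ[ℚ] Ω | g' x = g x} := by
    ext g'
    simp only [Set.mem_preimage, SetLike.mem_coe, MulAction.mem_stabilizer_iff, mul_smul,
      Set.mem_ofPred_eq, inv_smul_eq_iff]
    rfl
  rw [← h3]
  refine h2.mem_nhds ?_
  simp

end

section
variable {M N Ω : Type} [Field M] [NumberField M] [Field N] [NumberField N] [Field Ω] [CharZero Ω]
  [Algebra M Ω] [Algebra N Ω] [Algebra M N] [IsGalois ℚ M] [IsGalois ℚ N]

lemma restr_eq {g g' : Ω ≃ₐ[ℚ] Ω} (h : ∀ z : M, g' (algebraMap M Ω z) = g (algebraMap M Ω z)) :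
    (AlgEquiv.restrictNormalHom M g' : M ≃ₐ[ℚ] M) = AlgEquiv.restrictNormalHom M g := by
  ext z
  apply (algebraMap M Ω).injective
  have h1 := AlgEquiv.restrictNormal_commutes g' M z
  have h2 := AlgEquiv.restrictNormal_commutes g M z
  exact h1.trans ((h z).trans h2.symm)

lemma agree_of_basis {g g' : Ω ≃ₐ[ℚ] Ω}
    (h : ∀ j, g' (algebraMap M Ω (Module.finBasis ℚ M j)) = g (algebraMap M Ω (Module.finBasis ℚ M j)))
    (z : M) : g' (algebraMap M Ω z) = g (algebraMap M Ω z) := by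
  have h1 : g'.toLinearMap ∘ₗ (IsScalarTower.toAlgHom ℚ M Ω).toLinearMap
      = g.toLinearMap ∘ₗ (IsScalarTower.toAlgHom ℚ M Ω).toLinearMap :=
    (Module.finBasis ℚ M).ext h
  exact LinearMap.congr_fun h1 z

lemma restr_tower [IsScalarTower M N Ω] (g : Ω ≃ₐ[ℚ] Ω) :
    (AlgEquiv.restrictNormalHom M (AlgEquiv.restrictNormalHom N g : N ≃ₐ[ℚ] N) : M ≃ₐ[ℚ] M)
      = AlgEquiv.restrictNormalHom M g := by
  ext z
  apply (algebraMap M Ω).injective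
  have h1 := AlgEquiv.restrictNormal_commutes g M z
  have h2 := AlgEquiv.restrictNormal_commutes (AlgEquiv.restrictNormalHom N g : N ≃ₐ[ℚ] N) M z
  have h3 := AlgEquiv.restrictNormal_commutes g N (algebraMap M N z)
  refine Eq.trans ?_ h1.symm
  rw [IsScalarTower.algebraMap_apply M N Ω]
  erw [h2]
  erw [h3]
  rw [← IsScalarTower.algebraMap_apply M N Ω]

lemma pow_restr (g : Ω ≃ₐ[ℚ] Ω) (i : ℕ) (z : N) :
    algebraMap N Ω (((AlgEquiv.restrictNormalHom N g : N ≃ₐ[ℚ] N) ^ i) z)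
      = (g ^ i) (algebraMap N Ω z) := by
  rw [← map_pow]
  exact AlgEquiv.restrictNormal_commutes (g ^ i) N z

lemma dual_restr {m : ℕ} {g g' : Ω ≃ₐ[ℚ] Ω} {T : Set Ω} (hT : ∀ x ∈ T, g x ∈ T)
    (h : ∀ x ∈ T, g' x = g x) {θ θ' : Ω} (h1 : θ ∈ T) (h2 : θ' ∈ T) (hD : Dual m g θ θ')
    {a b : N} (ha : algebraMap N Ω a = θ) (hb : algebraMap N Ω b = θ') :
    Dual m (AlgEquiv.restrictNormalHom N g' : N ≃ₐ[ℚ] N) a b := by
  obtain ⟨i1, i2, p1, p2, hs⟩ := hD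
  have hinj := (algebraMap N Ω).injective
  subst ha hb
  refine ⟨(isIntegral_algebraMap_iff hinj).1 i1, (isIntegral_algebraMap_iff hinj).1 i2, ?_, ?_, ?_⟩
  · apply hinj
    rw [pow_restr, (pow_agree hT h m _ h1).1, p1]
  · apply hinj
    rw [pow_restr, (pow_agree hT h m _ h2).1, p2]
  · intro k
    apply hinj
    rw [map_sum]
    have h3 : ∀ i : ℕ, algebraMap N Ω (((AlgEquiv.restrictNormalHom N g' : N ≃ₐ[ℚ] N) ^ i)
        (a * ((AlgEquiv.restrictNormalHom N g' : N ≃ₐ[ℚ] N) ^ k) b))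
        = (g ^ i) (algebraMap N Ω a * (g ^ k) (algebraMap N Ω b)) := by
      intro i
      have e1 := pow_agree hT h k _ h2
      rw [pow_restr, map_mul, map_mul, map_mul, pow_restr, e1.1, (pow_agree hT h i _ h1).1,
        (pow_agree hT h i _ e1.2).1]
    simp only [h3]
    rw [hs k]
    split_ifs <;> simp

end

end CPTx

open CPTx in
theorem t_CPT (hBIG : S_BIG) : S_CPT := by
  intro M Ω _ _ _ _ _ _ _ hA C J hC
  have := hA
  have : IsAlgClosure ℚ Ω := ⟨inferInstance, hA⟩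
  -- the chosen dual pairs
  have hch : ∀ (g : Ω ≃ₐ[ℚ] Ω) (m : ℕ), ∃ x : Ω × Ω, m ≤ J →
      C (AlgEquiv.restrictNormalHom M g) m → Dual m g x.1 x.2 := by
    intro g m
    by_cases h : m ≤ J ∧ C (AlgEquiv.restrictNormalHom M g) m
    · obtain ⟨θ, θ', hD⟩ := hC g m h.1 h.2
      exact ⟨(θ, θ'), fun _ _ => hD⟩
    · exact ⟨(0, 0), fun h1 h2 => absurd ⟨h1, h2⟩ h⟩
  choose x hx using hch
  let T : (Ω ≃ₐ[ℚ] Ω) → Finset Ω := fun g =>
    (Finset.range (J + 1)).biUnion fun m => rts (x g m).1 ∪ rts (x g m).2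
  let B : Finset Ω := Finset.univ.image fun j => algebraMap M Ω (Module.finBasis ℚ M j)
  let U : (Ω ≃ₐ[ℚ] Ω) → Set (Ω ≃ₐ[ℚ] Ω) := fun g => {g' | ∀ z ∈ T g ∪ B, g' z = g z}
  have hU : ∀ g, U g ∈ nhds g := by
    intro g
    have h1 : (⋂ z ∈ (T g ∪ B), {g' : Ω ≃ₐ[ℚ] Ω | g' z = g z}) ∈ nhds g :=
      (Filter.biInter_finset_mem _).2 fun z _ => nhd g z
    refine Filter.mem_of_superset h1 ?_
    intro g' hg'
    simp only [Set.mem_iInter] at hg'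
    exact hg'
  obtain ⟨t, ht⟩ := CompactSpace.elim_nhds_subcover U hU
  obtain ⟨N, fN, nN, aMN, aMN', aNΩ, gN, -, tw, hN⟩ := hBIG M M Ω hA (t.biUnion T)
  clear aMN'
  refine ⟨N, fN, nN, aMN, gN, ?_⟩
  intro g₃ m hm hCm
  obtain ⟨g', rfl⟩ := AlgEquiv.restrictNormalHom_surjective (F := ℚ) (K₁ := N) Ω g₃
  have hg' : g' ∈ ⋃ g ∈ t, U g := by rw [ht]; trivial
  simp only [Set.mem_iUnion] at hg'
  obtain ⟨g, hgt, hgU⟩ := hg'
  have hagM : ∀ z : M, g' (algebraMap M Ω z) = g (algebraMap M Ω z) :=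
    agree_of_basis fun j => hgU _ (Finset.mem_union_right _
      (Finset.mem_image_of_mem _ (Finset.mem_univ j)))
  have hCg : C (AlgEquiv.restrictNormalHom M g) m := by
    rw [← restr_eq hagM, ← restr_tower (N := N) g']
    exact hCm
  have hD := hx g m hm hCg
  have hmem : m ∈ Finset.range (J + 1) := Finset.mem_range.2 (by omega)
  have h1 : (x g m).1 ∈ T g := Finset.mem_biUnion.2 ⟨m, hmem,
    Finset.mem_union_left _ (mem_rts hA _)⟩
  have h2 : (x g m).2 ∈ T g := Finset.mem_biUnion.2 ⟨m, hmem,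
    Finset.mem_union_right _ (mem_rts hA _)⟩
  obtain ⟨a, ha⟩ := hN _ (Finset.mem_biUnion.2 ⟨g, hgt, h1⟩)
  obtain ⟨b, hb⟩ := hN _ (Finset.mem_biUnion.2 ⟨g, hgt, h2⟩)
  refine ⟨a, b, dual_restr (T := (T g : Set Ω)) ?_ ?_ h1 h2 hD ha hb⟩
  · intro z hz
    have hz' := Finset.mem_coe.1 hz
    obtain ⟨i, hi, hzi⟩ := Finset.mem_biUnion.1 hz'
    refine Finset.mem_coe.2 (Finset.mem_biUnion.2 ⟨i, hi, ?_⟩)
    rcases Finset.mem_union.1 hzi with h | h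
    · exact Finset.mem_union_left _ (map_rts hA g h)
    · exact Finset.mem_union_right _ (map_rts hA g h)
  · intro z hz
    exact hgU z (Finset.mem_union_left _ (Finset.mem_coe.1 hz))

end EUN
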