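import Pool.Agent.EUN.St

/-!
# Project EUN, module CRT: an eigenvector near the roots of unity
-/

set_option autoImplicit false

open NumberField IsDedekindDomain
open scoped Classical

namespace EUN

open StarkC

namespace CRTx

/-! ### Positions on the orbits of a permutation of `p`-power order without fixed points -/

theorem fix_of_zpow {X : Type*} (p m : ℕ) [hp : Fact p.Prime] (σ : Equiv.Perm X)
    (hσ : σ ^ (p ^ m) = 1) {k : ℤ} (hk : ¬ (p : ℤ) ∣ k) {r : X} (h : (σ ^ k) r = r) : σ r = r := by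
  have hp' : Prime (p : ℤ) := Nat.prime_iff_prime_int.1 hp.out
  have hc : IsCoprime k (p : ℤ) := ((Prime.coprime_iff_not_dvd hp').2 hk).symm
  obtain ⟨a, b, hab⟩ := hc.pow_right (n := m)
  have h1 : σ ^ (a * k + b * (p : ℤ) ^ m) = (σ ^ k) ^ a := by
    rw [zpow_add, mul_comm a k, zpow_mul, mul_comm b, zpow_mul]
    have h5' : σ ^ ((p : ℤ) ^ m) = 1 := by
      have : ((p : ℤ) ^ m) = ((p ^ m : ℕ) : ℤ) := by push_cast; rfl
      rw [this, zpow_natCast, hσ]
    rw [h5', one_zpow, mul_one]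
  have h2 : σ = (σ ^ k) ^ a := by rw [← h1, hab, zpow_one]
  have h3 : ((σ ^ k) ^ a) r = r := Equiv.Perm.zpow_apply_eq_self_of_apply_eq_self h a
  rw [← h2] at h3
  exact h3

theorem exists_kappa {X : Type*} (p m : ℕ) [hp : Fact p.Prime] (σ : Equiv.Perm X)
    (hσ : σ ^ (p ^ m) = 1) (hf : ∀ x, σ x ≠ x) :
    ∃ κ : X → ZMod p, ∀ x, κ (σ x) = κ x + 1 := by
  let s : Setoid X := Equiv.Perm.SameCycle.setoid σ
  let r : X → X := fun i => (Quotient.mk s i).out
  have hr : ∀ i, σ.SameCycle (r i) i := fun i => Quotient.exact (Quotient.out_eq (Quotient.mk s i))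
  have hr' : ∀ i, r (σ i) = r i := by
    intro i
    have h1 : (Quotient.mk s (σ i)) = Quotient.mk s i :=
      Quotient.sound (show σ.SameCycle (σ i) i from ⟨-1, by simp⟩)
    simp only [r, h1]
  choose n hn using hr
  refine ⟨fun i => (n i : ZMod p), fun i => ?_⟩
  by_contra hne
  have hm : ¬ (p : ℤ) ∣ n (σ i) - (1 + n i) := by
    intro hd
    apply hne
    have h1 : ((n (σ i) - (1 + n i) : ℤ) : ZMod p) = 0 := (ZMod.intCast_zmod_eq_zero_iff_dvd _ p).2 hd
    push_cast at h1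
    have h2 := sub_eq_zero.1 h1
    simp only [h2]
    ring
  have h1 : (σ ^ (n (σ i))) (r i) = σ i := by
    have := hn (σ i)
    rwa [hr'] at this
  have h2 : (σ ^ (1 + n i)) (r i) = σ i := by
    rw [zpow_add, Equiv.Perm.mul_apply, hn i, zpow_one]
  have h3 : (σ ^ (n (σ i) - (1 + n i))) (r i) = r i := by
    rw [sub_eq_neg_add, zpow_add, Equiv.Perm.mul_apply, h1, ← h2, ← Equiv.Perm.mul_apply,
      ← zpow_add]
    simp
  exact hf _ (fix_of_zpow p m σ hσ hm h3)

/-! ### The action on the primes -/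

variable {R : Type*} [CommRing R] [IsDedekindDomain R]

/-- the image of a prime under an automorphism -/
noncomputable def act (g : R ≃+* R) (W : HeightOneSpectrum R) : HeightOneSpectrum R where
  asIdeal := W.asIdeal.map g
  isPrime := Ideal.map_isPrime_of_equiv g
  ne_bot := by
    intro h
    apply W.ne_bot
    rw [eq_bot_iff]
    intro x hx
    have h1 : g x ∈ W.asIdeal.map g := Ideal.mem_map_of_mem g hx
    rw [h, Ideal.mem_bot] at h1
    rw [Ideal.mem_bot]
    exact (map_eq_zero_iff g g.injective).1 h1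

omit [IsDedekindDomain R] in
theorem pow_val (p : ℕ) [hp : Fact p.Prime] {ζ : R} (hζ : ζ ^ p = 1) (z : ZMod p) :
    ζ ^ ((z + 1).val) = ζ * ζ ^ z.val := by
  have h1 : (1 : ZMod p).val = 1 := ZMod.val_one p
  rw [ZMod.val_add, h1, ← pow_eq_pow_mod _ hζ, pow_succ']

theorem mem_act (g : R ≃+* R) (W : HeightOneSpectrum R) (y : R) :
    y ∈ (act g W).asIdeal ↔ g.symm y ∈ W.asIdeal :=
  Ideal.symm_apply_mem_of_equiv_iff.symm

theorem act_act (g g' : R ≃+* R) (W : HeightOneSpectrum R) :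
    act g (act g' W) = act (g * g') W := by
  apply HeightOneSpectrum.ext
  ext y
  rw [mem_act, mem_act, mem_act]
  rfl

theorem act_one (W : HeightOneSpectrum R) : act 1 W = W := by
  apply HeightOneSpectrum.ext
  ext y
  rw [mem_act]
  rfl

/-- the permutation of the primes containing a fixed element -/
noncomputable def perm (g : R ≃+* R) (c : R) (hc : g c = c) :
    Equiv.Perm {W : HeightOneSpectrum R // c ∈ W.asIdeal} where
  toFun W := ⟨act g W.1, by
    rw [mem_act]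
    have : g.symm c = c := by rw [RingEquiv.symm_apply_eq, hc]
    rw [this]; exact W.2⟩
  invFun W := ⟨act g⁻¹ W.1, by
    rw [mem_act]
    have : (g⁻¹).symm c = c := hc
    rw [this]; exact W.2⟩
  left_inv W := by
    apply Subtype.ext
    show act g⁻¹ (act g W.1) = W.1
    rw [act_act, inv_mul_cancel, act_one]
  right_inv W := by
    apply Subtype.ext
    show act g (act g⁻¹ W.1) = W.1
    rw [act_act, mul_inv_cancel, act_one]

theorem perm_pow (g : R ≃+* R) (c : R) (hc : g c = c) (k : ℕ)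
    (W : {W : HeightOneSpectrum R // c ∈ W.asIdeal}) :
    ((perm g c hc ^ k) W).1 = act (g ^ k) W.1 := by
  induction k with
  | zero => rw [pow_zero, pow_zero, act_one]; rfl
  | succ k ih =>
    rw [pow_succ', Equiv.Perm.mul_apply, pow_succ', ← act_act, ← ih]
    rfl

/-- The ring theoretic part. -/
theorem core [CharZero R] (p m : ℕ) [hp : Fact p.Prime] (g : R ≃+* R) (ζ a : R) (hζ : ζ ^ p = 1)
    (hgζ : g ζ = ζ) (hg : g ^ (p ^ m) = 1) (hm : 1 ≤ m) (ha : a ≠ 0) (hga : g a = a)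
    (hno : ∀ W : HeightOneSpectrum R, (p : R) * a ∈ W.asIdeal → act g W ≠ W) :
    ∃ τ w : R, g τ = ζ * τ ∧ τ ^ p = 1 + (p : R) * a * w := by
  have hp0 : (p : R) ≠ 0 := Nat.cast_ne_zero.2 hp.out.ne_zero
  have hpa : (p : R) * a ≠ 0 := mul_ne_zero hp0 ha
  have hgpa : g ((p : R) * a) = (p : R) * a := by rw [map_mul, map_natCast, hga]
  let X := {W : HeightOneSpectrum R // (p : R) * a ∈ W.asIdeal}
  have hfin : Finite X := by
    have h1 := Ideal.finite_factors (R := R) (I := Ideal.span {(p : R) * a})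
      (by rwa [Ne, Ideal.zero_eq_bot, Ideal.span_singleton_eq_bot])
    have h2 : {W : HeightOneSpectrum R | (p : R) * a ∈ W.asIdeal}.Finite := by
      refine h1.subset ?_
      intro W hW
      show W.asIdeal ∣ Ideal.span {(p : R) * a}
      rw [Ideal.dvd_iff_le, Ideal.span_singleton_le_iff_mem]
      exact hW
    exact h2.to_subtype
  have : Fintype X := Fintype.ofFinite X
  let σ : Equiv.Perm X := perm g ((p : R) * a) hgpa
  have hσ : σ ^ (p ^ m) = 1 := by
    ext W : 1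
    apply Subtype.ext
    rw [perm_pow, hg, act_one]
    rfl
  obtain ⟨κ, hκ⟩ := exists_kappa p m σ hσ (fun W h => hno W.1 W.2 (congrArg Subtype.val h))
  set c : R := ((p : R) * a) ^ (m + 1) with hc
  have hgc : g c = c := by rw [hc, map_pow, hgpa]
  -- the exponent
  obtain ⟨E, hE⟩ : ∃ E : ℕ, (∏ W : X, W.1.asIdeal) ^ E ≤ Ideal.span {c} := by
    refine Ideal.exists_pow_le_of_le_radical_of_fg ?_ (IsNoetherian.noetherian _)
    rw [Ideal.radical_eq_sInf]
    refine le_sInf ?_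
    rintro K ⟨hK, hKp⟩
    have h1 : (p : R) * a ∈ K := by
      have h2 : c ∈ K := hK (Ideal.mem_span_singleton_self c)
      exact hKp.mem_of_pow_mem _ h2
    have h3 : K ≠ ⊥ := by
      rintro rfl
      exact hpa (Ideal.mem_bot.1 h1)
    let W : X := ⟨⟨K, hKp, h3⟩, h1⟩
    exact Ideal.prod_le_inf.trans (Finset.inf_le (f := fun W : X => W.1.asIdeal) (Finset.mem_univ W))
  have hinf : ∀ x : R, (∀ W : X, x ∈ W.1.asIdeal ^ E) → c ∣ x := by
    intro x hx
    have h1 : x ∈ (Finset.univ.inf fun W : X => W.1.asIdeal ^ E) := by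
      rw [Finset.inf_eq_iInf]
      simp only [Finset.mem_univ, iInf_pos, Ideal.mem_iInf]
      exact hx
    rw [HeightOneSpectrum.inf_pow_eq_prod Finset.univ (fun _ => E) (fun W : X => W.1)
      (fun i _ j _ hij h => hij (Subtype.ext h)), Finset.prod_pow] at h1
    exact Ideal.mem_span_singleton.1 (hE h1)
  -- the approximation
  let χ : ZMod p → R := fun z => ζ ^ z.val
  have hχ1 : ∀ z, χ (z + 1) = ζ * χ z := fun z => pow_val p hζ z
  have hχg : ∀ z, g (χ z) = χ z := fun z => by simp only [χ, map_pow, hgζ]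
  have hχp : ∀ z, χ z ^ p = 1 := fun z => by
    simp only [χ]; rw [← pow_mul, mul_comm, pow_mul, hζ, one_pow]
  obtain ⟨v, hv⟩ : ∃ v : R, ∀ W : X, v - χ (-κ W) ∈ W.1.asIdeal ^ E := by
    obtain ⟨v, hv⟩ := IsDedekindDomain.exists_forall_sub_mem_ideal (s := (Finset.univ : Finset X))
      (fun W : X => W.1.asIdeal) (fun _ => E) (fun W _ => W.1.prime)
      (fun i _ j _ hij h => hij (Subtype.ext (HeightOneSpectrum.ext h)))
      (fun W => χ (-κ W.1))
    exact ⟨v, fun W => hv W (Finset.mem_univ W)⟩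
  have h5 : c ∣ g v - ζ * v := by
    apply hinf
    intro W'
    obtain ⟨W, rfl⟩ := σ.surjective W'
    have e1 : g (v - χ (-κ W)) ∈ (σ W).1.asIdeal ^ E := by
      have h2 : g (v - χ (-κ W)) ∈ (W.1.asIdeal ^ E).map g := Ideal.mem_map_of_mem g (hv W)
      rw [Ideal.map_pow] at h2
      exact h2
    have e2 : ζ * (v - χ (-κ (σ W))) ∈ (σ W).1.asIdeal ^ E := Ideal.mul_mem_left _ _ (hv (σ W))
    have e3 : χ (-κ W) = ζ * χ (-κ (σ W)) := by
      rw [← hχ1, hκ]
      congr 1
      ring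
    have e4 := Ideal.sub_mem _ e1 e2
    rw [map_sub, hχg, e3] at e4
    have e5 : g v - ζ * χ (-κ (σ W)) - ζ * (v - χ (-κ (σ W))) = g v - ζ * v := by ring
    rwa [e5] at e4
  have h6 : ∀ i : ℕ, c ∣ (g ^ i) v - ζ ^ i * v := by
    intro i
    induction i with
    | zero => simp
    | succ i ih =>
      obtain ⟨z, hz⟩ := ih
      have e1 : (g ^ (i + 1)) v = g ((g ^ i) v) := by rw [pow_succ']; rfl
      have e2 : (g ^ i) v = ζ ^ i * v + c * z := by rw [← hz]; ring
      obtain ⟨z', hz'⟩ := h5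
      have e3 : g v = ζ * v + c * z' := by rw [← hz']; ring
      refine ⟨ζ ^ i * z' + g z, ?_⟩
      rw [e1, e2, map_add, map_mul, map_mul, map_pow, hgζ, hgc, e3]
      ring
  have h7 : c ∣ v ^ p - 1 := by
    apply hinf
    intro W
    obtain ⟨z, hz⟩ := sub_dvd_pow_sub_pow v (χ (-κ W)) p
    rw [hχp] at hz
    rw [hz]
    exact Ideal.mul_mem_right _ _ (hv W)
  -- the average
  have hp1 : 1 ≤ p := hp.out.one_lt.le
  set ω : R := ζ ^ (p - 1) with hω
  have hωζ : ζ * ω = 1 := by rw [hω, ← pow_succ', Nat.sub_add_cancel hp1, hζ]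
  have hgω : g ω = ω := by rw [hω, map_pow, hgζ]
  have hωp : ω ^ (p ^ m) = 1 := by
    obtain ⟨m', rfl⟩ : ∃ m', m = m' + 1 := ⟨m - 1, by omega⟩
    rw [hω, ← pow_mul, mul_comm, pow_succ', mul_assoc, pow_mul, hζ, one_pow]
  let f : ℕ → R := fun i => ω ^ i * (g ^ i) v
  have hf : ∀ i, ∃ z, f i = v + c * z := by
    intro i
    obtain ⟨z, hz⟩ := h6 i
    refine ⟨ω ^ i * z, ?_⟩
    have e1 : (g ^ i) v = ζ ^ i * v + c * z := by rw [← hz]; ring
    have e2 : ω ^ i * ζ ^ i = 1 := by rw [← mul_pow, mul_comm ω, hωζ, one_pow]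
    simp only [f]
    rw [e1]
    linear_combination v * e2
  choose z hz using hf
  let Z : R := ∑ i ∈ Finset.range (p ^ m), z i
  have hS : ∑ i ∈ Finset.range (p ^ m), f i = (p : R) ^ m * (v + (p : R) * a * (a ^ m * Z)) := by
    simp only [hz]
    rw [Finset.sum_add_distrib, ← Finset.mul_sum, Finset.sum_const, Finset.card_range,
      nsmul_eq_mul, hc]
    push_cast
    ring
  set τ : R := v + (p : R) * a * (a ^ m * Z) with hτ
  have hgf : ∀ i, g (f i) = ζ * f (i + 1) := by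
    intro i
    simp only [f]
    rw [map_mul, map_pow, hgω]
    have e1 : (g ^ (i + 1)) v = g ((g ^ i) v) := by rw [pow_succ']; rfl
    rw [e1, pow_succ]
    linear_combination (-(ω ^ i * g ((g ^ i) v))) * hωζ
  have hgS : g (∑ i ∈ Finset.range (p ^ m), f i) = ζ * ∑ i ∈ Finset.range (p ^ m), f i := by
    rw [map_sum]
    simp only [hgf]
    rw [← Finset.mul_sum]
    congr 1
    have e1 := Finset.sum_range_succ' f (p ^ m)
    have e2 := Finset.sum_range_succ f (p ^ m)
    have e3 : f (p ^ m) = f 0 := by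
      simp only [f]
      rw [hωp, hg, pow_zero, pow_zero]
    rw [e2, e3] at e1
    exact (add_right_cancel e1).symm
  refine ⟨τ, ?_⟩
  have h8 : g τ = ζ * τ := by
    rw [hS, map_mul, map_pow, map_natCast] at hgS
    have e1 : (p : R) ^ m * g τ = (p : R) ^ m * (ζ * τ) := by rw [hgS]; ring
    exact mul_left_cancel₀ (pow_ne_zero m hp0) e1
  have h9 : (p : R) * a ∣ τ ^ p - 1 := by
    have e1 : (p : R) * a ∣ c := by rw [hc]; exact dvd_pow_self _ (Nat.succ_ne_zero m)
    have e2 : (p : R) * a ∣ v ^ p - 1 := e1.trans h7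
    have e3 : (p : R) * a ∣ τ ^ p - v ^ p := by
      refine Dvd.dvd.trans ?_ (sub_dvd_pow_sub_pow τ v p)
      rw [hτ]
      exact ⟨a ^ m * Z, by ring⟩
    have e4 := dvd_add e3 e2
    have e5 : τ ^ p - v ^ p + (v ^ p - 1) = τ ^ p - 1 := by ring
    rwa [e5] at e4
  obtain ⟨w, hw⟩ := h9
  exact ⟨w, h8, by rw [← hw]; ring⟩

theorem not_isUnit_prime (N : Type) [Field N] [NumberField N] (p : ℕ) (hp : p.Prime) :
    ¬ IsUnit (p : 𝓞 N) := by
  intro h
  obtain ⟨x, hx⟩ := h.exists_right_inv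
  have h1 : (p : N) * (x : N) = 1 := by
    have := congrArg (fun z : 𝓞 N => (z : N)) hx
    simpa using this
  have h2 : (x : N) = algebraMap ℚ N ((p : ℚ)⁻¹) := by
    rw [map_inv₀, map_natCast]
    exact eq_inv_of_mul_eq_one_right h1
  have h3 : IsIntegral ℤ (algebraMap ℚ N ((p : ℚ)⁻¹)) := by
    rw [← h2]; exact x.isIntegral_coe
  have h4 : IsIntegral ℤ ((p : ℚ)⁻¹) :=
    (isIntegral_algebraMap_iff (algebraMap ℚ N).injective).1 h3
  obtain ⟨k, hk⟩ := IsIntegrallyClosed.isIntegral_iff.1 h4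
  have h5 : (p : ℚ) * (k : ℚ) = 1 := by
    have h6 : (k : ℚ) = (p : ℚ)⁻¹ := by simpa using hk
    rw [h6]
    exact mul_inv_cancel₀ (Nat.cast_ne_zero.2 hp.ne_zero)
  have h7 : (p : ℤ) * k = 1 := by exact_mod_cast h5
  have h8 : (p : ℤ) ∣ 1 := ⟨k, h7.symm⟩
  exact hp.one_lt.ne' (by exact_mod_cast Int.eq_one_of_dvd_one (by positivity) h8)

end CRTx

open CRTx in
theorem t_CRT : S_CRT := by
  intro N _ _ p m h ζ a hp hζ hhζ hh ha hha hno
  have : Fact p.Prime := ⟨hp⟩
  let g : 𝓞 N ≃+* 𝓞 N := RingOfIntegers.mapRingEquiv (h : N ≃+* N)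
  have hg1 : ∀ x : 𝓞 N, ((g x : 𝓞 N) : N) = h (x : N) := fun x => rfl
  have hgk : ∀ (k : ℕ) (x : 𝓞 N), (((g ^ k) x : 𝓞 N) : N) = (h ^ k) (x : N) := by
    intro k
    induction k with
    | zero => intro x; rfl
    | succ k ih =>
      intro x
      rw [pow_succ', pow_succ']
      show ((g ((g ^ k) x) : 𝓞 N) : N) = h ((h ^ k) (x : N))
      rw [hg1, ih]
  have hζi : IsIntegral ℤ ζ := hζ.isIntegral hp.pos
  let ζ' : 𝓞 N := ⟨ζ, hζi⟩
  have hζ' : ζ' ^ p = 1 := by
    apply RingOfIntegers.ext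
    have h1 : algebraMap (𝓞 N) N (ζ' ^ p) = ζ ^ p := by rw [map_pow]; rfl
    show algebraMap (𝓞 N) N (ζ' ^ p) = algebraMap (𝓞 N) N 1
    rw [h1, hζ.pow_eq_one, map_one]
  have hgζ : g ζ' = ζ' := RingOfIntegers.ext hhζ
  have hga : g a = a := RingOfIntegers.ext hha
  have hgp : g ^ (p ^ m) = 1 := by
    apply RingEquiv.ext
    intro x
    apply RingOfIntegers.ext
    rw [hgk, hh]
    rfl
  have hnu : ¬ IsUnit ((p : 𝓞 N) * a) := fun hu => not_isUnit_prime N p hp (isUnit_of_mul_isUnit_left hu)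
  have hpa : (p : 𝓞 N) * a ≠ 0 := mul_ne_zero (Nat.cast_ne_zero.2 hp.ne_zero) ha
  have hm : 1 ≤ m := by
    by_contra hm0
    have hm0' : m = 0 := by omega
    subst hm0'
    rw [pow_zero, pow_one] at hh
    obtain ⟨K, hK, hK2⟩ := exists_max_ideal_of_mem_nonunits (mem_nonunits_iff.2 hnu)
    have h3 : K ≠ ⊥ := by
      rintro rfl
      exact hpa (Ideal.mem_bot.1 hK2)
    refine hno ⟨K, hK.isPrime, h3⟩ hK2 ?_
    intro x y hxy hx
    rw [hh] at hxy
    have : y = x := RingOfIntegers.ext hxy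
    rw [this]; exact hx
  obtain ⟨τ, w, h1, h2⟩ := core p m g ζ' a hζ' hgζ hgp hm ha hga (by
    intro W hW hfix
    refine hno W hW ?_
    intro x y hxy hx
    have hy : y = g x := RingOfIntegers.ext hxy
    rw [← hfix, mem_act, hy, RingEquiv.symm_apply_apply]
    exact hx)
  refine ⟨τ, (p : 𝓞 N) * w, ?_, ?_, ?_⟩
  · rintro rfl
    rw [zero_pow hp.ne_zero] at h2
    refine hnu (IsUnit.of_mul_eq_one (-w) ?_)
    linear_combination h2
  · have h3 := congrArg (algebraMap (𝓞 N) N) h1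
    rw [map_mul] at h3
    exact h3
  · have h3 := congrArg (algebraMap (𝓞 N) N) h2
    rw [map_pow, map_add, map_mul, map_mul, map_one, map_natCast] at h3
    show (algebraMap (𝓞 N) N τ) ^ p = 1 + algebraMap (𝓞 N) N a * algebraMap (𝓞 N) N ((p : 𝓞 N) * w)
    rw [h3, map_mul, map_natCast]
    ring

end EUN
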