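import Pool.Agent.EUN.St

/-!
# The divisibility lemma
-/

set_option autoImplicit false

namespace EUN

namespace DIVx

/-- a divisor of `(p - 1) p ^ t` which is not divisible by `p ^ c` divides `(p - 1) p ^ B`, `c ≤ B + 1` -/
theorem dvd_of_not {p o t c B : ℕ} (hp : p.Prime) (ho : o ≠ 0) (h : o ∣ p ^ t * (p - 1))
    (hn : ¬ p ^ c ∣ o) (hc : c ≤ B + 1) : o ∣ (p - 1) * p ^ B := by
  obtain ⟨s, o', ho', rfl⟩ := Nat.exists_eq_pow_mul_and_not_dvd ho p hp.ne_one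
  have hs : s ≤ B := by
    by_contra hcon
    exact hn ((pow_dvd_pow p (by omega)).trans (Dvd.intro _ rfl))
  have hco : Nat.Coprime o' (p ^ t) :=
    Nat.Coprime.pow_right t ((Nat.Prime.coprime_iff_not_dvd hp).2 ho').symm
  have h1 : o' ∣ p - 1 := hco.dvd_of_dvd_mul_left ((Dvd.intro_left _ rfl).trans h)
  rw [mul_comm (p - 1)]
  exact mul_dvd_mul (pow_dvd_pow p hs) h1

end DIVx

theorem t_DIV : S_DIV := by
  intro p l k m r a f D hp hl hf hfD hfa hlt hmod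
  rcases Nat.eq_zero_or_pos a with rfl | ha
  · exact dvd_zero f
  obtain ⟨e, f', hf', rfl⟩ := Nat.exists_eq_pow_mul_and_not_dvd hf.ne' p hp.ne_one
  have hp1 := hp.one_lt
  have hf'0 : 0 < f' := Nat.pos_of_ne_zero fun h => hf' (h ▸ dvd_zero p)
  have heD : e < D := by
    have h1 : e < p ^ e := Nat.lt_pow_self hp1
    have h2 : p ^ e ≤ p ^ e * f' := Nat.le_mul_of_pos_right _ hf'0
    omega
  have hcop : Nat.Coprime f' p := ((Nat.Prime.coprime_iff_not_dvd hp).2 hf').symm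
  have hfa' : f' ∣ a :=
    (hcop.pow_right m).dvd_of_dvd_mul_right ((Dvd.intro_left _ rfl).trans hfa)
  refine Nat.Coprime.mul_dvd_of_dvd_of_dvd (hcop.symm.pow_left e) ?_ hfa'
  -- the order of `l` modulo `p ^ k`
  have hk : k ≠ 0 := by
    rintro rfl
    have : 0 < l ^ ((p - 1) * p ^ (D + r)) := pow_pos (by omega) _
    rw [pow_zero] at hlt
    exact absurd hlt (by omega)
  obtain ⟨k', rfl⟩ := Nat.exists_eq_succ_of_ne_zero hk
  have h1 : ((l : ZMod (p ^ (k' + 1))) ^ (a * p ^ r)) = 1 := by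
    have h2' : (l : ℤ) ^ (a * p ^ r) ≡ 1 [ZMOD ((p ^ (k' + 1) : ℕ) : ℤ)] := by
      rw [Nat.cast_pow]
      exact hmod
    have h2 := (ZMod.intCast_eq_intCast_iff _ _ (p ^ (k' + 1))).2 h2'
    push_cast at h2
    exact h2
  have hne : a * p ^ r ≠ 0 := Nat.mul_ne_zero ha.ne' (pow_ne_zero _ hp.ne_zero)
  have hunit : IsUnit (l : ZMod (p ^ (k' + 1))) := IsUnit.of_pow_eq_one h1 hne
  have h3 : (l : ZMod (p ^ (k' + 1))) ^ (p ^ k' * (p - 1)) = 1 := by
    obtain ⟨w, hw⟩ := hunit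
    rw [← hw, ← Nat.totient_prime_pow_succ hp, ← Units.val_pow_eq_pow_val, ZMod.pow_totient,
      Units.val_one]
  have ho1 : orderOf (l : ZMod (p ^ (k' + 1))) ∣ a * p ^ r := orderOf_dvd_of_pow_eq_one h1
  have ho2 : orderOf (l : ZMod (p ^ (k' + 1))) ∣ p ^ k' * (p - 1) := orderOf_dvd_of_pow_eq_one h3
  have ho0 : orderOf (l : ZMod (p ^ (k' + 1))) ≠ 0 := fun h => by
    rw [h, zero_dvd_iff] at ho1
    exact hne ho1
  have hdvd : p ^ (e + r) ∣ orderOf (l : ZMod (p ^ (k' + 1))) := by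
    by_contra hn
    have h4 := DIVx.dvd_of_not hp ho0 ho2 hn (B := D + r) (by omega)
    have h5 : (l : ZMod (p ^ (k' + 1))) ^ ((p - 1) * p ^ (D + r)) = 1 :=
      orderOf_dvd_iff_pow_eq_one.1 h4
    have hX : (p - 1) * p ^ (D + r) ≠ 0 :=
      Nat.mul_ne_zero (by omega) (pow_ne_zero _ hp.ne_zero)
    have h6 : 1 < l ^ ((p - 1) * p ^ (D + r)) := Nat.one_lt_pow hX (by omega)
    have h7 : ((l ^ ((p - 1) * p ^ (D + r)) : ℕ) : ZMod (p ^ (k' + 1))) = ((1 : ℕ) : ZMod (p ^ (k' + 1))) := by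
      push_cast
      exact h5
    rw [ZMod.natCast_eq_natCast_iff] at h7
    have h8 := Nat.mod_eq_of_lt hlt
    have h9 : (1 : ℕ) % p ^ (k' + 1) = 1 := Nat.mod_eq_of_lt (h6.trans hlt)
    have h10 : l ^ ((p - 1) * p ^ (D + r)) = 1 := by
      have h11 : l ^ ((p - 1) * p ^ (D + r)) % p ^ (k' + 1) = 1 % p ^ (k' + 1) := h7
      rw [h9] at h11
      rw [← h8]
      exact h11
    omega
  have h8 : p ^ e * p ^ r ∣ a * p ^ r := by
    rw [← pow_add]
    exact hdvd.trans ho1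
  exact Nat.dvd_of_mul_dvd_mul_right (pow_pos hp.pos r) h8

end EUN
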