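import Pool.Agent.EUN.St

/-!
# EUN, module FIX
-/

open NumberField IsDedekindDomain
open scoped Classical

namespace EUN

open StarkC

theorem FIXx.commutes {Ω : Type} [Field Ω] [CharZero Ω] {N : Type} [Field N] [NumberField N]
    [IsGalois ℚ N] [Algebra N Ω] (y : Ω ≃ₐ[ℚ] Ω) (z : N) :
    algebraMap N Ω ((AlgEquiv.restrictNormalHom N y : N ≃ₐ[ℚ] N) z) = y (algebraMap N Ω z) :=
  AlgEquiv.restrictNormal_commutes y N z

theorem FIXx.exists_pow {Ω : Type} [Field Ω] [CharZero Ω] {N : Type} [Field N] [NumberField N]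
    [IsGalois ℚ N] [Algebra N Ω] (p : ℕ) (y : Ω ≃ₐ[ℚ] Ω) (hy : PPow p y) :
    ∃ m : ℕ, (AlgEquiv.restrictNormalHom N y : N ≃ₐ[ℚ] N) ^ (p ^ m) = 1 := by
  let pb := Field.powerBasisOfFiniteOfSeparable ℚ N
  obtain ⟨k, hk⟩ := hy (algebraMap N Ω pb.gen)
  refine ⟨k, ?_⟩
  rw [← map_pow]
  have h1 : (AlgEquiv.restrictNormalHom N (y ^ p ^ k) : N ≃ₐ[ℚ] N) pb.gen = pb.gen := by
    apply (algebraMap N Ω).injective
    rw [FIXx.commutes, hk]
  have h2 : ((AlgEquiv.restrictNormalHom N (y ^ p ^ k) : N ≃ₐ[ℚ] N) : N →ₐ[ℚ] N) =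
      ((1 : N ≃ₐ[ℚ] N) : N →ₐ[ℚ] N) := by
    apply pb.algHom_ext
    simpa using h1
  ext z
  exact DFunLike.congr_fun h2 z

theorem t_FIX (h1 : S_CORE) (h2 : S_CRT) : S_FIX := by
  intro Ω _ _ _ N _ _ _ _ p M y ζ₀ b₀ j hp hζ hyζ hi hy hb₀ hyb hj hW
  obtain ⟨m, hm⟩ := FIXx.exists_pow (N := N) p y hy
  have hcom := FIXx.commutes (N := N) y
  set h : N ≃ₐ[ℚ] N := AlgEquiv.restrictNormalHom N y with hh
  have hinj := (algebraMap N Ω).injective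
  have hζ' : h ζ₀ = ζ₀ := hinj (by rw [hcom, hyζ])
  have hb' : h (b₀ : N) = ζ₀ ^ j * (b₀ : N) := hinj (by rw [hcom, hyb]; simp)
  have hp0 : (p : 𝓞 N) ≠ 0 := by exact_mod_cast hp.ne_zero
  let b₁ : 𝓞 N := ((p : 𝓞 N) ^ M) ^ p * b₀
  have hb₁ : b₁ ≠ 0 := mul_ne_zero (pow_ne_zero _ (pow_ne_zero _ hp0)) hb₀
  have hcb₁ : (b₁ : N) = ((p : N) ^ M) ^ p * (b₀ : N) := by simp [b₁]
  have hhb₁ : h (b₁ : N) = ζ₀ ^ j * (b₁ : N) := by
    rw [hcb₁, map_mul, hb', map_pow, map_pow, map_natCast]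
    ring
  let a : 𝓞 N := b₁ ^ p * (p : 𝓞 N) ^ M
  have ha : a ≠ 0 := mul_ne_zero (pow_ne_zero _ hb₁) (pow_ne_zero _ hp0)
  have hca : (a : N) = (b₁ : N) ^ p * (p : N) ^ M := by simp [a]
  have hha : h (a : N) = (a : N) := by
    rw [hca, map_mul, map_pow, map_pow, map_natCast, hhb₁, mul_pow, ← pow_mul, mul_comm j p,
      pow_mul, hζ.pow_eq_one, one_pow, one_mul]
  have hWa : ∀ W : HeightOneSpectrum (𝓞 N), (p : 𝓞 N) * a ∈ W.asIdeal → ¬ Dec W h := by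
    intro W hWa
    apply hW W
    have hP := W.isPrime
    have hor : (p : 𝓞 N) ∈ W.asIdeal ∨ b₀ ∈ W.asIdeal := by
      rcases hP.mem_or_mem hWa with h3 | h3
      · exact Or.inl h3
      · rcases hP.mem_or_mem h3 with h4 | h4
        · have h5 := hP.mem_of_pow_mem _ h4
          rcases hP.mem_or_mem h5 with h6 | h6
          · exact Or.inl (hP.mem_of_pow_mem _ (hP.mem_of_pow_mem _ h6))
          · exact Or.inr h6
        · exact Or.inl (hP.mem_of_pow_mem _ h4)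
    rcases hor with h3 | h3
    · exact W.asIdeal.mul_mem_right _ h3
    · exact W.asIdeal.mul_mem_left _ h3
  obtain ⟨τ, s, hτ, hhτ, hτp⟩ := h2 N p m h ζ₀ a hp hζ hζ' hm ha hha hWa
  have hint : ∀ z : 𝓞 N, IsIntegral ℤ (algebraMap N Ω (z : N)) := fun z =>
    z.isIntegral_coe.map (algebraMap N Ω).toIntAlgHom
  refine h1 Ω p M y (algebraMap N Ω ζ₀) (algebraMap N Ω (b₁ : N)) (algebraMap N Ω (b₀ : N))
    (algebraMap N Ω ((b₁ * s : 𝓞 N) : N)) (algebraMap N Ω (τ : N)) 1 j hp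
    (hζ.map_of_injective hinj) hyζ hi hy (hint b₀) ?_ ?_ ?_ hj ?_ ?_ ?_ (hint _) ?_
  · rw [hcb₁]
    simp
  · rw [Ne, map_eq_zero]
    exact_mod_cast hb₁
  · rw [← hcom, hhb₁]
    simp
  · rw [Ne, map_eq_zero]
    exact_mod_cast hτ
  · rw [← hcom, hhτ]
    simp
  · intro h3
    exact hp.one_lt.ne' (Nat.dvd_one.1 h3)
  · rw [← map_pow, hτp, hca, map_add, map_one, map_mul, map_mul, map_pow, map_pow, map_natCast]
    have h3 : algebraMap N Ω ((b₁ * s : 𝓞 N) : N) =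
        algebraMap N Ω (b₁ : N) * algebraMap N Ω (s : N) := by simp
    rw [h3]
    have h4 : (algebraMap N Ω (b₁ : N)) ^ p =
        (algebraMap N Ω (b₁ : N)) ^ (p - 1) * algebraMap N Ω (b₁ : N) := by
      rw [← pow_succ]
      congr 1
      have := hp.pos
      omega
    rw [h4]
    ring

end EUN
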