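import Pool.Agent.EUN.St

/-!
# Eigen-units of the `p`-part of an automorphism
-/

open NumberField IsDedekindDomain
open scoped Classical

namespace EUN

open StarkC

theorem GENx.res_pow {Ω : Type} [Field Ω] [CharZero Ω] (M : Type) [Field M] [NumberField M]
    [IsGalois ℚ M] [Algebra M Ω] (p : ℕ) (x y : Ω ≃ₐ[ℚ] Ω)
    (h : ∀ S : Finset Ω, ∃ e : ℕ, ¬ p ∣ e ∧ ∀ z ∈ S, y z = (x ^ e) z) :
    ∃ e : ℕ, ¬ p ∣ e ∧ (AlgEquiv.restrictNormalHom M y : M ≃ₐ[ℚ] M) =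
      (AlgEquiv.restrictNormalHom M x) ^ e := by
  let b := Module.finBasis ℚ M
  obtain ⟨e, he, h1⟩ := h (Finset.univ.image fun i => algebraMap M Ω (b i))
  refine ⟨e, he, ?_⟩
  rw [← map_pow]
  have h2 : (AlgEquiv.restrictNormalHom M y : M ≃ₐ[ℚ] M).toLinearMap =
      (AlgEquiv.restrictNormalHom M (x ^ e) : M ≃ₐ[ℚ] M).toLinearMap := by
    refine b.ext fun i => ?_
    apply (algebraMap M Ω).injective
    have h3 := AlgEquiv.restrictNormal_commutes y M (b i)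
    have h4 := AlgEquiv.restrictNormal_commutes (x ^ e) M (b i)
    have h5 := h1 _ (Finset.mem_image_of_mem _ (Finset.mem_univ i))
    exact h3.trans (h5.trans h4.symm)
  ext z
  exact congrArg (algebraMap M M) (LinearMap.congr_fun h2 z)

theorem t_GEN (hPPT : S_PPT) (hTOR : S_TOR) (hGNP : S_GNP) : S_GEN := by
  intro Ω _ _ _ halg M _ _ _ _ T C ν p x hx hp hpT hA hdvd
  obtain ⟨y, hP, hfin, hr1, hr2⟩ := hPPT Ω halg p x hp
  refine ⟨y, ⟨hP, hfin, hr1, hr2⟩, ?_⟩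
  obtain ⟨e, he, hye⟩ := GENx.res_pow M p x y hfin
  have hy1 : (AlgEquiv.restrictNormalHom M y : M ≃ₐ[ℚ] M) ∈ C := by
    rw [hye]
    exact C.pow_mem hx e
  have hν : ν ⟨AlgEquiv.restrictNormalHom M y, hy1⟩ =
      ν ⟨AlgEquiv.restrictNormalHom M x, hx⟩ ^ e := by
    rw [← map_pow]
    congr 1
    exact Subtype.ext hye
  have hν1 : ν ⟨AlgEquiv.restrictNormalHom M y, hy1⟩ ≠ 1 := by
    intro h
    rw [hν, ← orderOf_dvd_iff_pow_eq_one] at h
    exact he (hdvd.trans h)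
  by_cases hex : ∃ r : ℕ, y ^ (p ^ r) = 1
  · obtain ⟨r, hr⟩ := hex
    have hne : y ≠ 1 := by
      rintro rfl
      apply hν1
      have h1 : (⟨AlgEquiv.restrictNormalHom M (1 : Ω ≃ₐ[ℚ] Ω), hy1⟩ : C) = 1 :=
        Subtype.ext (map_one _)
      rw [h1, map_one]
    obtain ⟨h2, h3, h4⟩ := hTOR Ω p r y hp hP hne hr
    refine Or.inr ⟨h2, fun h => ?_, h3, h4⟩
    have h5 : ν ⟨AlgEquiv.restrictNormalHom M x, hx⟩ ^ (2 * e) = 1 := by
      rw [mul_comm, pow_mul, ← hν, ← map_pow]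
      have h6 : (⟨AlgEquiv.restrictNormalHom M y, hy1⟩ : C) ^ 2 = 1 := by
        apply Subtype.ext
        show (AlgEquiv.restrictNormalHom M y : M ≃ₐ[ℚ] M) ^ 2 = 1
        rw [← map_pow, h3, map_one]
      rw [h6, map_one]
    have h7 := h.trans (orderOf_dvd_of_pow_eq_one h5)
    subst h2
    exact he (by omega)
  · left
    intro r A hI
    have hne : y ^ (p ^ r) ≠ 1 := fun h => hex ⟨r, h⟩
    refine hGNP Ω halg M p r A y hp hP hne hI (fun w hw hd => hν1 ?_) (fun w hF => hν1 ?_)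
    · exact hA.2.2 w ⟨_, hy1⟩ ⟨p, hpT, hp, hw⟩ hd
    · exact hA.2.1 w ⟨_, hy1⟩ hF

end EUN
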