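import Pool.Agent.EUN.GEN
import Pool.Agent.StarkU.UALG

/-!
# Eigen-units exist
-/

open NumberField IsDedekindDomain
open scoped Classical

namespace EUN

open StarkC

namespace GNPx

section basic

variable {Ω : Type} [Field Ω] [CharZero Ω]

theorem pow_fix {y : Ω ≃ₐ[ℚ] Ω} {z : Ω} (h : y z = z) (n : ℕ) : (y ^ n) z = z := by
  induction n with
  | zero => rw [pow_zero]; rfl
  | succ n ih => rw [pow_succ, AlgEquiv.mul_apply, h, ih]

theorem fix_mul {y : Ω ≃ₐ[ℚ] Ω} {z : Ω} {a : ℕ} (h : (y ^ a) z = z) (n : ℕ) :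
    (y ^ (a * n)) z = z := by
  rw [pow_mul]
  exact pow_fix h n

theorem ppow_finset {p : ℕ} {y : Ω ≃ₐ[ℚ] Ω} (hP : PPow p y) (S : Finset Ω) :
    ∃ m : ℕ, ∀ z ∈ S, (y ^ (p ^ m)) z = z := by
  induction S using Finset.induction_on with
  | empty => exact ⟨0, by simp⟩
  | insert a S ha ih =>
    obtain ⟨m, hm⟩ := ih
    obtain ⟨k, hk⟩ := hP a
    refine ⟨m + k, fun z hz => ?_⟩
    rcases Finset.mem_insert.1 hz with rfl | hz
    · rw [add_comm, pow_add p]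
      exact fix_mul hk _
    · rw [pow_add p]
      exact fix_mul (hm z hz) _

theorem ppow_pow {p : ℕ} {y : Ω ≃ₐ[ℚ] Ω} (hP : PPow p y) (r : ℕ) : PPow p (y ^ (p ^ r)) := by
  intro z
  obtain ⟨k, hk⟩ := hP z
  refine ⟨k, ?_⟩
  rw [← pow_mul, mul_comm]
  exact fix_mul hk _

variable (N : Type) [Field N] [NumberField N] [IsGalois ℚ N] [Algebra N Ω]

theorem res_apply (y : Ω ≃ₐ[ℚ] Ω) (z : N) :
    algebraMap N Ω ((AlgEquiv.restrictNormalHom N y : N ≃ₐ[ℚ] N) z) = y (algebraMap N Ω z) :=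
  AlgEquiv.restrictNormal_commutes y N z

theorem res_ppow {p : ℕ} {y : Ω ≃ₐ[ℚ] Ω} (hP : PPow p y) :
    ∃ m : ℕ, (AlgEquiv.restrictNormalHom N y : N ≃ₐ[ℚ] N) ^ (p ^ m) = 1 := by
  let b := Module.finBasis ℚ N
  obtain ⟨m, hm⟩ := ppow_finset hP (Finset.univ.image fun i => algebraMap N Ω (b i))
  refine ⟨m, ?_⟩
  rw [← map_pow]
  have h2 : (AlgEquiv.restrictNormalHom N (y ^ (p ^ m)) : N ≃ₐ[ℚ] N).toLinearMap =
      (1 : N ≃ₐ[ℚ] N).toLinearMap := by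
    refine b.ext fun i => ?_
    apply (algebraMap N Ω).injective
    have h4 := res_apply N (y ^ (p ^ m)) (b i)
    have h5 := hm _ (Finset.mem_image_of_mem _ (Finset.mem_univ i))
    exact h4.trans h5
  ext z
  exact congrArg (algebraMap N N) (LinearMap.congr_fun h2 z)

theorem res_ne_one {y : Ω ≃ₐ[ℚ] Ω} {z : N} (h : y (algebraMap N Ω z) ≠ algebraMap N Ω z) :
    (AlgEquiv.restrictNormalHom N y : N ≃ₐ[ℚ] N) ≠ 1 := by
  intro h1
  apply h
  rw [← res_apply, h1]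
  rfl

end basic

/-- a multiple which is a natural number -/
theorem exists_nat {Ω : Type} [Field Ω] [CharZero Ω] (b : Ω) (hb : IsIntegral ℤ b) (h0 : b ≠ 0) :
    ∃ (c : ℕ) (b' : Ω), c ≠ 0 ∧ IsIntegral ℤ b' ∧ b * b' = (c : Ω) := by
  -- the constant coefficient of the minimal polynomial
  have hm := minpoly.monic hb
  have h1 : Polynomial.aeval b (minpoly ℤ b) = 0 := minpoly.aeval ℤ b
  have hc : (minpoly ℤ b).coeff 0 ≠ 0 := by
    intro h
    have h3 := minpoly.isIntegrallyClosed_eq_field_fractions' ℚ hb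
    have h4 : (minpoly ℚ b).coeff 0 ≠ 0 := minpoly.coeff_zero_ne_zero hb.tower_top h0
    apply h4
    rw [h3, Polynomial.coeff_map, h, map_zero]
  have h2 := Polynomial.divX_mul_X_add (minpoly ℤ b)
  rw [← h2, map_add, map_mul, Polynomial.aeval_X, Polynomial.aeval_C] at h1
  set q := Polynomial.aeval b (minpoly ℤ b).divX with hq
  have hqi : IsIntegral ℤ q := by
    have h3 : q ∈ Algebra.adjoin ℤ {b} := by
      rw [hq]
      exact Polynomial.aeval_mem_adjoin_singleton ℤ b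
    exact IsIntegral.of_mem_of_fg _ (hb.fg_adjoin_singleton) _ h3
  have h4 : b * q = -((minpoly ℤ b).coeff 0 : Ω) := by
    have h5 : q * b + ((minpoly ℤ b).coeff 0 : Ω) = 0 := by
      simpa using h1
    linear_combination h5
  rcases le_total 0 ((minpoly ℤ b).coeff 0) with h6 | h6
  · obtain ⟨c, hc'⟩ := Int.eq_ofNat_of_zero_le h6
    refine ⟨c, -q, ?_, hqi.neg, ?_⟩
    · rintro rfl
      exact hc hc'
    · rw [mul_neg, h4, neg_neg, hc']
      simp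
  · obtain ⟨c, hc'⟩ := Int.eq_ofNat_of_zero_le (neg_nonneg.2 h6)
    refine ⟨c, q, ?_, hqi, ?_⟩
    · rintro rfl
      apply hc
      simpa using hc'
    · rw [h4]
      have : ((-(minpoly ℤ b).coeff 0 : ℤ) : Ω) = ((c : ℤ) : Ω) := by rw [hc']
      simpa using this

/-- an eigenvector of `h`, a multiple of it and the alternative on roots of unity -/
theorem exists_b (hHIL : S_HIL) (hBIG : S_BIG) {Ω : Type} [Field Ω] [CharZero Ω] [IsAlgClosed Ω]
    (halg : Algebra.IsAlgebraic ℚ Ω) (M : Type) [Field M] [NumberField M] [IsGalois ℚ M]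
    [Algebra M Ω] (p : ℕ) (h : Ω ≃ₐ[ℚ] Ω) (hp : p.Prime) (hP : PPow p h) (hne : h ≠ 1) (ζ : Ω)
    (hζ : IsPrimitiveRoot ζ p) (hζ1 : h ζ = ζ) :
    ∃ (b : Ω) (j c : ℕ) (b' : Ω), IsIntegral ℤ b ∧ b ≠ 0 ∧ h b = ζ ^ j * b ∧ ¬ p ∣ j ∧ c ≠ 0 ∧
      IsIntegral ℤ b' ∧ b * b' = (c : Ω) ∧
      (c = 1 ∨ ∀ (ξ : Ω) (k : ℕ), IsPrimitiveRoot ξ (p ^ k) → h ξ = ξ) := by
  by_cases hall : ∀ (k : ℕ) (ξ : Ω), IsPrimitiveRoot ξ (p ^ k) → h ξ = ξ
  · -- case (α)
    obtain ⟨z, hz⟩ : ∃ z : Ω, h z ≠ z := by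
      by_contra hcon
      push Not at hcon
      exact hne (AlgEquiv.ext hcon)
    obtain ⟨N, _, _, _, _, _, _, _, _, hN⟩ := hBIG M M Ω halg {ζ, z}
    obtain ⟨ζ', hζ'⟩ := hN ζ (by simp)
    obtain ⟨z', hz'⟩ := hN z (by simp)
    obtain ⟨m, hm⟩ := res_ppow N hP
    have hprim : IsPrimitiveRoot ζ' p :=
      IsPrimitiveRoot.of_map_of_injective (f := algebraMap N Ω) (by rw [hζ']; exact hζ)
        (algebraMap N Ω).injective
    have hfix : (AlgEquiv.restrictNormalHom N h : N ≃ₐ[ℚ] N) ζ' = ζ' := by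
      apply (algebraMap N Ω).injective
      rw [res_apply, hζ', hζ1]
    obtain ⟨b, hb0, hb⟩ := hHIL N p m (AlgEquiv.restrictNormalHom N h) ζ' hp hprim hfix hm
      (res_ne_one N (z := z') (by rw [hz']; exact hz))
    have hbi : IsIntegral ℤ (algebraMap N Ω (b : N)) := b.2.map (algebraMap N Ω).toIntAlgHom
    have hb1 : algebraMap N Ω (b : N) ≠ 0 := by
      intro h1
      have h2 : (b : N) = 0 := (algebraMap N Ω).injective (by rw [h1, map_zero])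
      exact hb0 (RingOfIntegers.ext h2)
    obtain ⟨c, b', hc, hb', hbc⟩ := exists_nat _ hbi hb1
    refine ⟨algebraMap N Ω (b : N), 1, c, b', hbi, hb1, ?_, ?_, hc, hb', hbc, Or.inr fun ξ k =>
      hall k ξ⟩
    · rw [← res_apply, hb, map_mul, hζ', pow_one]
    · intro h1
      exact hp.one_lt.ne' (Nat.dvd_one.1 h1)
  · -- case (β)
    push Not at hall
    have hex : ∃ k : ℕ, ∃ ξ : Ω, IsPrimitiveRoot ξ (p ^ k) ∧ h ξ ≠ ξ := hall
    obtain ⟨ξ, hξ, hξ1⟩ := Nat.find_spec hex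
    set k := Nat.find hex with hk
    have hk0 : k ≠ 0 := by
      intro h0
      rw [h0, pow_zero] at hξ
      apply hξ1
      rw [IsPrimitiveRoot.one_right_iff.1 hξ, map_one]
    have hξ0 : ξ ≠ 0 := hξ.ne_zero (pow_ne_zero _ hp.ne_zero)
    obtain ⟨k', hk'⟩ := Nat.exists_eq_succ_of_ne_zero hk0
    have h2 : IsPrimitiveRoot (ξ ^ p) (p ^ k') := by
      refine hξ.pow (Nat.pos_of_ne_zero (pow_ne_zero _ hp.ne_zero)) ?_
      rw [hk', Nat.succ_eq_add_one, pow_succ, mul_comm]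
    have h3 : h (ξ ^ p) = ξ ^ p := by
      by_contra h4
      exact Nat.find_min hex (m := k') (by rw [← hk, hk']; exact Nat.lt_succ_self _)
        ⟨ξ ^ p, h2, h4⟩
    have h5 : (h ξ / ξ) ^ p = 1 := by
      rw [div_pow, ← map_pow, h3, div_self (pow_ne_zero _ hξ0)]
    have : NeZero p := ⟨hp.ne_zero⟩
    obtain ⟨j, _, hj⟩ := hζ.eq_pow_of_pow_eq_one h5
    have h6 : h ξ = ζ ^ j * ξ := by
      rw [hj, div_mul_cancel₀ _ hξ0]
    have hξi : IsIntegral ℤ ξ := hξ.isIntegral (Nat.pos_of_ne_zero (pow_ne_zero _ hp.ne_zero))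
    refine ⟨ξ, j, 1, ξ ^ (p ^ k - 1), hξi, hξ0, h6, ?_, one_ne_zero, hξi.pow _, ?_, Or.inl rfl⟩
    · intro h7
      apply hξ1
      rw [h6, (hζ.pow_eq_one_iff_dvd j).2 h7, one_mul]
    · rw [← pow_succ', Nat.sub_add_cancel (Nat.one_le_iff_ne_zero.2
        (pow_ne_zero _ hp.ne_zero)), hξ.pow_eq_one, Nat.cast_one]

theorem exists_k (p D : ℕ) (hp : p.Prime) (T : Finset ℕ) :
    ∃ k : ℕ, ∀ l ∈ T, l ^ ((p - 1) * p ^ D) < p ^ k := by
  refine ⟨∑ l ∈ T, l ^ ((p - 1) * p ^ D) + 1, fun l hl => ?_⟩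
  have h1 : l ^ ((p - 1) * p ^ D) ≤ ∑ l ∈ T, l ^ ((p - 1) * p ^ D) :=
    Finset.single_le_sum (f := fun l => l ^ ((p - 1) * p ^ D)) (fun _ _ => Nat.zero_le _) hl
  have h2 := (∑ l ∈ T, l ^ ((p - 1) * p ^ D) + 1).lt_pow_self hp.one_lt
  omega

/-- the prime number below a prime which contains `p b` -/
theorem exists_l {N Ω : Type} [Field N] [NumberField N] [Field Ω] [CharZero Ω] [Algebra N Ω]
    (p c : ℕ) (hp : p.Prime) (hc : c ≠ 0) (b₀ b₁ : 𝓞 N) (hb : b₀ * b₁ = (c : 𝓞 N))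
    (W : HeightOneSpectrum (𝓞 N)) (hW : (p : 𝓞 N) * b₀ ∈ W.asIdeal) :
    ∃ l ∈ (p * c).primeFactors, (l : 𝓞 N) ∈ W.asIdeal := by
  have h1 : ((p * c : ℕ) : 𝓞 N) ∈ W.asIdeal := by
    rw [Nat.cast_mul, ← hb, ← mul_assoc]
    exact W.asIdeal.mul_mem_right _ hW
  have h2 : ∀ n : ℕ, n ≠ 0 → (n : 𝓞 N) ∈ W.asIdeal → ∃ l ∈ n.primeFactors,
      (l : 𝓞 N) ∈ W.asIdeal := by
    intro n
    induction n using Nat.recOnMul with
    | zero => intro h; exact absurd rfl h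
    | one =>
      intro _ h
      rw [Nat.cast_one] at h
      exact absurd ((Ideal.eq_top_iff_one _).2 h) W.isPrime.ne_top
    | prime q hq =>
      intro _ h
      exact ⟨q, by rw [Nat.mem_primeFactors]; exact ⟨hq, dvd_rfl, hq.ne_zero⟩, h⟩
    | mul a b iha ihb =>
      intro hab h
      have ha : a ≠ 0 := left_ne_zero_of_mul hab
      have hb : b ≠ 0 := right_ne_zero_of_mul hab
      rw [Nat.cast_mul] at h
      rcases W.isPrime.mem_or_mem h with h3 | h3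
      · obtain ⟨l, hl, hl2⟩ := iha ha h3
        exact ⟨l, by rw [Nat.primeFactors_mul ha hb]; exact Finset.mem_union_left _ hl, hl2⟩
      · obtain ⟨l, hl, hl2⟩ := ihb hb h3
        exact ⟨l, by rw [Nat.primeFactors_mul ha hb]; exact Finset.mem_union_right _ hl, hl2⟩
  exact h2 _ (mul_ne_zero hp.ne_zero hc) h1

end GNPx

open GNPx in
theorem t_GNP (hZET : S_ZET) (hHIL : S_HIL) (hFIX : S_FIX) (hRES : S_RES) (hBIG : S_BIG)
    (hFK : Stmt_UFK) : S_GNP := by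
  intro Ω _ _ _ halg M _ _ _ _ p r A y hp hP hne hI hD hF
  obtain ⟨ζ, hζ⟩ : ∃ ζ : Ω, IsPrimitiveRoot ζ p := by
    have : NeZero p := ⟨hp.ne_zero⟩
    have : NeZero (p : Ω) := ⟨by exact_mod_cast hp.ne_zero⟩
    exact HasEnoughRootsOfUnity.exists_primitiveRoot Ω p
  have hζy : y ζ = ζ := hZET Ω p y ζ hp hζ hP
  have hζh : (y ^ (p ^ r)) ζ = ζ := pow_fix hζy _
  have hPh := ppow_pow hP r
  obtain ⟨b, j, c, b', hbi, hb0, hbj, hj, hc, hb'i, hbc, halt⟩ :=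
    exists_b hHIL hBIG halg M p (y ^ (p ^ r)) hp hPh hne ζ hζ hζh
  set T' : Finset ℕ := (p * c).primeFactors with hT'
  obtain ⟨k, hk⟩ := exists_k p (Module.finrank ℚ M + r) hp T'
  obtain ⟨ξ, hξ⟩ : ∃ ξ : Ω, IsPrimitiveRoot ξ (p ^ k) := by
    have : NeZero (p ^ k) := ⟨pow_ne_zero _ hp.ne_zero⟩
    have : NeZero ((p ^ k : ℕ) : Ω) := ⟨by exact_mod_cast pow_ne_zero _ hp.ne_zero⟩
    exact HasEnoughRootsOfUnity.exists_primitiveRoot Ω (p ^ k)
  obtain ⟨z, hz⟩ : ∃ z : Ω, (y ^ (p ^ r)) z ≠ z := by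
    by_contra hcon
    push Not at hcon
    exact hne (AlgEquiv.ext hcon)
  -- the field `M'`
  obtain ⟨M', _, _, iMM', iMM'2, _, _, t1, t2, hM'⟩ := hBIG M M Ω halg {ζ, b, b', ξ, z}
  clear t1
  clear iMM'2
  obtain ⟨ζ₁, hζ₁⟩ := hM' ζ (by simp)
  obtain ⟨b₁, hb₁⟩ := hM' b (by simp)
  obtain ⟨b₁', hb₁'⟩ := hM' b' (by simp)
  obtain ⟨ξ₁, hξ₁⟩ := hM' ξ (by simp)
  obtain ⟨z₁, hz₁⟩ := hM' z (by simp)
  have hhM : (AlgEquiv.restrictNormalHom M' (y ^ (p ^ r)) : M' ≃ₐ[ℚ] M') ≠ 1 :=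
    res_ne_one M' (z := z₁) (by rw [hz₁]; exact hz)
  obtain ⟨Nf, _, _, _, _, hNf⟩ := hFK M' T'
  obtain ⟨N, _, _, iMN, iNfN, iNO, _, t3, t4, _⟩ := hBIG M' Nf Ω halg ∅
  -- F. K. Schmidt at level `N`
  have hFKN : ∀ (h : N ≃ₐ[ℚ] N) (P Q : HeightOneSpectrum (𝓞 N)), Dec P h → Dec Q h →
      AboveT T' P → AboveT T' Q → P.under (𝓞 M') ≠ Q.under (𝓞 M') →
      (AlgEquiv.restrictNormalHom M' h : M' ≃ₐ[ℚ] M') = 1 := by
    intro h P Q hP hQ hTP hTQ hne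
    have h1 := hNf (AlgEquiv.restrictNormalHom Nf h) (P.under (𝓞 Nf)) (Q.under (𝓞 Nf))
      (RB.dec_restrict hP) (RB.dec_restrict hQ) ((UALG.aboveT_under _ _).2 hTP)
      ((UALG.aboveT_under _ _).2 hTQ) (by
        rw [RB.under_under, RB.under_under]
        exact hne)
    rwa [UALG.res12] at h1
  have hres : ∀ g : Ω ≃ₐ[ℚ] Ω, (AlgEquiv.restrictNormalHom M'
      (AlgEquiv.restrictNormalHom N g : N ≃ₐ[ℚ] N) : M' ≃ₐ[ℚ] M') =
      AlgEquiv.restrictNormalHom M' g := fun g =>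
    (IsScalarTower.AlgEquiv.restrictNormalHom_comp_apply M' N g).symm
  have hresM : ∀ g : Ω ≃ₐ[ℚ] Ω, (AlgEquiv.restrictNormalHom M
      (AlgEquiv.restrictNormalHom M' g : M' ≃ₐ[ℚ] M') : M ≃ₐ[ℚ] M) =
      AlgEquiv.restrictNormalHom M g := fun g =>
    (IsScalarTower.AlgEquiv.restrictNormalHom_comp_apply M M' g).symm
  have hMNO : ∀ x : M', algebraMap N Ω (algebraMap M' N x) = algebraMap M' Ω x := fun x =>
    (IsScalarTower.algebraMap_apply M' N Ω x).symm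
  -- the data in `N`
  have hb₁i : IsIntegral ℤ b₁ := by
    have h1 : IsIntegral ℤ (algebraMap M' Ω b₁) := by rw [hb₁]; exact hbi
    exact (isIntegral_algHom_iff (algebraMap M' Ω).toIntAlgHom
      (algebraMap M' Ω).injective).1 h1
  have hb₁'i : IsIntegral ℤ b₁' := by
    have h1 : IsIntegral ℤ (algebraMap M' Ω b₁') := by rw [hb₁']; exact hb'i
    exact (isIntegral_algHom_iff (algebraMap M' Ω).toIntAlgHom
      (algebraMap M' Ω).injective).1 h1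
  let b₀ : 𝓞 N := ⟨algebraMap M' N b₁, hb₁i.map (algebraMap M' N).toIntAlgHom⟩
  let b₀' : 𝓞 N := ⟨algebraMap M' N b₁', hb₁'i.map (algebraMap M' N).toIntAlgHom⟩
  have hb₀ : algebraMap N Ω (b₀ : N) = b := by
    show algebraMap N Ω (algebraMap M' N b₁) = b
    rw [hMNO, hb₁]
  have hb₀' : algebraMap N Ω (b₀' : N) = b' := by
    show algebraMap N Ω (algebraMap M' N b₁') = b'
    rw [hMNO, hb₁']
  have hb₀c : b₀ * b₀' = (c : 𝓞 N) := by
    apply RingOfIntegers.ext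
    apply (algebraMap N Ω).injective
    have h1 : ((b₀ * b₀' : 𝓞 N) : N) = (b₀ : N) * (b₀' : N) := rfl
    have h2 : (((c : 𝓞 N) : 𝓞 N) : N) = (c : N) := by simp
    rw [h1, map_mul, hb₀, hb₀', hbc, h2, map_natCast]
  have hb₀0 : b₀ ≠ 0 := by
    intro h1
    apply hb0
    rw [← hb₀, h1]
    simp
  have hζN : algebraMap N Ω (algebraMap M' N ζ₁) = ζ := by rw [hMNO, hζ₁]
  refine hFIX Ω N p A (y ^ (p ^ r)) (algebraMap M' N ζ₁) b₀ j hp
    (IsPrimitiveRoot.of_map_of_injective (f := algebraMap N Ω) (by rw [hζN]; exact hζ)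
        (algebraMap N Ω).injective) (by rw [hζN, hζh]) hI hPh hb₀0
    (by rw [hb₀, hζN]; exact hbj) hj ?_
  intro W hW hdec
  obtain ⟨l, hl, hlW⟩ := exists_l (Ω := Ω) p c hp hc b₀ b₀' hb₀c W hW
  have hlp : l.Prime := Nat.prime_of_mem_primeFactors hl
  have hTW : AboveT T' W := ⟨l, hl, hlp, hlW⟩
  -- `y` fixes the prime below `W` in `M'`
  have hpow : (AlgEquiv.restrictNormalHom N (y ^ (p ^ r)) : N ≃ₐ[ℚ] N) =
      (AlgEquiv.restrictNormalHom N y) ^ (p ^ r) := map_pow _ _ _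
  have h1 := UALG.star (N₁ := M') (N₂ := M') (N := N) T' hFKN
    (AlgEquiv.restrictNormalHom N y) (AlgEquiv.restrictNormalHom N (y ^ (p ^ r)))
    (by rw [hpow]; exact Subgroup.npow_mem_zpowers _ _) W hdec hTW (by rw [hres]; exact hhM)
  rw [hres] at h1
  have hlW' : (l : 𝓞 M') ∈ (W.under (𝓞 M')).asIdeal := (RB.natCast_mem_under W l).2 hlW
  by_cases hlp' : l = p
  · have h2 := RB.dec_restrict (L := M) h1
    rw [hresM] at h2
    refine hD _ ?_ h2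
    rw [RB.natCast_mem_under, ← hlp']
    exact hlW'
  · have h3 : ∀ (ξ : Ω) (k : ℕ), IsPrimitiveRoot ξ (p ^ k) → (y ^ (p ^ r)) ξ = ξ := by
      rcases halt with h4 | h4
      · exfalso
        apply hlp'
        rw [h4, mul_one, Nat.mem_primeFactors] at hl
        exact (Nat.prime_dvd_prime_iff_eq hl.1 hp).1 hl.2.1
      · exact h4
    obtain ⟨m, hm⟩ := res_ppow M' hP
    have hξ₂ : IsPrimitiveRoot ξ₁ (p ^ k) :=
      IsPrimitiveRoot.of_map_of_injective (f := algebraMap M' Ω) (by rw [hξ₁]; exact hξ)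
        (algebraMap M' Ω).injective
    have h5 := hRES M M' p l k m r (AlgEquiv.restrictNormalHom M' y) (W.under (𝓞 M')) ξ₁ hp hlp
      (fun h => hlp' h.symm) hlW' hm h1 hξ₂ (by
        apply (algebraMap M' Ω).injective
        rw [← map_pow, res_apply, hξ₁, h3 ξ k hξ]) (hk l hl)
    rw [hresM] at h5
    exact hF _ h5

end EUN
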