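import Pool.Agent.EUN.St

/-!
# Eigen-units, module HIL: an eigenvector
-/

set_option autoImplicit false

open NumberField
open scoped Classical

namespace EUN

namespace HILx

/-- a combination of the powers of `h` which is not zero -/
theorem exists_ne {N : Type} [Field N] [NumberField N] (h : N ≃ₐ[ℚ] N) (ω : N)
    (hq : 0 < orderOf h) :
    ∃ c : N, ∑ i ∈ Finset.range (orderOf h), ω ^ i * (h ^ i) c ≠ 0 := by
  by_contra hcon
  push Not at hcon
  let f : Fin (orderOf h) → (N →* N) := fun i => ((h ^ (i : ℕ) : N ≃ₐ[ℚ] N) : N ≃* N).toMonoidHom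
  have hf : ∀ i c, f i c = (h ^ (i : ℕ)) c := fun i c => rfl
  have hinj : Function.Injective f := by
    intro i j hij
    have h1 : h ^ (i : ℕ) = h ^ (j : ℕ) := by
      apply AlgEquiv.ext
      intro c
      rw [← hf, ← hf, hij]
    exact Fin.ext (pow_injOn_Iio_orderOf i.2 j.2 h1)
  have hli := (linearIndependent_monoidHom N N).comp f hinj
  have h2 := (Fintype.linearIndependent_iff.1 hli) (fun i => ω ^ (i : ℕ)) (by
    funext c
    rw [Finset.sum_apply]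
    have h3 := hcon c
    rw [← Fin.sum_univ_eq_sum_range (fun i => ω ^ i * (h ^ i) c)] at h3
    exact h3)
  have h4 := h2 ⟨0, hq⟩
  simp at h4

theorem eigen {N : Type} [Field N] [NumberField N] (h : N ≃ₐ[ℚ] N) (ζ : N) (hζ0 : ζ ≠ 0)
    (hζ : h ζ = ζ) (hq : ζ ^ orderOf h = 1) (c : N) :
    h (∑ i ∈ Finset.range (orderOf h), ζ⁻¹ ^ i * (h ^ i) c) =
      ζ * ∑ i ∈ Finset.range (orderOf h), ζ⁻¹ ^ i * (h ^ i) c := by
  have h1 : h (∑ i ∈ Finset.range (orderOf h), ζ⁻¹ ^ i * (h ^ i) c) =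
      ζ * ∑ i ∈ Finset.range (orderOf h), ζ⁻¹ ^ (i + 1) * (h ^ (i + 1)) c := by
    rw [map_sum, Finset.mul_sum]
    apply Finset.sum_congr rfl
    intro i _
    rw [map_mul, map_pow, map_inv₀, hζ, pow_succ' h, AlgEquiv.mul_apply, pow_succ' ζ⁻¹]
    field_simp
  have h2 := Finset.sum_range_succ (fun i => ζ⁻¹ ^ i * (h ^ i) c) (orderOf h)
  have h3 := Finset.sum_range_succ' (fun i => ζ⁻¹ ^ i * (h ^ i) c) (orderOf h)
  have h4 : ζ⁻¹ ^ orderOf h * (h ^ orderOf h) c = ζ⁻¹ ^ 0 * (h ^ 0) c := by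
    rw [pow_orderOf_eq_one, inv_pow, hq, pow_zero, pow_zero, inv_one]
  rw [h1]
  congr 1
  have h5 := h3.symm.trans h2
  rw [h4] at h5
  exact add_right_cancel h5

end HILx

theorem t_HIL : S_HIL := by
  intro N _ _ p m h ζ hp hζ hh hm h1
  have hq0 : 0 < orderOf h := by
    apply Nat.pos_of_ne_zero
    intro h0
    have h2 := orderOf_dvd_of_pow_eq_one hm
    rw [h0, zero_dvd_iff] at h2
    exact (pow_pos hp.pos m).ne' h2
  have hpq : p ∣ orderOf h := by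
    obtain ⟨k, _, hk⟩ := (Nat.dvd_prime_pow hp).1 (orderOf_dvd_of_pow_eq_one hm)
    rw [hk]
    apply dvd_pow_self
    rintro rfl
    rw [pow_zero, orderOf_eq_one_iff] at hk
    exact h1 hk
  have hζ0 : ζ ≠ 0 := hζ.ne_zero hp.ne_zero
  have hq : ζ ^ orderOf h = 1 := (hζ.pow_eq_one_iff_dvd _).2 hpq
  obtain ⟨c, hc⟩ := HILx.exists_ne h ζ⁻¹ hq0
  set b₀ := ∑ i ∈ Finset.range (orderOf h), ζ⁻¹ ^ i * (h ^ i) c with hb
  have hb1 : h b₀ = ζ * b₀ := HILx.eigen h ζ hζ0 hh hq c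
  have halg : IsAlgebraic ℤ b₀ :=
    (IsFractionRing.isAlgebraic_iff ℤ ℚ N).2 (Algebra.IsAlgebraic.isAlgebraic b₀)
  obtain ⟨y, hy, hint⟩ := halg.exists_integral_multiple
  refine ⟨⟨y • b₀, hint⟩, ?_, ?_⟩
  · intro h2
    have h3 := congrArg (fun z : 𝓞 N => (z : N)) h2
    have h4 : y • b₀ = 0 := h3
    rw [zsmul_eq_mul] at h4
    rcases mul_eq_zero.1 h4 with h5 | h5
    · exact hy (by exact_mod_cast h5)
    · exact hc h5
  · show h (y • b₀) = ζ * (y • b₀)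
    rw [map_zsmul, hb1, mul_smul_comm]

end EUN
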