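import Pool.Agent.EUN.St
import Pool.Agent.SSQ.Defs

/-!
# The finite form: normal integral bases at a finite level
-/

open NumberField IsDedekindDomain
open scoped Classical

namespace EUN

open StarkC

theorem nib (hALC : S_ALC) (hGEN : S_GEN) (hTHE : S_THE) (hCPT : S_CPT) : Stmt_NIB := by
  intro M _ _ _ T n hn hT
  obtain ⟨Ω, _, _, _, hcl, halg⟩ := hALC M
  obtain ⟨N, _, _, _, _, hN⟩ := hCPT M Ω halg
    (fun g m => ∃ (C : Subgroup (M ≃ₐ[ℚ] M)) (ν : C →* ℂˣ) (hg : g ∈ C), TypeA T C ν ∧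
      orderOf (ν ⟨g, hg⟩) = m ∧ m ∣ n) n (by
    rintro g m _ ⟨C, ν, hg, hA, hm, hmn⟩
    refine hTHE Ω halg m g (Nat.pos_of_dvd_of_pos hmn hn) fun p hp hpm => ?_
    have h1 := hGEN Ω halg M T C ν p g hg hp (hT p hp (hpm.trans hmn)) hA (by rwa [hm])
    rw [hm] at h1
    exact h1)
  refine ⟨N, inferInstance, inferInstance, inferInstance, inferInstance, ?_⟩
  intro H ψ C ν hcyc hA hψ hres
  obtain ⟨x, hx⟩ := hcyc.exists_generator
  have hpow : ∀ h : H, ∃ i : ℕ, h = x ^ i := by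
    intro h
    obtain ⟨i, hi⟩ := (mem_powers_iff_mem_zpowers (x := x) (y := h)).2 (hx h)
    exact ⟨i, hi.symm⟩
  obtain ⟨c, hc1, hc2⟩ := hres x
  have hord : orderOf (ψ x) = orderOf ψ := by
    refine Nat.dvd_antisymm ?_ ?_
    · rw [orderOf_dvd_iff_pow_eq_one, ← MonoidHom.pow_apply, pow_orderOf_eq_one]
      rfl
    · rw [orderOf_dvd_iff_pow_eq_one]
      refine MonoidHom.ext fun h => ?_
      obtain ⟨i, rfl⟩ := hpow h
      rw [MonoidHom.pow_apply, map_pow, ← pow_mul, mul_comm, pow_mul, pow_orderOf_eq_one, one_pow]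
      rfl
  have hmn : orderOf ψ ∣ n := orderOf_dvd_of_pow_eq_one hψ
  have hmem : AlgEquiv.restrictNormalHom M (x : N ≃ₐ[ℚ] N) ∈ C := by
    rw [hc1]
    exact c.2
  have hνc : ν ⟨AlgEquiv.restrictNormalHom M (x : N ≃ₐ[ℚ] N), hmem⟩ = ψ x := by
    rw [hc2]
    congr 1
    exact Subtype.ext hc1
  obtain ⟨θ, θ', h1, h2, h3, h4, h5⟩ := hN (x : N ≃ₐ[ℚ] N) (orderOf ψ) (Nat.le_of_dvd hn hmn)
    ⟨C, ν, hmem, hA, by rw [hνc, hord], hmn⟩
  have hfix : ∀ (h : H), ψ h = 1 → ∀ z : N, ((x : N ≃ₐ[ℚ] N) ^ orderOf ψ) z = z →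
      (h : N ≃ₐ[ℚ] N) z = z := by
    intro h hh z hz
    obtain ⟨i, rfl⟩ := hpow h
    have h6 : orderOf ψ ∣ i := by
      rw [← hord, orderOf_dvd_iff_pow_eq_one, ← map_pow, hh]
    obtain ⟨k, rfl⟩ := h6
    rw [Subgroup.coe_pow, pow_mul]
    have h7 : ∀ k : ℕ, (((x : N ≃ₐ[ℚ] N) ^ orderOf ψ) ^ k) z = z := by
      intro k
      induction k with
      | zero => rw [pow_zero]; rfl
      | succ k ih => rw [pow_succ, AlgEquiv.mul_apply, hz, ih]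
    exact h7 k
  refine ⟨x, θ, θ', h1, h2, fun h => ?_, fun h hh => ⟨hfix h hh θ h3, hfix h hh θ' h4⟩, h5⟩
  obtain ⟨i, rfl⟩ := hpow h
  exact ⟨i, by rw [map_pow]⟩

end EUN
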