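import Pool.Agent.EUN.St

/-!
# NRM: norms of eigen-units
-/

set_option autoImplicit false
set_option linter.unusedSectionVars false

namespace EUN

namespace NRMx

variable {Ω : Type} [Field Ω] [CharZero Ω]

theorem isU_map (y : Ω ≃ₐ[ℚ] Ω) {u : Ω} (h : IsU u) : IsU (y u) := by
  obtain ⟨h1, v, h2, h3⟩ := h
  refine ⟨map_isIntegral_int y h1, y v, map_isIntegral_int y h2, ?_⟩
  rw [← map_mul, h3, map_one]

theorem isU_one : IsU (1 : Ω) := ⟨isIntegral_one, 1, isIntegral_one, one_mul 1⟩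

theorem isU_mul {u v : Ω} (hu : IsU u) (hv : IsU v) : IsU (u * v) := by
  obtain ⟨h1, a, h2, h3⟩ := hu
  obtain ⟨h4, b, h5, h6⟩ := hv
  refine ⟨h1.mul h4, a * b, h2.mul h5, ?_⟩
  linear_combination h3 * (v * b) + h6

theorem isU_prod {ι : Type} (t : Finset ι) (f : ι → Ω) (h : ∀ i ∈ t, IsU (f i)) :
    IsU (∏ i ∈ t, f i) := by
  classical
  induction t using Finset.induction_on with
  | empty => rw [Finset.prod_empty]; exact isU_one
  | insert a t ha ih =>
    rw [Finset.prod_insert ha]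
    exact isU_mul (h a (Finset.mem_insert_self a t))
      (ih (fun i hi => h i (Finset.mem_insert_of_mem hi)))

/-- congruent to one -/
def Cg (d z : Ω) : Prop := ∃ t : Ω, IsIntegral ℤ t ∧ z = 1 + d * t

theorem cg_prod {ι : Type} (d : Ω) (hd : IsIntegral ℤ d) (t : Finset ι) (f : ι → Ω)
    (h : ∀ i ∈ t, Cg d (f i)) : Cg d (∏ i ∈ t, f i) := by
  classical
  induction t using Finset.induction_on with
  | empty => exact ⟨0, isIntegral_zero, by simp⟩
  | insert a t ha ih =>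
    rw [Finset.prod_insert ha]
    obtain ⟨s, hs, e1⟩ := h a (Finset.mem_insert_self a t)
    obtain ⟨s', hs', e2⟩ := ih (fun i hi => h i (Finset.mem_insert_of_mem hi))
    refine ⟨s + s' + d * (s * s'), (hs.add hs').add (hd.mul (hs.mul hs')), ?_⟩
    rw [e1, e2]
    ring

end NRMx

open NRMx in
theorem t_NRM : S_NRM := by
  intro Ω _ _ p M y ζ hp hζ hy hE
  obtain ⟨u, ξ, s, hu, hξ, hyu, hs, hus⟩ := hE
  have hp0 : NeZero p := ⟨hp.ne_zero⟩
  have hyξ : y ξ = ξ := by
    obtain ⟨i, _, hi⟩ := hζ.eq_pow_of_pow_eq_one hξ.pow_eq_one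
    rw [← hi, map_pow, hy]
  have hu0 : u ≠ 0 := by
    obtain ⟨_, v, _, h3⟩ := hu
    intro h
    rw [h, zero_mul] at h3
    exact zero_ne_one h3
  set u' : Ω := ∏ i ∈ Finset.range p, (y ^ i) u with hu'
  have hyu' : y u' = ξ * u' := by
    apply mul_right_cancel₀ hu0
    have e1 : y u' = ∏ i ∈ Finset.range p, (y ^ (i + 1)) u := by
      rw [hu', map_prod]
      apply Finset.prod_congr rfl
      intro i _
      rw [pow_succ']
      rfl
    have e2 := Finset.prod_range_succ (fun i => (y ^ i) u) p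
    have e3 := Finset.prod_range_succ' (fun i => (y ^ i) u) p
    simp only [pow_zero] at e3
    have e4 : (1 : Ω ≃ₐ[ℚ] Ω) u = u := rfl
    rw [e4] at e3
    rw [e1, ← e3, e2, hyu]
    ring
  have hpow : u' ^ p = ∏ i ∈ Finset.range p, (1 + (p : Ω) ^ M * (y ^ i) s) := by
    rw [hu', ← Finset.prod_pow]
    apply Finset.prod_congr rfl
    intro i _
    rw [← map_pow, hus, map_add, map_one, map_mul, map_pow, map_natCast]
  have hpi : IsIntegral ℤ ((p : Ω) ^ M) := by
    apply IsIntegral.pow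
    have h := isIntegral_algebraMap (R := ℤ) (A := Ω) (x := (p : ℤ))
    simpa using h
  obtain ⟨t, ht, e5⟩ := cg_prod ((p : Ω) ^ M) hpi (Finset.range p)
    (fun i => 1 + (p : Ω) ^ M * (y ^ i) s)
    (fun i _ => ⟨(y ^ i) s, map_isIntegral_int (y ^ i) hs, rfl⟩)
  exact ⟨u', ξ, t, isU_prod _ _ (fun i _ => isU_map (y ^ i) hu), hξ, hyu', ht,
    by rw [hpow, e5]⟩

end EUN
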