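import Pool.Agent.EUN.St

/-!
# The `p`-part of an automorphism
-/

open NumberField IsDedekindDomain
open scoped Classical

namespace EUN

namespace PPT

/-- The exponents. -/
def ex (p n : ℕ) : ℕ :=
  (∏ q ∈ (Finset.range (n + 1)).filter (fun q => ¬ p ∣ q), q) ^ Nat.totient (p ^ n)

theorem coprime_M {p : ℕ} (hp : p.Prime) (n : ℕ) :
    Nat.Coprime p (∏ q ∈ (Finset.range (n + 1)).filter (fun q => ¬ p ∣ q), q) := by
  apply Nat.Coprime.prod_right
  intro q hq
  rw [Finset.mem_filter] at hq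
  exact (Nat.Prime.coprime_iff_not_dvd hp).2 hq.2

theorem not_dvd_ex {p : ℕ} (hp : p.Prime) (n : ℕ) : ¬ p ∣ ex p n := by
  rw [← Nat.Prime.coprime_iff_not_dvd hp]
  exact Nat.Coprime.pow_right _ (coprime_M hp n)

theorem ex_mod {p : ℕ} (hp : p.Prime) {a n : ℕ} (h : a ≤ n) : ex p n ≡ 1 [MOD p ^ a] := by
  have h1 : ex p n ≡ 1 [MOD p ^ n] :=
    Nat.ModEq.pow_totient (Nat.Coprime.pow_right _ (coprime_M hp n).symm)
  exact h1.of_dvd (pow_dvd_pow p h)

theorem dvd_ex {p : ℕ} (hp : p.Prime) {d n : ℕ} (h : d ≤ n) (hd : ¬ p ∣ d) : d ∣ ex p n := by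
  have h1 : d ∣ ∏ q ∈ (Finset.range (n + 1)).filter (fun q => ¬ p ∣ q), q := by
    apply Finset.dvd_prod_of_mem (fun q : ℕ => q)
    rw [Finset.mem_filter, Finset.mem_range]
    exact ⟨by omega, hd⟩
  exact h1.trans (dvd_pow_self _ (Nat.totient_pos.2 (pow_pos hp.pos n)).ne')

/-- `e_n` modulo `d`. -/
theorem ex_modEq {p : ℕ} (hp : p.Prime) {d n n' : ℕ} (hd : 0 < d) (h : d ≤ n) (h' : d ≤ n') :
    ex p n ≡ ex p n' [MOD d] := by
  have h0 : p ^ (d.factorization p) * (d / p ^ (d.factorization p)) = d :=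
    Nat.ordProj_mul_ordCompl_eq_self d p
  have hc : Nat.Coprime (p ^ (d.factorization p)) (d / p ^ (d.factorization p)) :=
    Nat.Coprime.pow_left _ (Nat.coprime_ordCompl hp hd.ne')
  have ha : d.factorization p ≤ d := (Nat.factorization_lt p hd.ne').le
  have hdd : d / p ^ (d.factorization p) ≤ d := Nat.div_le_self _ _
  have hnd : ¬ p ∣ d / p ^ (d.factorization p) := Nat.not_dvd_ordCompl hp hd.ne'
  have e1 : ex p n ≡ ex p n' [MOD p ^ (d.factorization p)] :=
    (ex_mod hp (ha.trans h)).trans (ex_mod hp (ha.trans h')).symm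
  have e2 : ex p n ≡ ex p n' [MOD d / p ^ (d.factorization p)] :=
    ((Nat.modEq_zero_iff_dvd).2 (dvd_ex hp (hdd.trans h) hnd)).trans
      ((Nat.modEq_zero_iff_dvd).2 (dvd_ex hp (hdd.trans h') hnd)).symm
  have e3 := (Nat.modEq_and_modEq_iff_modEq_mul hc).1 ⟨e1, e2⟩
  rwa [h0] at e3

section

variable {Ω : Type} [Field Ω] [CharZero Ω]

/-- The length of an orbit. -/
noncomputable def per (y : Ω ≃ₐ[ℚ] Ω) (x : Ω) : ℕ := Function.minimalPeriod (y : Ω → Ω) x

theorem pow_eq_iterate (y : Ω ≃ₐ[ℚ] Ω) (n : ℕ) (x : Ω) : (y ^ n) x = (y : Ω → Ω)^[n] x := by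
  induction n generalizing x with
  | zero => simp
  | succ n ih => rw [pow_succ, AlgEquiv.mul_apply, ih, Function.iterate_succ_apply]

theorem mem_periodicPts (halg : Algebra.IsAlgebraic ℚ Ω) (y : Ω ≃ₐ[ℚ] Ω) (x : Ω) :
    x ∈ Function.periodicPts (y : Ω → Ω) := by
  have hx : minpoly ℚ x ≠ 0 := minpoly.ne_zero (halg.isAlgebraic x).isIntegral
  have hroot : ∀ n : ℕ, (y : Ω → Ω)^[n] x ∈ (minpoly ℚ x).rootSet Ω := by
    intro n
    rw [← pow_eq_iterate, Polynomial.mem_rootSet]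
    refine ⟨hx, ?_⟩
    have : Polynomial.aeval ((y ^ n) x) (minpoly ℚ x)
        = (y ^ n) (Polynomial.aeval x (minpoly ℚ x)) :=
      Polynomial.aeval_algHom_apply ((y ^ n : Ω ≃ₐ[ℚ] Ω) : Ω →ₐ[ℚ] Ω) x (minpoly ℚ x)
    rw [this, minpoly.aeval, map_zero]
  have hfin : ((minpoly ℚ x).rootSet Ω).Finite := Polynomial.rootSet_finite _ _
  have hmaps : Set.MapsTo (fun n : ℕ => (y : Ω → Ω)^[n] x) Set.univ
      ((minpoly ℚ x).rootSet Ω) := fun n _ => hroot n
  obtain ⟨m, -, n, -, hmn, he⟩ := Set.infinite_univ.exists_ne_map_eq_of_mapsTo hmaps hfin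
  have key : ∀ m n : ℕ, m < n → (y : Ω → Ω)^[m] x = (y : Ω → Ω)^[n] x →
      x ∈ Function.periodicPts (y : Ω → Ω) := by
    intro m n hlt he
    refine Function.mk_mem_periodicPts (n := n - m) (by omega) ?_
    have h1 : (y : Ω → Ω)^[m] ((y : Ω → Ω)^[n - m] x) = (y : Ω → Ω)^[m] x := by
      rw [← Function.iterate_add_apply, he]
      congr 2
      omega
    exact (y.injective.iterate m) h1
  rcases lt_or_gt_of_ne hmn with h | h
  · exact key m n h he
  · exact key n m h he.symm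

theorem per_pos (halg : Algebra.IsAlgebraic ℚ Ω) (y : Ω ≃ₐ[ℚ] Ω) (x : Ω) : 0 < per y x :=
  Function.minimalPeriod_pos_of_mem_periodicPts (mem_periodicPts halg y x)

theorem pow_congr (y : Ω ≃ₐ[ℚ] Ω) (x : Ω) {a b : ℕ} (h : a ≡ b [MOD per y x]) :
    (y ^ a) x = (y ^ b) x := by
  rw [pow_eq_iterate, pow_eq_iterate, ← Function.iterate_mod_minimalPeriod_eq (n := a),
    ← Function.iterate_mod_minimalPeriod_eq (n := b)]
  have h1 : a % Function.minimalPeriod (y : Ω → Ω) x = b % Function.minimalPeriod (y : Ω → Ω) x := h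
  rw [h1]

theorem pow_fix_iff (y : Ω ≃ₐ[ℚ] Ω) (x : Ω) (a : ℕ) : (y ^ a) x = x ↔ per y x ∣ a := by
  rw [pow_eq_iterate]
  exact Function.isPeriodicPt_iff_minimalPeriod_dvd

theorem per_pow (halg : Algebra.IsAlgebraic ℚ Ω) (y : Ω ≃ₐ[ℚ] Ω) (x : Ω) (a : ℕ) :
    per y ((y ^ a) x) = per y x := by
  rw [pow_eq_iterate]
  exact Function.minimalPeriod_apply_iterate (mem_periodicPts halg y x) a

/-- The `p`-part as a function. -/
noncomputable def zf (p : ℕ) (y : Ω ≃ₐ[ℚ] Ω) (x : Ω) : Ω := (y ^ ex p (per y x)) x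

theorem zf_eq (halg : Algebra.IsAlgebraic ℚ Ω) {p : ℕ} (hp : p.Prime) (y : Ω ≃ₐ[ℚ] Ω) (x : Ω)
    {n : ℕ} (hn : per y x ≤ n) : zf p y x = (y ^ ex p n) x :=
  pow_congr y x (ex_modEq hp (per_pos halg y x) le_rfl hn)

/-- The `p`-part as a ring homomorphism. -/
noncomputable def zr (halg : Algebra.IsAlgebraic ℚ Ω) {p : ℕ} (hp : p.Prime) (y : Ω ≃ₐ[ℚ] Ω) :
    Ω →+* Ω where
  toFun := zf p y
  map_one' := by unfold zf; exact map_one _
  map_zero' := by unfold zf; exact map_zero _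
  map_add' a b := by
    rw [zf_eq halg hp y a (n := per y a + per y b + per y (a + b)) (by omega),
      zf_eq halg hp y b (n := per y a + per y b + per y (a + b)) (by omega),
      zf_eq halg hp y (a + b) (n := per y a + per y b + per y (a + b)) (by omega), map_add]
  map_mul' a b := by
    rw [zf_eq halg hp y a (n := per y a + per y b + per y (a * b)) (by omega),
      zf_eq halg hp y b (n := per y a + per y b + per y (a * b)) (by omega),
      zf_eq halg hp y (a * b) (n := per y a + per y b + per y (a * b)) (by omega), map_mul]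

end

end PPT

open PPT in
theorem proof_PPT : S_PPT := by
  intro Ω _ _ halg p y hp
  have hbij : Function.Bijective (RingHom.toRatAlgHom (zr halg hp y)) :=
    Algebra.IsAlgebraic.algHom_bijective _
  let z : Ω ≃ₐ[ℚ] Ω := AlgEquiv.ofBijective _ hbij
  have hz : ∀ (x : Ω) (n : ℕ), per y x ≤ n → z x = (y ^ ex p n) x :=
    fun x n hn => zf_eq halg hp y x hn
  have hzpow : ∀ (x : Ω) (n : ℕ), per y x ≤ n → ∀ i : ℕ, (z ^ i) x = (y ^ (ex p n * i)) x := by
    intro x n hn i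
    induction i with
    | zero => simp
    | succ i ih =>
      rw [pow_succ', AlgEquiv.mul_apply, ih, hz _ n (by rw [per_pow halg]; exact hn),
        ← AlgEquiv.mul_apply, ← pow_add]
      congr 2
      ring
  refine ⟨z, ?_, ?_, ?_, ?_⟩
  · intro x
    refine ⟨(per y x).factorization p, ?_⟩
    rw [hzpow x _ le_rfl, pow_fix_iff]
    have h0 : p ^ ((per y x).factorization p) * (per y x / p ^ ((per y x).factorization p))
        = per y x := Nat.ordProj_mul_ordCompl_eq_self _ p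
    conv_lhs => rw [← h0]
    rw [mul_comm]
    exact Nat.mul_dvd_mul
      (dvd_ex hp (Nat.div_le_self _ _) (Nat.not_dvd_ordCompl hp (per_pos halg y x).ne')) dvd_rfl
  · intro S
    refine ⟨ex p (∑ x ∈ S, per y x), not_dvd_ex hp _, ?_⟩
    intro x hx
    exact hz x _ (Finset.single_le_sum (f := fun x => per y x) (fun _ _ => Nat.zero_le _) hx)
  · intro x r hr hx
    rw [pow_fix_iff] at hx
    rw [hz x _ le_rfl, pow_fix_iff]
    exact dvd_ex hp le_rfl (fun h => hr (h.trans hx))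
  · intro x hx
    exact ⟨ex p (per y x), not_dvd_ex hp _, by rw [← hz x _ le_rfl]; exact hx⟩

end EUN
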