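import Pool.Agent.EUN.St
import Pool.Agent.Stark.RBasic

/-!
# Module RES: `y` acts trivially on the residue fields of `N₁`
-/

open NumberField IsDedekindDomain
open scoped Classical

namespace EUN

open StarkC

namespace RESx

/-- endomorphisms of a finite field are powers of the Frobenius -/
theorem exists_pow_frob {κ : Type*} [Field κ] [Finite κ] (l : ℕ) [Fact l.Prime] [CharP κ l]
    (σ : κ →+* κ) : ∃ a : ℕ, ∀ x, σ x = x ^ (l ^ a) := by
  let _ := ZMod.algebra κ l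
  let σ' : κ →ₐ[ZMod l] κ := { σ with
    commutes' := fun r => RingHom.congr_fun
      (RingHom.ext_zmod (σ.comp (algebraMap (ZMod l) κ)) (algebraMap (ZMod l) κ)) r }
  obtain ⟨a, ha⟩ := (FiniteField.bijective_frobeniusAlgHom_pow (ZMod l) κ).2 σ'
  refine ⟨a, fun x => ?_⟩
  have h1 : (FiniteField.frobeniusAlgHom (ZMod l) κ ^ a.1) x = σ' x :=
    congrArg (fun f : κ →ₐ[ZMod l] κ => f x) ha
  rw [AlgHom.coe_pow, FiniteField.coe_frobeniusAlgHom, pow_iterate, ZMod.card] at h1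
  exact h1.symm

/-- a finite field of characteristic `l` -/
theorem ff_data {κ : Type*} [Field κ] [Finite κ] (l : ℕ) [Fact l.Prime] [CharP κ l] :
    ∃ f : ℕ, 0 < f ∧ Nat.card κ = l ^ f ∧ (∀ x : κ, x ^ (l ^ f) = x) ∧
      ∀ c : ℕ, (∀ x : κ, x ^ (l ^ c) = x) → f ∣ c := by
  let _ := ZMod.algebra κ l
  have hit : ∀ (c : ℕ) (x : κ), (FiniteField.frobeniusAlgHom (ZMod l) κ ^ c) x = x ^ (l ^ c) := by
    intro c x
    rw [AlgHom.coe_pow, FiniteField.coe_frobeniusAlgHom, pow_iterate, ZMod.card]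
  have hord := FiniteField.orderOf_frobeniusAlgHom (ZMod l) κ
  refine ⟨Module.finrank (ZMod l) κ, Module.finrank_pos, ?_, ?_, ?_⟩
  · rw [Module.natCard_eq_pow_finrank (K := ZMod l) (V := κ), Nat.card_zmod]
  · intro x
    rw [← hit, ← hord, pow_orderOf_eq_one]
    rfl
  · intro c hc
    rw [← hord]
    apply orderOf_dvd_of_pow_eq_one
    ext x
    rw [hit, hc x]
    rfl

theorem frob_pow {N : Type} [Field N] [NumberField N] {W : HeightOneSpectrum (𝓞 N)} {q : ℕ}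
    {y : N ≃ₐ[ℚ] N} (h : FrobPow N W q y) (n : ℕ) :
    FrobPow N W (q ^ n) (y ^ n : N ≃ₐ[ℚ] N) := by
  induction n with
  | zero =>
    intro x z hz
    have : z = x := RingOfIntegers.ext hz
    rw [this, pow_zero, pow_one, sub_self]
    exact W.asIdeal.zero_mem
  | succ n ih =>
    intro x z hz
    have h1 := ih x (STB.oMap ((y ^ n : N ≃ₐ[ℚ] N) : N ≃+* N) x) rfl
    have h2 := h (STB.oMap ((y ^ n : N ≃ₐ[ℚ] N) : N ≃+* N) x) z (by
      rw [hz, pow_succ']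
      rfl)
    have h3 : (STB.oMap ((y ^ n : N ≃ₐ[ℚ] N) : N ≃+* N) x) ^ q - (x ^ q ^ n) ^ q ∈ W.asIdeal :=
      W.asIdeal.mem_of_dvd (sub_dvd_pow_sub_pow _ _ q) h1
    have h4 := W.asIdeal.add_mem h2 h3
    rw [sub_add_sub_cancel, ← pow_mul, ← pow_succ] at h4
    exact h4

theorem absNorm_dvd {N : Type} [Field N] [NumberField N] {W : HeightOneSpectrum (𝓞 N)} {l : ℕ}
    (h : (l : 𝓞 N) ∈ W.asIdeal) : Ideal.absNorm W.asIdeal ∣ l ^ Module.finrank ℚ N := by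
  have h1 : Ideal.span {(l : 𝓞 N)} ≤ W.asIdeal := (Ideal.span_singleton_le_iff_mem _).2 h
  have h2 := Ideal.absNorm_dvd_absNorm_of_le h1
  rwa [Ideal.absNorm_span_natCast, RingOfIntegers.rank] at h2

theorem card_quot {N : Type} [Field N] [NumberField N] (W : HeightOneSpectrum (𝓞 N)) :
    Nat.card (𝓞 N ⧸ W.asIdeal) = Ideal.absNorm W.asIdeal := by
  rw [Ideal.absNorm_apply, Submodule.cardQuot_apply]

theorem finite_quot {N : Type} [Field N] [NumberField N] (W : HeightOneSpectrum (𝓞 N)) :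
    Finite (𝓞 N ⧸ W.asIdeal) := Ideal.finiteQuotientOfFreeOfNeBot _ W.ne_bot

theorem charP_quot {N : Type} [Field N] [NumberField N] {W : HeightOneSpectrum (𝓞 N)} {l : ℕ}
    (hl : l.Prime) (h : (l : 𝓞 N) ∈ W.asIdeal) : CharP (𝓞 N ⧸ W.asIdeal) l := by
  have : Nontrivial (𝓞 N ⧸ W.asIdeal) := Ideal.Quotient.nontrivial_iff.2 W.isPrime.ne_top
  rw [CharP.charP_iff_prime_eq_zero hl]
  have := Ideal.Quotient.eq_zero_iff_mem.2 h
  rwa [map_natCast] at this

end RESx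

open RESx

theorem t_RES (h1 : S_DIV) : S_RES := by
  intro N₁ N _ _ _ _ _ _ _ p l k m r y W ξ hp hl hpl hlW hy hD hξ hyξ hlt
  have := Fact.mk hl
  have hlw : (l : 𝓞 N₁) ∈ (W.under (𝓞 N₁)).asIdeal := (RB.natCast_mem_under (L := N₁) W l).2 hlW
  -- the residue field of `W`
  have := W.isMaximal
  let _ : Field (𝓞 N ⧸ W.asIdeal) := Ideal.Quotient.field W.asIdeal
  have : Finite (𝓞 N ⧸ W.asIdeal) := finite_quot W
  have : CharP (𝓞 N ⧸ W.asIdeal) l := charP_quot hl hlW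
  have hF : ∃ a : ℕ, FrobPow N W (l ^ a) y := by
    let σ : (𝓞 N ⧸ W.asIdeal) →+* (𝓞 N ⧸ W.asIdeal) :=
      Ideal.quotientMap W.asIdeal (STB.oMap (y : N ≃+* N) : 𝓞 N →+* 𝓞 N)
        (fun x hx => hD x _ rfl hx)
    obtain ⟨a, ha⟩ := exists_pow_frob l σ
    refine ⟨a, fun x z hz => ?_⟩
    have h2 : z = STB.oMap (y : N ≃+* N) x := RingOfIntegers.ext hz
    have h3 := ha (Ideal.Quotient.mk W.asIdeal x)
    have h4 : σ (Ideal.Quotient.mk W.asIdeal x) =
        Ideal.Quotient.mk W.asIdeal (STB.oMap (y : N ≃+* N) x) := Ideal.quotientMap_mk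
    rw [h4, ← map_pow] at h3
    rw [h2]
    exact Ideal.Quotient.eq.1 h3
  obtain ⟨a, hF⟩ := hF
  -- the residue field of `w`
  have := (W.under (𝓞 N₁)).isMaximal
  let _ : Field (𝓞 N₁ ⧸ (W.under (𝓞 N₁)).asIdeal) :=
    Ideal.Quotient.field (W.under (𝓞 N₁)).asIdeal
  have : Finite (𝓞 N₁ ⧸ (W.under (𝓞 N₁)).asIdeal) := finite_quot _
  have : CharP (𝓞 N₁ ⧸ (W.under (𝓞 N₁)).asIdeal) l := charP_quot hl hlw
  obtain ⟨f, hf0, hfc, hfx, hfd⟩ := ff_data (κ := 𝓞 N₁ ⧸ (W.under (𝓞 N₁)).asIdeal) l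
  have hfD : f ≤ Module.finrank ℚ N₁ := by
    rw [card_quot] at hfc
    have h2 := absNorm_dvd hlw
    rw [hfc] at h2
    exact (Nat.pow_dvd_pow_iff_le_right hl.one_lt).1 h2
  have hfa : f ∣ a * p ^ m := by
    apply hfd
    intro x
    obtain ⟨x, rfl⟩ := Ideal.Quotient.mk_surjective x
    have h2 := frob_pow hF (p ^ m)
    rw [hy] at h2
    have h3 := RB.frob_restrict (L := N₁) h2
    rw [map_one] at h3
    have h4 := h3 x x rfl
    rw [← map_pow]
    rw [← pow_mul] at h4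
    exact (Ideal.Quotient.eq.2 h4).symm
  have hdiv : (l : ℤ) ^ (a * p ^ r) ≡ 1 [ZMOD (p : ℤ) ^ k] := by
    have : NeZero (p ^ k) := ⟨pow_ne_zero _ hp.ne_zero⟩
    have h2 : IsPrimitiveRoot (Ideal.Quotient.mk W.asIdeal hξ.toInteger) (p ^ k) := by
      apply (hξ.toInteger_isPrimitiveRoot).idealQuotient_mk
      · intro h
        exact W.isPrime.ne_top (Ideal.absNorm_eq_one_iff.1 h)
      · have h3 := absNorm_dvd hlW
        apply Nat.Coprime.coprime_dvd_left h3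
        exact Nat.Coprime.pow _ _ ((Nat.coprime_primes hl hp).2 (Ne.symm hpl))
    have h3 := frob_pow hF (p ^ r) hξ.toInteger hξ.toInteger (by
      show ξ = _
      exact hyξ.symm)
    rw [← pow_mul] at h3
    have h4 := Ideal.Quotient.eq.2 h3
    rw [map_pow] at h4
    have hne : Ideal.Quotient.mk W.asIdeal hξ.toInteger ≠ 0 :=
      h2.ne_zero (pow_ne_zero _ hp.ne_zero)
    have hpos : 1 ≤ l ^ (a * p ^ r) := Nat.one_le_pow _ _ hl.pos
    have h5 : (Ideal.Quotient.mk W.asIdeal hξ.toInteger) ^ (l ^ (a * p ^ r) - 1) = 1 := by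
      apply mul_right_cancel₀ hne
      rw [← pow_succ, Nat.sub_add_cancel hpos, one_mul]
      exact h4.symm
    have h6 := (h2.pow_eq_one_iff_dvd _).1 h5
    have h7 : ((p ^ k : ℕ) : ℤ) ∣ ((l ^ (a * p ^ r) - 1 : ℕ) : ℤ) := Int.natCast_dvd_natCast.2 h6
    rw [Nat.cast_sub hpos] at h7
    push_cast at h7
    exact (Int.modEq_iff_dvd.2 h7).symm
  have hfa' : f ∣ a := h1 p l k m r a f _ hp hl.two_le hf0 hfD hfa hlt hdiv
  obtain ⟨b, rfl⟩ := hfa'
  have hF1 := RB.frob_restrict (L := N₁) hF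
  intro x z hz
  have h2 := hF1 x z hz
  have h3 : ∀ b : ℕ, ∀ x : 𝓞 N₁ ⧸ (W.under (𝓞 N₁)).asIdeal, x ^ (l ^ (f * b)) = x := by
    intro b
    induction b with
    | zero => intro x; rw [mul_zero, pow_zero, pow_one]
    | succ b ih =>
      intro x
      rw [mul_add, mul_one, pow_add, pow_mul, ih, hfx]
  have h4 : x ^ (l ^ (f * b)) - x ∈ (W.under (𝓞 N₁)).asIdeal := by
    apply Ideal.Quotient.eq.1
    rw [map_pow]
    exact h3 b _
  have h5 := (W.under (𝓞 N₁)).asIdeal.add_mem h2 h4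
  rw [sub_add_sub_cancel] at h5
  rw [pow_one]
  exact h5

end EUN
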