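import Pool.Agent.EUN.St

/-! # EUN: STEP, the main computation -/

open NumberField IsDedekindDomain
open scoped Classical

namespace EUN

namespace STEPx

open Polynomial

section poly

variable {A : Type} [CommRing A]

/-- the polynomial `X^p - c X^(p-1) + e` -/
noncomputable def gp (p : ℕ) (c e : A) : A[X] := X ^ p + (C e - C c * X ^ (p - 1))

theorem deg_lt {p : ℕ} (hp : 2 ≤ p) (c e : A) :
    (C e - C c * X ^ (p - 1) : A[X]).degree < (p : WithBot ℕ) := by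
  refine (degree_sub_le _ _).trans_lt (max_lt ?_ ?_)
  · exact degree_C_le.trans_lt (by exact_mod_cast (by omega : 0 < p))
  · exact (degree_C_mul_X_pow_le _ _).trans_lt (by exact_mod_cast (by omega : p - 1 < p))

theorem gp_monic {p : ℕ} (hp : 2 ≤ p) (c e : A) : (gp p c e).Monic :=
  monic_X_pow_add (deg_lt hp c e)

theorem gp_eval (p : ℕ) (c e x : A) : (gp p c e).eval x = x ^ p + (e - c * x ^ (p - 1)) := by
  simp [gp]

theorem gp_degree [Nontrivial A] {p : ℕ} (hp : 2 ≤ p) (c e : A) : (gp p c e).degree = p := by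
  unfold gp
  rw [degree_add_eq_left_of_degree_lt]
  · exact degree_X_pow p
  · rw [degree_X_pow]
    exact deg_lt hp c e

end poly

theorem int_root {Ω : Type} [Field Ω] {p : ℕ} (hp : 2 ≤ p) {c e ρ : Ω} (hc : IsIntegral ℤ c)
    (he : IsIntegral ℤ e) (h : ρ ^ p + (e - c * ρ ^ (p - 1)) = 0) : IsIntegral ℤ ρ := by
  refine isIntegral_trans (R := ℤ) (A := integralClosure ℤ Ω) ρ
    ⟨gp p ⟨c, hc⟩ ⟨e, he⟩, gp_monic hp _ _, ?_⟩
  rw [← h]
  simp only [gp, eval₂_add, eval₂_sub, eval₂_mul, eval₂_pow, eval₂_X, eval₂_C]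
  rfl

theorem prod_eq {Ω : Type} [Field Ω] {p : ℕ} (hp : 2 ≤ p) (c e : Ω) (f : ℕ → Ω)
    (hinj : ∀ i < p, ∀ j < p, f i = f j → i = j)
    (hroot : ∀ i < p, (gp p c e).eval (f i) = 0) :
    ∏ i ∈ Finset.range p, (X - C (f i)) = gp p c e := by
  have hdvd : ∏ i ∈ Finset.range p, (X - C (f i)) ∣ gp p c e := by
    refine Finset.prod_dvd_of_coprime ?_ ?_
    · intro i hi j hj hij
      refine isCoprime_X_sub_C_of_isUnit_sub (sub_ne_zero_of_ne ?_).isUnit
      intro h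
      exact hij (hinj i (Finset.mem_range.1 hi) j (Finset.mem_range.1 hj) h)
    · intro i hi
      exact dvd_iff_isRoot.2 (hroot i (Finset.mem_range.1 hi))
  have hm : (∏ i ∈ Finset.range p, (X - C (f i))).Monic :=
    monic_prod_of_monic _ _ fun i _ => monic_X_sub_C _
  refine eq_of_dvd_of_natDegree_le_of_leadingCoeff hdvd ?_ ?_
  · rw [natDegree_eq_of_degree_eq_some (gp_degree hp c e),
      natDegree_prod_of_monic _ _ fun i _ => monic_X_sub_C _]
    simp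
  · rw [hm.leadingCoeff, (gp_monic hp c e).leadingCoeff]

section aut

variable {Ω : Type} [Field Ω] [CharZero Ω] (y : Ω ≃ₐ[ℚ] Ω)

theorem pow_fix {z : Ω} (h : y z = z) (i : ℕ) : (y ^ i) z = z := by
  induction i with
  | zero => rfl
  | succ i ih => rw [pow_succ, AlgEquiv.mul_apply, h, ih]

theorem prod_shift (p : ℕ) (T : Ω) :
    y (∏ i ∈ Finset.range p, (y ^ i) T) * T = (∏ i ∈ Finset.range p, (y ^ i) T) * (y ^ p) T := by
  have h1 := Finset.prod_range_succ (fun i => (y ^ i) T) p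
  have h2 := Finset.prod_range_succ' (fun i => (y ^ i) T) p
  rw [h1] at h2
  rw [h2, map_prod]
  congr 1
  refine Finset.prod_congr rfl fun i _ => ?_
  rw [pow_succ', AlgEquiv.mul_apply]

variable {y}

theorem norm_step {p : ℕ} (hp : p.Prime) {ζ T t R : Ω} {k : ℕ} (hζ : IsPrimitiveRoot ζ p)
    (hyζ : y ζ = ζ) (hT : T ^ p = t) (hR : R ≠ 0)
    (hprod : ∏ i ∈ Finset.range p, (y ^ i) t = R ^ p) (hyR : y R = ζ ^ k * R) :
    (y ^ p) T = ζ ^ k * T := by
  have : NeZero p := ⟨hp.ne_zero⟩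
  set B := ∏ i ∈ Finset.range p, (y ^ i) T with hB
  have hBp : B ^ p = R ^ p := by
    rw [hB, ← Finset.prod_pow, ← hprod, ← hT]
    refine Finset.prod_congr rfl fun i _ => ?_
    rw [map_pow]
  have h1 : (B / R) ^ p = 1 := by
    rw [div_pow, hBp, div_self (pow_ne_zero _ hR)]
  obtain ⟨e, -, he⟩ := hζ.eq_pow_of_pow_eq_one h1
  have hBR : B = ζ ^ e * R := by
    rw [he, div_mul_cancel₀ _ hR]
  have hB0 : B ≠ 0 := by
    rw [hBR]
    exact mul_ne_zero (pow_ne_zero _ (hζ.ne_zero hp.ne_zero)) hR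
  have hyB : y B = ζ ^ k * B := by
    rw [hBR, map_mul, map_pow, hyζ, hyR]
    ring
  have h2 := prod_shift y p T
  rw [← hB, hyB] at h2
  refine mul_left_cancel₀ hB0 ?_
  rw [← h2]
  ring

theorem dvd_of_fix {p : ℕ} (hp : p.Prime) (hP : PPow p y) {r : Ω} (hr : y r ≠ r) {a : ℕ}
    (ha : (y ^ a) r = r) : p ∣ a := by
  obtain ⟨k, hk⟩ := hP r
  have h1 : Function.minimalPeriod (y • ·) r ∣ p ^ k :=
    MulAction.pow_smul_eq_iff_minimalPeriod_dvd.1 hk
  have h2 : Function.minimalPeriod (y • ·) r ∣ a :=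
    MulAction.pow_smul_eq_iff_minimalPeriod_dvd.1 ha
  obtain ⟨m, _, hm⟩ := (Nat.dvd_prime_pow hp).1 h1
  rcases m with _ | m
  · refine (hr ?_).elim
    have h3 : Function.minimalPeriod (y • ·) r ∣ 1 := by
      rw [hm, pow_zero]
    have h4 := MulAction.pow_smul_eq_iff_minimalPeriod_dvd.2 h3
    rw [pow_one] at h4
    exact h4
  · rw [hm] at h2
    exact (dvd_pow_self p (Nat.succ_ne_zero m)).trans h2

theorem inj_of_ne {p : ℕ} (hp : p.Prime) (hP : PPow p y) {r : Ω} (hr : y r ≠ r) :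
    ∀ i < p, ∀ j < p, (y ^ i) r = (y ^ j) r → i = j := by
  have key : ∀ i j, i ≤ j → j < p → (y ^ i) r = (y ^ j) r → i = j := by
    intro i j hij hj h
    have h1 : (y ^ i) ((y ^ (j - i)) r) = (y ^ i) r := by
      rw [← AlgEquiv.mul_apply, ← pow_add, h]
      congr 2
      omega
    have h2 := (y ^ i).injective h1
    have h3 := dvd_of_fix hp hP hr h2
    have h4 := Nat.eq_zero_of_dvd_of_lt h3 (by omega)
    omega
  intro i hi j hj h
  rcases le_total i j with h1 | h1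
  · exact key i j h1 hj h
  · exact (key j i h1 hi h.symm).symm

end aut

theorem int_p {Ω : Type} [Field Ω] (p M : ℕ) : IsIntegral ℤ ((p : Ω) ^ M) := by
  have h : IsIntegral ℤ (algebraMap ℤ Ω (p : ℤ)) := isIntegral_algebraMap
  have h2 : algebraMap ℤ Ω (p : ℤ) = (p : Ω) := by simp
  rw [h2] at h
  exact h.pow M

theorem int_one {Ω : Type} [Field Ω] : IsIntegral ℤ (1 : Ω) := isIntegral_one

/-- a fixed root gives an eigen-unit -/
theorem eig {Ω : Type} [Field Ω] [CharZero Ω] [IsAlgClosed Ω] {p M : ℕ} {y : Ω ≃ₐ[ℚ] Ω}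
    {ζ ρ c'' : Ω} {j : ℕ} (hp : p.Prime) (hζ : IsPrimitiveRoot ζ p) (hI : FixI p y)
    (hj : ¬ p ∣ j) (hc : IsIntegral ℤ c'') (hρi : IsIntegral ℤ ρ)
    (hρ : ρ ^ p + ((-1) ^ p - (p : Ω) ^ M * c'' * ρ ^ (p - 1)) = 0)
    (hy : y ρ = (ζ ^ j)⁻¹ * ρ) : EigM p M y := by
  have hp2 := hp.two_le
  have hζj : IsPrimitiveRoot (ζ ^ j)⁻¹ p :=
    (hζ.pow_of_coprime j ((Nat.Prime.coprime_iff_not_dvd hp).2 hj).symm).inv
  have hε : ((-1 : Ω) ^ p) * (-1) ^ p = 1 := by
    rw [← mul_pow]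
    norm_num
  have hεi : IsIntegral ℤ ((-1 : Ω) ^ p) := (int_one.neg).pow p
  have e1 : ρ * ρ ^ (p - 1) = ρ ^ p := by
    rw [← pow_succ']
    congr 1
    omega
  have e2 : ρ * ρ ^ (p - 2) = ρ ^ (p - 1) := by
    rw [← pow_succ']
    congr 1
    omega
  -- the inverse of `ρ`
  have hinv : ρ * (-(-1) ^ p * (ρ ^ (p - 1) - (p : Ω) ^ M * c'' * ρ ^ (p - 2))) = 1 := by
    have h1 : ρ * (-(-1) ^ p * (ρ ^ (p - 1) - (p : Ω) ^ M * c'' * ρ ^ (p - 2))) =
        -(-1) ^ p * (ρ ^ p - (p : Ω) ^ M * c'' * ρ ^ (p - 1)) := by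
      rw [← e1, ← e2]
      ring
    have h2 : ρ ^ p - (p : Ω) ^ M * c'' * ρ ^ (p - 1) = -(-1) ^ p := by
      linear_combination hρ
    rw [h1, h2]
    linear_combination hε
  have hinvi : IsIntegral ℤ (-(-1) ^ p * (ρ ^ (p - 1) - (p : Ω) ^ M * c'' * ρ ^ (p - 2))) :=
    hεi.neg.mul ((hρi.pow _).sub (((int_p p M).mul hc).mul (hρi.pow _)))
  rcases hp.eq_two_or_odd' with h2 | hodd
  · subst h2
    obtain ⟨i, hi⟩ := IsAlgClosed.exists_pow_nat_eq (-1 : Ω) (n := 2) (by norm_num)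
    have hyi : y i = i := hI rfl i hi
    have hii : IsIntegral ℤ i := IsIntegral.of_pow (n := 2) (by norm_num) (by
      rw [hi]
      exact int_one.neg)
    refine ⟨i * ρ, (ζ ^ j)⁻¹, -(c'' * ρ), ⟨hii.mul hρi,
      -i * (-(-1) ^ 2 * (ρ ^ (2 - 1) - ((2 : ℕ) : Ω) ^ M * c'' * ρ ^ (2 - 2))),
      hii.neg.mul hinvi, ?_⟩, hζj, ?_, (hc.mul hρi).neg, ?_⟩
    · linear_combination (-(i ^ 2)) * hinv - hi
    · rw [map_mul, hyi, hy]
      ring
    · have h3 : ρ ^ (2 - 1) = ρ := pow_one ρ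
      rw [h3] at hρ
      linear_combination (-1 : Ω) * hρ + ρ ^ 2 * hi
  · have hε1 : (-1 : Ω) ^ p = -1 := hodd.neg_one_pow
    refine ⟨ρ, (ζ ^ j)⁻¹, c'' * ρ ^ (p - 1), ⟨hρi, _, hinvi, hinv⟩, hζj, hy,
      hc.mul (hρi.pow _), ?_⟩
    rw [hε1] at hρ
    linear_combination hρ

end STEPx

open STEPx in
theorem t_STEP (h1 : S_SUM) (h2 : S_NRM) : S_STEP := by
  intro Ω _ _ _ p M y ζ b b₀ s' R j k hp hζ hyζ hI hP hE hb₀ hb hb0 hyb hj hs' hys hs1 hR hyR hkj
  have hp2 := hp.two_le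
  have hp0 : p ≠ 0 := hp.ne_zero
  have hd0 : ((p : Ω) ^ M) ≠ 0 := pow_ne_zero _ (Nat.cast_ne_zero.2 hp0)
  set d : Ω := (p : Ω) ^ M with hd
  have hdi : IsIntegral ℤ d := int_p p M
  have hbi : IsIntegral ℤ b := by
    rw [hb]
    exact (hdi.pow p).mul hb₀
  have hε : ((-1 : Ω) ^ p) * (-1) ^ p = 1 := by
    rw [← mul_pow]
    norm_num
  have hεi : IsIntegral ℤ ((-1 : Ω) ^ p) := (int_one.neg).pow p
  have hybp : y (b ^ p) = b ^ p := by
    rw [map_pow, hyb, mul_pow, ← pow_mul, mul_comm j p, pow_mul, hζ.pow_eq_one, one_pow, one_mul]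
  -- the polynomial
  set s : Ω := b * (d * s') with hs
  set c : Ω := (-1) ^ p * b ^ p - s with hc
  set c'' : Ω := (-1) ^ p * (d ^ (p - 1) * b₀ * b ^ (p - 2)) - s' with hc''
  have hc''i : IsIntegral ℤ c'' :=
    (hεi.mul (((hdi.pow _).mul hb₀).mul (hbi.pow _))).sub hs'
  have hcc : c = b * (d * c'') := by
    have e1 : d ^ p = d * d ^ (p - 1) := by
      rw [← pow_succ']
      congr 1
      omega
    have e2 : b ^ p = b * (b * b ^ (p - 2)) := by
      rw [← pow_succ', ← pow_succ']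
      congr 1
      omega
    have e3 : b * b ^ (p - 2) = d * (d ^ (p - 1) * b₀ * b ^ (p - 2)) := by
      nth_rewrite 1 [hb]
      rw [e1]
      ring
    rw [hc, hc'', hs, e2, e3]
    ring
  have hyε : y ((-1) ^ p) = (-1) ^ p := by
    rw [map_pow, map_neg, map_one]
  have hyc : y c = c := by
    rw [hc, map_sub, map_mul, hyε, hybp, hys]
  have hye : y ((-1) ^ p * b ^ p) = (-1) ^ p * b ^ p := by
    rw [map_mul, hyε, hybp]
  obtain ⟨r, hr⟩ := IsAlgClosed.exists_root (gp p c ((-1) ^ p * b ^ p)) (by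
    rw [gp_degree hp2]
    exact_mod_cast hp0)
  have hr' : r ^ p + ((-1) ^ p * b ^ p - c * r ^ (p - 1)) = 0 := by
    rw [← gp_eval]
    exact hr
  have hroots : ∀ i : ℕ, (gp p c ((-1) ^ p * b ^ p)).eval ((y ^ i) r) = 0 := by
    intro i
    have h := congrArg (y ^ i) hr'
    rw [map_add, map_pow, map_sub, pow_fix y hye, map_mul, pow_fix y hyc, map_pow, map_zero] at h
    rw [gp_eval]
    exact h
  -- `ρ = r / b`
  set ρ : Ω := r / b with hρ
  have hrb : r = ρ * b := (div_mul_cancel₀ r hb0).symm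
  have hρe : ρ ^ p + ((-1) ^ p - d * c'' * ρ ^ (p - 1)) = 0 := by
    have e1 : b ^ p = b * b ^ (p - 1) := by
      rw [← pow_succ']
      congr 1
      omega
    have h3 : (ρ ^ p + ((-1) ^ p - d * c'' * ρ ^ (p - 1))) * b ^ p = 0 := by
      rw [← hr', hrb, mul_pow, mul_pow, hcc, e1]
      ring
    exact (mul_eq_zero.1 h3).resolve_right (pow_ne_zero _ hb0)
  have hρi : IsIntegral ℤ ρ := int_root hp2 (hdi.mul hc''i) hεi hρe
  have hri : IsIntegral ℤ r := by
    rw [hrb]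
    exact hρi.mul hbi
  have hζj0 : ζ ^ j ≠ 0 := pow_ne_zero _ (hζ.ne_zero hp0)
  have hyr : y r ≠ r := by
    intro hyr
    refine hE (eig hp hζ hI hj hc''i hρi hρe ?_)
    rw [hρ, map_div₀, hyr, hyb]
    field_simp
  have hprod := prod_eq hp2 c ((-1) ^ p * b ^ p) (fun i => (y ^ i) r) (inj_of_ne hp hP hyr)
    fun i _ => hroots i
  have hprod0 : ∏ i ∈ Finset.range p, (y ^ i) r = b ^ p := by
    have h := congrArg (Polynomial.eval (0 : Ω)) hprod
    rw [Polynomial.eval_prod, gp_eval, zero_pow hp0, zero_pow (by omega : p - 1 ≠ 0)] at h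
    simp only [Polynomial.eval_sub, Polynomial.eval_X, Polynomial.eval_C] at h
    have h3 : ∏ i ∈ Finset.range p, (0 - (y ^ i) r) =
        (-1) ^ p * ∏ i ∈ Finset.range p, (y ^ i) r := by
      have : ∀ i ∈ Finset.range p, (0 - (y ^ i) r) = (-1) * (y ^ i) r := fun i _ => by ring
      rw [Finset.prod_congr rfl this, Finset.prod_mul_distrib, Finset.prod_const,
        Finset.card_range]
    rw [h3] at h
    linear_combination ((-1 : Ω) ^ p) * h - (∏ i ∈ Finset.range p, (y ^ i) r) * hε +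
      b ^ p * hε
  have hprod1 : ∏ i ∈ Finset.range p, (y ^ i) (1 - r) = R ^ p := by
    have h := congrArg (Polynomial.eval (1 : Ω)) hprod
    rw [Polynomial.eval_prod, gp_eval, one_pow, one_pow] at h
    simp only [Polynomial.eval_sub, Polynomial.eval_X, Polynomial.eval_C] at h
    have h3 : ∀ i ∈ Finset.range p, (y ^ i) (1 - r) = 1 - (y ^ i) r := fun i _ => by
      rw [map_sub, map_one]
    rw [Finset.prod_congr rfl h3, h, hR, hc]
    ring
  -- the roots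
  obtain ⟨T₀, hT₀⟩ := IsAlgClosed.exists_pow_nat_eq (b₀ * ρ) (n := p) hp.pos
  obtain ⟨T', hT'⟩ := IsAlgClosed.exists_pow_nat_eq (1 - r) (n := p) hp.pos
  have hT₀i : IsIntegral ℤ T₀ := IsIntegral.of_pow hp.pos (by
    rw [hT₀]
    exact hb₀.mul hρi)
  have hT'i : IsIntegral ℤ T' := IsIntegral.of_pow hp.pos (by
    rw [hT']
    exact int_one.sub hri)
  have hTr : (d * T₀) ^ p = r := by
    rw [mul_pow, hT₀, hrb]
    linear_combination (-ρ) * hb
  have hR0 : R ≠ 0 := by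
    intro h
    rw [h, zero_pow hp0] at hR
    exact hs1 hR.symm
  have hA := norm_step hp hζ hyζ hTr hb0 hprod0 hyb
  have hB := norm_step hp hζ hyζ hT' hR0 hprod1 hyR
  have hyd : y d = d := by
    rw [hd, map_pow, map_natCast]
  have hA' : (y ^ p) T₀ = ζ ^ j * T₀ := by
    rw [map_mul, pow_fix y hyd] at hA
    refine mul_left_cancel₀ hd0 ?_
    rw [hA]
    ring
  have hkj' : ζ ^ k = ζ ^ j := by
    rw [pow_eq_pow_mod k hζ.pow_eq_one, pow_eq_pow_mod j hζ.pow_eq_one]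
    exact congrArg (fun a => ζ ^ a) hkj
  have hB' : (y ^ p) T' = ζ ^ j * T' := by rw [hB, hkj']
  have hIp : FixI p (y ^ p) := fun h i hi => pow_fix y (hI h i hi) p
  exact hE (h2 Ω p M y ζ hp hζ hyζ (h1 Ω p M (y ^ p) ζ T₀ T' j hp hζ hIp hT₀i hT'i (by
    rw [← hd, hTr, hT']
    ring) hj hA' hB'))

end EUN
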