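import Pool.Agent.EUN.St

/-!
# Project EUN, module SUM
-/

set_option autoImplicit false

namespace EUN

namespace SUMx

theorem odd_case {Ω : Type} [Field Ω] [CharZero Ω] {p M : ℕ} (hodd : Odd p) {T₀ T' : Ω}
    (h0 : IsIntegral ℤ T₀) (h1 : IsIntegral ℤ T')
    (h : ((p : Ω) ^ M * T₀) ^ p + T' ^ p = 1) :
    IsU ((p : Ω) ^ M * T₀ + T') ∧
      ∃ s : Ω, IsIntegral ℤ s ∧ ((p : Ω) ^ M * T₀ + T') ^ p = 1 + (p : Ω) ^ M * s := by
  have hp0 : p ≠ 0 := by
    rintro rfl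
    exact absurd hodd (by decide)
  set a : integralClosure ℤ Ω := ⟨T₀, h0⟩ with ha
  set b : integralClosure ℤ Ω := ⟨T', h1⟩ with hb
  have hsum : ((p : integralClosure ℤ Ω) ^ M * a) ^ p + b ^ p = 1 := by
    apply Subtype.ext
    push_cast
    exact h
  obtain ⟨v, hv⟩ := Odd.add_dvd_pow_add_pow ((p : integralClosure ℤ Ω) ^ M * a) b hodd
  obtain ⟨w, hw⟩ := sub_dvd_pow_sub_pow ((p : integralClosure ℤ Ω) ^ M * a + b) b p
  obtain ⟨k, rfl⟩ := Nat.exists_eq_succ_of_ne_zero hp0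
  have hsA : ((((k + 1 : ℕ) : integralClosure ℤ Ω)) ^ M * a + b) ^ (k + 1)
      = 1 + ((k + 1 : ℕ) : integralClosure ℤ Ω) ^ M
        * (a * (w - (((k + 1 : ℕ) : integralClosure ℤ Ω) ^ M * a) ^ k)) := by
    have e1 : ((((k + 1 : ℕ) : integralClosure ℤ Ω)) ^ M * a + b) ^ (k + 1)
        = b ^ (k + 1) + (((k + 1 : ℕ) : integralClosure ℤ Ω) ^ M * a) * w := by
      have : (((k + 1 : ℕ) : integralClosure ℤ Ω)) ^ M * a + b - b
          = ((k + 1 : ℕ) : integralClosure ℤ Ω) ^ M * a := by ring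
      rw [this] at hw
      rw [← hw]
      simp only [Nat.succ_eq_add_one]
      ring
    have e2 : b ^ (k + 1) = 1 - (((k + 1 : ℕ) : integralClosure ℤ Ω) ^ M * a) ^ (k + 1) := by
      rw [← hsum]
      simp only [Nat.succ_eq_add_one]
      ring
    rw [e1, e2, pow_succ]
    ring
  refine ⟨⟨?_, (v : Ω), v.2, ?_⟩, ((a * (w - (((k + 1 : ℕ) : integralClosure ℤ Ω) ^ M * a) ^ k) :
    integralClosure ℤ Ω) : Ω), Subtype.property _, ?_⟩
  · have : ((((k + 1 : ℕ) : integralClosure ℤ Ω) ^ M * a + b : integralClosure ℤ Ω) : Ω)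
        = ((k + 1 : ℕ) : Ω) ^ M * T₀ + T' := by
      push_cast
      rfl
    have h2 := (((k + 1 : ℕ) : integralClosure ℤ Ω) ^ M * a + b : integralClosure ℤ Ω).2
    rw [← this]
    exact h2
  · have h3 := congrArg (fun z : integralClosure ℤ Ω => (z : Ω)) (hv.symm.trans hsum)
    have : ((((k + 1 : ℕ) : integralClosure ℤ Ω) ^ M * a + b) * v : integralClosure ℤ Ω)
        = ((((k + 1 : ℕ) : Ω) ^ M * T₀ + T') * (v : Ω) : Ω) := by
      push_cast
      rfl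
    rw [← this]
    exact h3
  · have h3 := congrArg (fun z : integralClosure ℤ Ω => (z : Ω)) hsA
    push_cast at h3 ⊢
    exact h3

end SUMx

open SUMx in
theorem t_SUM : S_SUM := by
  intro Ω _ _ _ p M y ζ T₀ T' j hp hζ hfix h0 h1 h hj hy0 hy1
  have hyT : y ((p : Ω) ^ M * T₀) = ζ ^ j * ((p : Ω) ^ M * T₀) := by
    rw [map_mul, map_pow, map_natCast, hy0]
    ring
  have hcop : j.Coprime p := ((Nat.Prime.coprime_iff_not_dvd hp).2 hj).symm
  have hζj : IsPrimitiveRoot (ζ ^ j) p := hζ.pow_of_coprime j hcop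
  rcases hp.eq_two_or_odd' with h2 | hodd
  · subst h2
    obtain ⟨i, hi⟩ := IsAlgClosed.exists_pow_nat_eq (-1 : Ω) (n := 2) (by norm_num)
    have hyi : y i = i := hfix rfl i hi
    have hii : IsIntegral ℤ i := by
      refine IsIntegral.of_pow (n := 2) (by norm_num) ?_
      rw [hi]
      exact isIntegral_one.neg
    have h2i : IsIntegral ℤ (((2 : ℕ) : Ω) ^ M) := (isIntegral_natCast _).pow M
    have hTi : IsIntegral ℤ (((2 : ℕ) : Ω) ^ M * T₀) := h2i.mul h0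
    refine ⟨T' + i * (((2 : ℕ) : Ω) ^ M * T₀), ζ ^ j,
      T₀ * (((2 : ℕ) : Ω) * (i * T' - ((2 : ℕ) : Ω) ^ M * T₀)), ⟨?_, T' - i * (((2 : ℕ) : Ω) ^ M * T₀),
      ?_, ?_⟩, hζj, ?_, ?_, ?_⟩
    · exact h1.add (hii.mul hTi)
    · exact h1.sub (hii.mul hTi)
    · linear_combination h - (((2 : ℕ) : Ω) ^ M * T₀) ^ 2 * hi
    · rw [map_add, map_mul, hyi, hyT, hy1]
      ring
    · exact h0.mul ((isIntegral_natCast _).mul ((hii.mul h1).sub hTi))
    · push_cast at h ⊢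
      linear_combination h + ((2 : Ω) ^ M * T₀) ^ 2 * hi
  · obtain ⟨hu, s, hs, hus⟩ := odd_case (M := M) hodd h0 h1 h
    refine ⟨(p : Ω) ^ M * T₀ + T', ζ ^ j, s, hu, hζj, ?_, hs, hus⟩
    rw [map_add, hyT, hy1]
    ring

end EUN
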