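import Pool.Agent.EUN.St

/-!
# Torsion of the automorphism group of the field of algebraic numbers (module TOR, helper1)
-/

set_option autoImplicit false

namespace EUN

namespace TORx

variable {Ω : Type} [Field Ω] [CharZero Ω]

lemma pow_succ_apply (h : Ω ≃ₐ[ℚ] Ω) (i : ℕ) (c : Ω) : (h ^ (i + 1)) c = h ((h ^ i) c) := by
  rw [pow_succ', AlgEquiv.mul_apply]

omit [CharZero Ω] in
/-- a cyclic shift of a sum -/
lemma sum_shift {p : ℕ} (F : ℕ → Ω) (h : F p = F 0) :
    ∑ i ∈ Finset.range p, F (i + 1) = ∑ i ∈ Finset.range p, F i := by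
  have h1 := Finset.sum_range_succ' F p
  have h2 := Finset.sum_range_succ F p
  rw [h1, h] at h2
  exact add_right_cancel h2

/-- an eigenvector -/
lemma eig {p : ℕ} (hp : p.Prime) (h : Ω ≃ₐ[ℚ] Ω) {ζ : Ω} (hζ : IsPrimitiveRoot ζ p)
    (hf : h ζ = ζ) (hpow : h ^ p = 1) (hne : h ≠ 1) :
    ∃ η b : Ω, IsPrimitiveRoot η p ∧ h η = η ∧ b ≠ 0 ∧ h b = η * b := by
  obtain ⟨c, hc⟩ : ∃ c, h c ≠ c := by
    by_contra hcon
    push Not at hcon
    exact hne (AlgEquiv.ext hcon)
  set R : ℕ → Ω := fun k => ∑ i ∈ Finset.range p, (ζ ^ k) ^ i * (h ^ i) c with hR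
  have c1 : ∀ k, ζ ^ k * h (R k) = R k := by
    intro k
    have e : ζ ^ k * h (R k) = ∑ i ∈ Finset.range p, (ζ ^ k) ^ (i + 1) * (h ^ (i + 1)) c := by
      rw [hR]
      simp only
      rw [map_sum, Finset.mul_sum]
      refine Finset.sum_congr rfl fun i _ => ?_
      rw [map_mul, map_pow, map_pow, hf, pow_succ_apply]
      ring
    rw [e]
    apply sum_shift (fun i => (ζ ^ k) ^ i * (h ^ i) c)
    rw [hpow, pow_zero, pow_zero, ← pow_mul, mul_comm k p, pow_mul, hζ.pow_eq_one, one_pow]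
  have c2 : ∑ k ∈ Finset.range p, R k = p * c := by
    rw [hR]
    simp only
    rw [Finset.sum_comm, Finset.sum_eq_single 0]
    · simp
    · intro i hi h0
      have h2 : ∑ x ∈ Finset.range p, (ζ ^ x) ^ i * (h ^ i) c =
          (∑ x ∈ Finset.range p, (ζ ^ i) ^ x) * (h ^ i) c := by
        rw [Finset.sum_mul]
        refine Finset.sum_congr rfl fun x _ => ?_
        rw [← pow_mul, ← pow_mul, mul_comm x i]
      rw [h2]
      have h3 : IsPrimitiveRoot (ζ ^ i) p := by
        apply hζ.pow_of_coprime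
        rw [Nat.coprime_comm, hp.coprime_iff_not_dvd]
        intro h4
        exact absurd (Nat.le_of_dvd (Nat.pos_of_ne_zero h0) h4) (by
          rw [Finset.mem_range] at hi; omega)
      rw [h3.geom_sum_eq_zero hp.one_lt, zero_mul]
    · intro h0
      exact absurd (Finset.mem_range.2 hp.pos) h0
  obtain ⟨k, hk0, hkp, hk⟩ : ∃ k, 0 < k ∧ k < p ∧ R k ≠ 0 := by
    by_contra hcon
    push Not at hcon
    have h1 : ∑ k ∈ Finset.range p, R k = R 0 := by
      rw [Finset.sum_eq_single 0]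
      · intro i hi h0
        exact hcon i (Nat.pos_of_ne_zero h0) (Finset.mem_range.1 hi)
      · intro h0
        exact absurd (Finset.mem_range.2 hp.pos) h0
    have h2 := c1 0
    rw [pow_zero, one_mul, ← h1, c2, map_mul, map_natCast] at h2
    have h3 : (p : Ω) ≠ 0 := Nat.cast_ne_zero.2 hp.ne_zero
    exact hc (mul_left_cancel₀ h3 h2)
  have hz : ζ ^ k ≠ 0 := pow_ne_zero _ (hζ.ne_zero hp.ne_zero)
  refine ⟨(ζ ^ k)⁻¹, R k, ?_, ?_, hk, ?_⟩
  · apply IsPrimitiveRoot.inv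
    apply hζ.pow_of_coprime
    rw [Nat.coprime_comm, hp.coprime_iff_not_dvd]
    intro h4
    exact absurd (Nat.le_of_dvd hk0 h4) (by omega)
  · rw [map_inv₀, map_pow, hf]
  · have h1 := c1 k
    field_simp
    rw [mul_comm]
    exact h1

end TORx

open TORx in
theorem t_TOR (h1 : S_ZET) : S_TOR := by
  intro Ω _ _ _ p l y hp hP hy hl
  classical
  have hne : (p : Ω) ≠ 0 := Nat.cast_ne_zero.2 hp.ne_zero
  have : NeZero (p : Ω) := ⟨hne⟩
  have : NeZero p := ⟨hp.ne_zero⟩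
  obtain ⟨ζ, hζ⟩ := HasEnoughRootsOfUnity.exists_primitiveRoot Ω p
  have hyζ : y ζ = ζ := h1 Ω p y ζ hp hζ hP
  have hex : ∃ l, y ^ (p ^ l) = 1 := ⟨l, hl⟩
  obtain ⟨m, hm⟩ : ∃ m, Nat.find hex = m + 1 := by
    refine Nat.exists_eq_succ_of_ne_zero ?_
    intro h0
    have h2 := Nat.find_spec hex
    rw [h0, pow_zero, pow_one] at h2
    exact hy h2
  have hm1 : y ^ (p ^ (m + 1)) = 1 := hm ▸ Nat.find_spec hex
  have hm0 : y ^ (p ^ m) ≠ 1 := Nat.find_min hex (by omega)
  set h := y ^ (p ^ m) with hh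
  have hpow : h ^ p = 1 := by
    rw [hh, ← pow_mul, ← pow_succ]
    exact hm1
  have hfx : ∀ k : ℕ, (y ^ k) ζ = ζ := by
    intro k
    induction k with
    | zero => rfl
    | succ n ih => rw [pow_succ_apply, ih, hyζ]
  obtain ⟨η, b, hη, hfη, hb, hhb⟩ := eig hp h hζ (hfx _) hpow hm0
  obtain ⟨β, hβ⟩ := IsAlgClosed.exists_pow_nat_eq b hp.pos
  have hηk : ∀ k : ℕ, (h ^ k) η = η := by
    intro k
    induction k with
    | zero => rfl
    | succ n ih => rw [pow_succ_apply, ih, hfη]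
  have hbk : ∀ k : ℕ, (h ^ k) b = η ^ k * b := by
    intro k
    induction k with
    | zero => simp
    | succ n ih => rw [pow_succ_apply, ih, map_mul, map_pow, hfη, hhb]; ring
  have hη0 : η ≠ 0 := hη.ne_zero hp.ne_zero
  set B := ∏ i ∈ Finset.range p, (h ^ i) β with hB
  have hβ0 : β ≠ 0 := by
    intro h0
    rw [h0, zero_pow hp.ne_zero] at hβ
    exact hb hβ.symm
  have hB0 : B ≠ 0 := by
    rw [hB, Finset.prod_ne_zero_iff]
    intro i _
    rw [Ne, map_eq_zero]
    exact hβ0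
  have hhB : h B = B := by
    have e1 : h B = ∏ i ∈ Finset.range p, (h ^ (i + 1)) β := by
      rw [hB, map_prod]
      refine Finset.prod_congr rfl fun i _ => ?_
      rw [pow_succ_apply]
    have e2 := Finset.prod_range_succ' (fun i => (h ^ i) β) p
    have e3 := Finset.prod_range_succ (fun i => (h ^ i) β) p
    rw [e2, hpow] at e3
    rw [e1, hB]
    have e4 : (h ^ 0) β = β := by rw [pow_zero]; rfl
    have e5 : (1 : Ω ≃ₐ[ℚ] Ω) β = β := rfl
    rw [e4, e5] at e3
    exact mul_right_cancel₀ hβ0 e3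
  have hBp : B ^ p = η ^ (∑ i ∈ Finset.range p, i) * b ^ p := by
    rw [hB, ← Finset.prod_pow]
    have e1 : ∀ i ∈ Finset.range p, ((h ^ i) β) ^ p = η ^ i * b := by
      intro i _
      rw [← map_pow, hβ, hbk]
    rw [Finset.prod_congr rfl e1, Finset.prod_mul_distrib, Finset.prod_const,
      Finset.card_range, Finset.prod_pow_eq_pow_sum]
  have hne1 : η ≠ 1 := hη.ne_one hp.one_lt
  have hη1 : h B = B → ∀ c : Ω, h c = c → B = c * b → False := by
    intro _ c hc hBc
    have e1 : h B = η * B := by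
      rw [hBc, map_mul, hc, hhb]
      ring
    rw [hhB] at e1
    have e2 : (η - 1) * B = 0 := by linear_combination -e1
    rcases mul_eq_zero.1 e2 with e3 | e3
    · exact hne1 (sub_eq_zero.1 e3)
    · exact hB0 e3
  have hp2 : p = 2 := by
    by_contra hodd
    have hs : ∑ i ∈ Finset.range p, i = p * ((p - 1) / 2) := by
      rw [Finset.sum_range_id]
      obtain ⟨k, hk⟩ := hp.odd_of_ne_two hodd
      subst hk
      have e1 : 2 * k + 1 - 1 = 2 * k := by omega
      rw [e1, Nat.mul_div_cancel_left k (by norm_num)]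
      have e2 : (2 * k + 1) * (2 * k) = 2 * ((2 * k + 1) * k) := by ring
      rw [e2, Nat.mul_div_cancel_left _ (by norm_num)]
    rw [hs, pow_mul, hη.pow_eq_one, one_pow, one_mul] at hBp
    have e1 : (B / b) ^ p = 1 := by
      rw [div_pow, hBp, div_self (pow_ne_zero _ hb)]
    obtain ⟨i, _, hi⟩ := hη.eq_pow_of_pow_eq_one e1
    refine hη1 hhB (η ^ i) ?_ ?_
    · rw [map_pow, hfη]
    · rw [hi, div_mul_cancel₀ _ hb]
  subst hp2
  have hη2 : η = -1 := hη.eq_neg_one_of_two_right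
  set i₀ := B / b with hi₀
  have hBi : B = i₀ * b := by rw [hi₀, div_mul_cancel₀ _ hb]
  have hsq : i₀ ^ 2 = -1 := by
    rw [hi₀, div_pow, hBp]
    have e1 : ∑ i ∈ Finset.range 2, i = 1 := by decide
    rw [e1, hη2, pow_one, mul_div_assoc, div_self (pow_ne_zero _ hb), mul_one]
  have hi0 : i₀ ≠ 0 := by
    intro h0
    rw [h0] at hBi
    rw [zero_mul] at hBi
    exact hB0 hBi
  have hhi : h i₀ = -i₀ := by
    rw [hi₀, map_div₀, hhB, hhb, hη2]
    rw [neg_one_mul, div_neg]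
  have h2ne : (2 : Ω) ≠ 0 := two_ne_zero
  have hm00 : m = 0 := by
    by_contra hm'
    obtain ⟨k, rfl⟩ := Nat.exists_eq_succ_of_ne_zero hm'
    have e1 : h = (y ^ (2 ^ k)) ^ 2 := by
      rw [hh, ← pow_mul, ← pow_succ]
    have e2 : ((y ^ (2 ^ k)) i₀) ^ 2 = i₀ ^ 2 := by
      rw [← map_pow, hsq, map_neg, map_one]
    have e3 : h i₀ = i₀ := by
      rw [e1, pow_two, AlgEquiv.mul_apply]
      rcases sq_eq_sq_iff_eq_or_eq_neg.1 e2 with e4 | e4
      · rw [e4, e4]
      · rw [e4, map_neg, e4, neg_neg]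
    rw [hhi] at e3
    have e4 : (2 : Ω) * i₀ = 0 := by linear_combination -e3
    rcases mul_eq_zero.1 e4 with e5 | e5
    · exact h2ne e5
    · exact hi0 e5
  subst hm00
  have hhy : h = y := by rw [hh, pow_zero, pow_one]
  refine ⟨rfl, ?_, ?_⟩
  · rw [← hhy]; exact hpow
  · intro i hi
    rw [← hhy]
    have e1 : i ^ 2 = i₀ ^ 2 := by rw [hi, hsq]
    rcases sq_eq_sq_iff_eq_or_eq_neg.1 e1 with e2 | e2
    · rw [e2, hhi]
    · rw [e2, map_neg, hhi]

end EUN
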