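import Pool.Agent.EUN.St

/-!
# EUN, module ZET: roots of unity of order `p` are fixed
-/

set_option autoImplicit false

namespace EUN

theorem t_ZET : S_ZET := by
  intro Ω _ _ p y ζ hp hζ hy
  have : Fact p.Prime := ⟨hp⟩
  have : NeZero p := ⟨hp.ne_zero⟩
  have hζ0 : ζ ≠ 0 := hζ.ne_zero hp.ne_zero
  obtain ⟨k, hk⟩ := hy ζ
  have h1 : (y ζ) ^ p = 1 := by rw [← map_pow, hζ.pow_eq_one, map_one]
  obtain ⟨c, -, hc⟩ := hζ.eq_pow_of_pow_eq_one h1
  have hn : ∀ n : ℕ, (y ^ n) ζ = ζ ^ (c ^ n) := by
    intro n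
    induction n with
    | zero => simp
    | succ n ih => rw [pow_succ', AlgEquiv.mul_apply, ih, map_pow, ← hc, ← pow_mul, pow_succ']
  rw [hn] at hk
  have key : ∀ N : ℕ, ζ ^ N = ζ ↔ (N : ZMod p) = 1 := by
    intro N
    rcases Nat.eq_zero_or_pos N with rfl | hN
    · constructor
      · intro h
        exfalso
        rw [pow_zero] at h
        rw [← h] at hζ
        exact hp.one_lt.ne' (hζ.unique IsPrimitiveRoot.one)
      · intro h
        rw [Nat.cast_zero] at h
        exact absurd h zero_ne_one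
    · obtain ⟨N, rfl⟩ : ∃ M, N = M + 1 := ⟨N - 1, by omega⟩
      have h2 : ζ ^ (N + 1) = ζ ↔ ζ ^ N = 1 := by
        rw [pow_succ]
        constructor
        · intro h
          exact mul_right_cancel₀ hζ0 (h.trans (one_mul ζ).symm)
        · intro h
          rw [h, one_mul]
      rw [h2, hζ.pow_eq_one_iff_dvd, ← ZMod.natCast_eq_zero_iff]
      push_cast
      constructor
      · intro h
        rw [h, zero_add]
      · intro h
        exact add_eq_right.1 h
  have h3 := (key _).1 hk
  rw [Nat.cast_pow, ZMod.pow_card_pow] at h3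
  rw [← hc]
  exact (key c).2 h3

end EUN
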