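import Pool.Agent.EUN.ALC
import Pool.Agent.EUN.BIG
import Pool.Agent.EUN.CORE
import Pool.Agent.EUN.CPT
import Pool.Agent.EUN.CRT
import Pool.Agent.EUN.DIV
import Pool.Agent.EUN.FIX
import Pool.Agent.EUN.GEN
import Pool.Agent.EUN.GNP
import Pool.Agent.EUN.HIL
import Pool.Agent.EUN.NIBF
import Pool.Agent.EUN.NRM
import Pool.Agent.EUN.PPT
import Pool.Agent.EUN.RES
import Pool.Agent.EUN.STEP
import Pool.Agent.EUN.SUM
import Pool.Agent.EUN.TOR
import Pool.Agent.EUN.ZET
import Pool.Agent.StarkU.ALLU

/-!
# The key lemma on normal integral bases: assembly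

Every character of type (A) has a normal integral basis after a finite base change; the input
`S_THE` (generalised group rings) is proved in `Pool/Agent/NBK`.
-/

open StarkC

namespace EUN

/-- The generic lemma: all parts of the key lemma except the passage from a good unit to a
normal integral basis. -/
theorem t_GNP' : S_GNP :=
  t_GNP t_ZET t_HIL (t_FIX (t_CORE (t_STEP t_SUM t_NRM)) t_CRT) (t_RES t_DIV) t_BIG ALLU.ufk

/-- `Stmt_NIB` from `S_THE`. -/
theorem stmt_nib_of (hTHE : S_THE) : StarkC.Stmt_NIB :=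
  nib t_ALC (t_GEN proof_PPT (t_TOR t_ZET) t_GNP') hTHE (t_CPT t_BIG)

end EUN
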