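import Pool.Agent.StarkU.Stmts

/-!
# Eigen-units of automorphisms of the field of algebraic numbers: statements

`Ω` is an algebraic closure of `ℚ`.  `EigM p M y`: there is a unit `u` of the ring of algebraic
integers with `y u = ζ u`, `ζ` a primitive `p`-th root of unity, and `u^p = 1` modulo `p^M`.

MAIN FACT (`S_FIX`): let `y` be an automorphism of `Ω` all of whose orbits have `p`-power length
(for `p = 2` let `y i = i`), let `y b = ζ^j b`, `p ∤ j`, and let `N ∋ b` be a number field, Galois over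
`ℚ`, such that `y` fixes no prime of `N` which contains `p b`.  Then `EigM p M y` for all `M`.

All statements are independent of each other; a statement may take other statements as
hypotheses in its proof (see the doc strings).
-/

open NumberField IsDedekindDomain
open scoped Classical

namespace EUN

open StarkC

/-- `u` is a unit of the ring of algebraic integers. -/
def IsU {Ω : Type} [Field Ω] (u : Ω) : Prop :=
  IsIntegral ℤ u ∧ ∃ v : Ω, IsIntegral ℤ v ∧ u * v = 1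

/-- All orbits of `y` have `p`-power length. -/
def PPow {Ω : Type} [Field Ω] [CharZero Ω] (p : ℕ) (y : Ω ≃ₐ[ℚ] Ω) : Prop :=
  ∀ z : Ω, ∃ k : ℕ, (y ^ (p ^ k)) z = z

/-- `y` has an eigen-unit `u`, `y u = ζ u`, `ζ` a primitive `p`-th root of unity, with `u^p = 1`
modulo `p^M`. -/
def EigM {Ω : Type} [Field Ω] [CharZero Ω] (p M : ℕ) (y : Ω ≃ₐ[ℚ] Ω) : Prop :=
  ∃ u ζ s : Ω, IsU u ∧ IsPrimitiveRoot ζ p ∧ y u = ζ * u ∧ IsIntegral ℤ s ∧
    u ^ p = 1 + (p : Ω) ^ M * s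

/-- For `p = 2` the square roots of `-1` are fixed by `y`. -/
def FixI {Ω : Type} [Field Ω] [CharZero Ω] (p : ℕ) (y : Ω ≃ₐ[ℚ] Ω) : Prop :=
  p = 2 → ∀ i : Ω, i ^ 2 = -1 → y i = i

/-! ### The algebraic core -/

/-- **SUM** (80 lines).  PROOF. `p` odd: `u = T + T'`, `T = p^M T₀`, divides `T^p + T'^p = 1` in the
ring of algebraic integers (`Odd.add_dvd_pow_add_pow`, or the explicit cofactor), so it is a unit;
`y u = ζ^j u`, and `ζ^j` is a primitive `p`-th root of unity because `p ∤ j`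
(`IsPrimitiveRoot.pow_of_coprime`).  Modulo `p^M` (in the ring of algebraic integers) `u = T'`, so
`u^p = T'^p = 1 - T^p = 1` (write `u^p - T'^p = (u - T') * integral`).  `p = 2` (`ζ = -1`, `j` odd): let
`i^2 = -1`, `y i = i` (`FixI`), `u = T' + i T`: `(T' + i T) (T' - i T) = T^2 + T'^2 = 1`, `y u = - u`,
`u^2 = T'^2 + 2 i T T' - T^2 = 1 + p^M * integral`. -/
def S_SUM : Prop :=
  ∀ (Ω : Type) [Field Ω] [CharZero Ω] [IsAlgClosed Ω] (p M : ℕ) (y : Ω ≃ₐ[ℚ] Ω) (ζ T₀ T' : Ω)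
    (j : ℕ), p.Prime → IsPrimitiveRoot ζ p → FixI p y → IsIntegral ℤ T₀ → IsIntegral ℤ T' →
    ((p : Ω) ^ M * T₀) ^ p + T' ^ p = 1 → ¬ p ∣ j → y T₀ = ζ ^ j * T₀ → y T' = ζ ^ j * T' →
    EigM p M y

/-- **NRM** (60 lines).  PROOF. Let `(y^p) u = ξ u`, `ξ` a primitive `p`-th root of unity,
`u^p = 1 + p^M s`; `ξ` is a power of `ζ`, so `y ξ = ξ`.  Put `u' = ∏_{i < p} (y^i) u`.  It is a unit
(`IsU` is preserved by `y` and by products), `y u' = ∏_{i < p} (y^(i+1)) u = u' * ((y^p) u) / u = ξ u'`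
(`u ≠ 0`), and `u'^p = ∏ (1 + p^M (y^i) s) = 1 + p^M * integral`. -/
def S_NRM : Prop :=
  ∀ (Ω : Type) [Field Ω] [CharZero Ω] (p M : ℕ) (y : Ω ≃ₐ[ℚ] Ω) (ζ : Ω), p.Prime →
    IsPrimitiveRoot ζ p → y ζ = ζ → EigM p M (y ^ p) → EigM p M y

/-- **STEP** (250 lines, the main computation; hypotheses `S_SUM`, `S_NRM` may be used).
PROOF. Put `d = p^M`, `b = d^p b₀`, `s = b d s'`, `c' = (-1)^p b^(p-1) - d s'` (an algebraic integer,
divisible by `d` because `b^(p-1)` is) and `g = X^p - c X^(p-1) + (-1)^p b^p` with `c = b c' =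
(-1)^p b^p - s`.  The coefficients of `g` are fixed by `y` (`y (b^p) = b^p` because `ζ^p = 1`).  If `r`
is a root of `g`, then `ρ = r / b` satisfies `ρ^p - c' ρ^(p-1) + (-1)^p = 0`, so `ρ` is an algebraic
integer, `ρ * (ρ^(p-1) - c' ρ^(p-2)) = ± 1` (`p ≥ 2`), `ρ` is a unit, and `ρ^p = -(-1)^p` modulo `d`.
In particular `r ≠ 0`, `r` is an algebraic integer.  If `y r = r` then `y ρ = ζ^(-j) ρ`, and `u = ρ`
(`p` odd), `u = i ρ` (`p = 2`, `i^2 = -1`, `y i = i`) contradicts `¬ EigM p M y` (`u^p = 1` modulo `d`,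
`ζ^(-j)` is a primitive `p`-th root of unity).  Fix a root `r`.  The minimal period of `r` under `y` is
a power of `p` (by `PPow`), it is not `1`, and it is at most `p` because the `(y^i) r` are roots of
`g`, which has degree `p`; so it is `p`: `(y^p) r = r` and the `(y^i) r`, `i < p`, are distinct, so
`g = ∏_{i < p} (X - (y^i) r)`.  At `0`: `∏ (y^i) r = b^p` (the signs `(-1)^p` cancel).  At `1`:
`∏ (1 - (y^i) r) = g(1) = 1 - c + (-1)^p b^p = 1 + s`.  Choose `T₀^p = b₀ ρ` (so `T = d T₀` satisfies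
`T^p = d^p b₀ ρ = r`) and `T'^p = 1 - r`; both are algebraic integers.  `B = ∏_{i<p} (y^i) T` satisfies
`B^p = b^p`, so `B = ζ^e b` and `y B = ζ^j B`; but `y B = B * (y^p) T / T`, so `(y^p) T = ζ^j T`, hence
`(y^p) T₀ = ζ^j T₀`.  In the same way `R' = ∏_{i<p} (y^i) T'` satisfies `R'^p = 1 + s = R^p ≠ 0`, so
`y R' = ζ^k R'` and `(y^p) T' = ζ^k T'` (`T' ≠ 0` since `R' ≠ 0`).  If `k ≡ j [MOD p]` then
`ζ^k = ζ^j` and `S_SUM` for `y^p` gives `EigM p M (y^p)`, hence `EigM p M y` by `S_NRM`: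
contradiction. -/
def S_STEP : Prop :=
  ∀ (Ω : Type) [Field Ω] [CharZero Ω] [IsAlgClosed Ω] (p M : ℕ) (y : Ω ≃ₐ[ℚ] Ω)
    (ζ b b₀ s' R : Ω) (j k : ℕ), p.Prime → IsPrimitiveRoot ζ p → y ζ = ζ → FixI p y →
    PPow p y → ¬ EigM p M y → IsIntegral ℤ b₀ → b = ((p : Ω) ^ M) ^ p * b₀ → b ≠ 0 →
    y b = ζ ^ j * b → ¬ p ∣ j → IsIntegral ℤ s' →
    y (b * ((p : Ω) ^ M * s')) = b * ((p : Ω) ^ M * s') → 1 + b * ((p : Ω) ^ M * s') ≠ 0 →
    R ^ p = 1 + b * ((p : Ω) ^ M * s') → y R = ζ ^ k * R → ¬ (k ≡ j [MOD p])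

/-- **CORE** (80 lines; hypothesis `S_STEP` may be used).  PROOF. Suppose `¬ EigM p M y`.  Put
`s = b^(p-1) p^M s'' = τ^p - 1`; `y s = s` because `y τ = ζ^i τ`.  `p ∤ j`, so there is `e` with
`1 ≤ e ≤ p - 1` and `e j ≡ i [MOD p]` (`i` is not `0` modulo `p`).  Apply `S_STEP` to `b^e =
(p^M)^p (b₀ b^(e-1))` (`y (b^e) = ζ^(e j) b^e`, `p ∤ e j`), `s' = b^(p-1-e) s''` (so
`b^e p^M s' = s`), `R = τ`, `1 + s = τ^p ≠ 0`, `k = i`: `¬ (i ≡ e j [MOD p])`, a contradiction. -/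
def S_CORE : Prop :=
  ∀ (Ω : Type) [Field Ω] [CharZero Ω] [IsAlgClosed Ω] (p M : ℕ) (y : Ω ≃ₐ[ℚ] Ω)
    (ζ b b₀ s'' τ : Ω) (i j : ℕ), p.Prime → IsPrimitiveRoot ζ p → y ζ = ζ → FixI p y →
    PPow p y → IsIntegral ℤ b₀ → b = ((p : Ω) ^ M) ^ p * b₀ → b ≠ 0 → y b = ζ ^ j * b →
    ¬ p ∣ j → τ ≠ 0 → y τ = ζ ^ i * τ → ¬ p ∣ i → IsIntegral ℤ s'' →
    τ ^ p = 1 + b ^ (p - 1) * ((p : Ω) ^ M * s'') → EigM p M y

/-! ### Number fields -/

/-- **HIL** (80 lines).  PROOF. Let `q` be the order of `h`; it divides `p^m` and is not `1`, so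
`p ∣ q` and `ζ^q = 1`.  The automorphisms `h^i`, `i < q`, are distinct, so they are linearly
independent (`linearIndependent_monoidHom` or `linearIndependent_toLinearMap`): there is `c : N` with
`b₀ = ∑_{i < q} ζ^(-i) (h^i) c ≠ 0`.  Then `h b₀ = ∑ ζ^(-i) (h^(i+1)) c = ζ b₀` (`h ζ = ζ`,
`h^q = 1`, `ζ^q = 1`).  Multiply `b₀` by a positive integer to make it integral. -/
def S_HIL : Prop :=
  ∀ (N : Type) [Field N] [NumberField N] (p m : ℕ) (h : N ≃ₐ[ℚ] N) (ζ : N), p.Prime →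
    IsPrimitiveRoot ζ p → h ζ = ζ → h ^ (p ^ m) = 1 → h ≠ 1 →
    ∃ b : 𝓞 N, b ≠ 0 ∧ h (b : N) = ζ * (b : N)

/-- **CRT** (250 lines; may be split: a lemma on the function `κ`, a lemma on the average).
PROOF. Let `P` be the finite set of primes `W` with `p a ∈ W`.  `h` permutes `P` (`h a = a`) without
fixed points, and `h^(p^m) = 1`, so every orbit of `h` on `P` has length divisible by `p`: choosing a
representative in each orbit there is `κ : P → ℕ` with `κ (h W) + 1 ≡ κ W [MOD p]`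
(`κ (h^i W₀) = -i`; well defined because `h^i W₀ = W₀` implies `p ∣ i`).  By the Chinese remainder
theorem (`IsDedekindDomain.exists_forall_sub_mem_ideal`) there is `v : 𝓞 N` with
`v - ζ^(κ W) ∈ W^E` for all `W ∈ P`, where `E` is so large that `⋂ W^E ⊆ ((p a)^(m+1))`
(`E = max` of the exponents of the factorisation of `((p a)^(m+1))`).  Then
`h v - ζ v ∈ (p a)^(m+1) 𝓞 N`: modulo `(h W)^E` we have `h v = ζ^(κ W) = ζ ζ^(κ (h W)) = ζ v`
(and every element of `P` is of the form `h W`).  Hence, by induction, `ζ^(-i) (h^i) v - v ∈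
(p a)^(m+1) 𝓞 N` for all `i` (`h a = a`).  Put `τ = p^(-m) ∑_{i < p^m} ζ^(-i) (h^i) v`.  The sum is
`p^m v + (p a)^(m+1) z`, `z : 𝓞 N`, so `τ = v + p a^(m+1) z` is in `𝓞 N`; `h τ = ζ τ` (`h^(p^m) = 1`,
`ζ^(p^m) = 1`; the case `m = 0` cannot occur if `P` is nonempty, and `P` is nonempty because
`p a ≠ 0` is not a unit).  Modulo `p a`: `τ^p = v^p = 1` (`(ζ^κ)^p = 1` modulo every `W^E`).  So
`τ^p = 1 + a s`, and `τ ≠ 0` since `τ^p - 1 ∈ p 𝓞 N` and `1 ∉ p 𝓞 N`. -/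
def S_CRT : Prop :=
  ∀ (N : Type) [Field N] [NumberField N] (p m : ℕ) (h : N ≃ₐ[ℚ] N) (ζ : N) (a : 𝓞 N),
    p.Prime → IsPrimitiveRoot ζ p → h ζ = ζ → h ^ (p ^ m) = 1 → a ≠ 0 → h (a : N) = (a : N) →
    (∀ W : HeightOneSpectrum (𝓞 N), (p : 𝓞 N) * a ∈ W.asIdeal → ¬ Dec W h) →
    ∃ τ s : 𝓞 N, τ ≠ 0 ∧ h (τ : N) = ζ * (τ : N) ∧ (τ : N) ^ p = 1 + (a : N) * (s : N)

/-- **FIX** (130 lines; hypotheses `S_CORE`, `S_CRT` may be used).  PROOF. Let `h` be the restriction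
of `y` to `N` (`y (algebraMap N Ω z) = algebraMap N Ω (h z)`: `AlgEquiv.restrictNormal_commutes`).
By `PPow` (applied to a primitive element of `N`, or to a basis) `h^(p^m) = 1` for some `m`.  Put
`b₁ = (p^M)^p b₀` (`h b₁ = ζ₀^j b₁`) and `a = b₁^p p^M`, so `h a = a`, `a ≠ 0`, and `p a ∈ W` iff
`p b₀ ∈ W` for a prime `W`.  `S_CRT` gives `τ`, `s` with `h τ = ζ₀ τ`, `τ^p = 1 + a s =
1 + b₁^(p-1) p^M (b₁ s)`; apply `S_CORE` in `Ω` with `b = b₁`, `s'' = b₁ s`, `i = 1`. -/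
def S_FIX : Prop :=
  ∀ (Ω : Type) [Field Ω] [CharZero Ω] [IsAlgClosed Ω] (N : Type) [Field N] [NumberField N]
    [IsGalois ℚ N] [Algebra N Ω] (p M : ℕ) (y : Ω ≃ₐ[ℚ] Ω) (ζ₀ : N) (b₀ : 𝓞 N) (j : ℕ),
    p.Prime → IsPrimitiveRoot ζ₀ p → y (algebraMap N Ω ζ₀) = algebraMap N Ω ζ₀ → FixI p y →
    PPow p y → b₀ ≠ 0 →
    y (algebraMap N Ω (b₀ : N)) = (algebraMap N Ω ζ₀) ^ j * algebraMap N Ω (b₀ : N) → ¬ p ∣ j →
    (∀ W : HeightOneSpectrum (𝓞 N), (p : 𝓞 N) * b₀ ∈ W.asIdeal →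
      ¬ Dec W (AlgEquiv.restrictNormalHom N y : N ≃ₐ[ℚ] N)) → EigM p M y

/-- **DIV** (80 lines, elementary).  PROOF. `a = 0` is trivial.  Let `f = p^e f'`, `p ∤ f'`.
`f' ∣ a` since `f' ∣ a p^m`.  Let `o` be the order of `l` modulo `p^k`; `o ∣ a p^r` and
`o ∣ (p-1) p^(k-1)`.  If `p^(e+r) ∤ o` then `o ∣ (p-1) p^(e+r-1)`, hence `o ∣ (p-1) p^(D+r)` (`e ≤ f ≤ D`
because `e < p^e ≤ f`), so `p^k ∣ l^((p-1) p^(D+r)) - 1 < p^k`, and this number is positive: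
contradiction.  So `p^(e+r) ∣ o ∣ a p^r`, `p^e ∣ a`. -/
def S_DIV : Prop :=
  ∀ (p l k m r a f D : ℕ), p.Prime → 2 ≤ l → 0 < f → f ≤ D → f ∣ a * p ^ m →
    l ^ ((p - 1) * p ^ (D + r)) < p ^ k → (l : ℤ) ^ (a * p ^ r) ≡ 1 [ZMOD (p : ℤ) ^ k] → f ∣ a

/-- **RES** (220 lines; hypothesis `S_DIV` may be used).  PROOF. `κ = 𝓞 N / W` is a finite field of
characteristic `l`; `y` induces an automorphism of `κ` (`Dec W y`, and `y` has finite order), which is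
`x ↦ x^(l^a)` for some `a` (all ring automorphisms of a finite field are powers of the Frobenius).
Let `w = W ∩ 𝓞 N₁`, `κ₁ = 𝓞 N₁ / w`, `#κ₁ = l^f`, `f ≤ D = [N₁ : ℚ]`, a subfield of `κ`.
`y^(p^m) = 1`, so `x^(l^(a p^m)) = x` on `κ₁`, so `f ∣ a p^m` (a generator of `κ₁ˣ` has order
`l^f - 1`, and `l^f - 1 ∣ l^c - 1` implies `f ∣ c`).  The image of `ξ` in `κˣ` has order `p^k`
(because `p ∉ W`: `∏ (1 - ξ^i) = p^k`), and `(y^(p^r)) ξ = ξ`, so `p^k ∣ l^(a p^r) - 1`.  By `S_DIV`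
`f ∣ a`, so `y` acts trivially on `κ₁`: `y x - x ∈ W ∩ 𝓞 N₁` for `x : 𝓞 N₁`. -/
def S_RES : Prop :=
  ∀ (N₁ N : Type) [Field N₁] [NumberField N₁] [IsGalois ℚ N₁] [Field N] [NumberField N]
    [IsGalois ℚ N] [Algebra N₁ N] (p l k m r : ℕ) (y : N ≃ₐ[ℚ] N)
    (W : HeightOneSpectrum (𝓞 N)) (ξ : N), p.Prime → l.Prime → p ≠ l → (l : 𝓞 N) ∈ W.asIdeal →
    y ^ (p ^ m) = 1 → Dec W y → IsPrimitiveRoot ξ (p ^ k) → (y ^ (p ^ r)) ξ = ξ →
    l ^ ((p - 1) * p ^ (Module.finrank ℚ N₁ + r)) < p ^ k →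
    FrobPow N₁ (W.under (𝓞 N₁)) 1 (AlgEquiv.restrictNormalHom N₁ y : N₁ ≃ₐ[ℚ] N₁)

/-! ### Automorphisms of `Ω` -/

/-- **ZET** (30 lines).  PROOF. `y ζ = ζ^c` with `1 ≤ c < p`; `(y^(p^k)) ζ = ζ` for some `k`, so
`c^(p^k) ≡ 1 [MOD p]`, and `c^(p^k) ≡ c` by Fermat. -/
def S_ZET : Prop :=
  ∀ (Ω : Type) [Field Ω] [CharZero Ω] (p : ℕ) (y : Ω ≃ₐ[ℚ] Ω) (ζ : Ω), p.Prime →
    IsPrimitiveRoot ζ p → PPow p y → y ζ = ζ

/-- **TOR** (150 lines; hypothesis `S_ZET` may be used).  Torsion.  PROOF. Take `l` minimal with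
`y^(p^l) = 1`; `l ≥ 1`.  Let `h = y^(p^(l-1)) ≠ 1`, `h^p = 1`, `h ζ = ζ` for a primitive `p`-th root of
unity `ζ` (`S_ZET`).  There is `b ≠ 0` with `h b = ζ b` (take `c` with `∑_{i<p} ζ^(-i) (h^i) c ≠ 0`:
the `h^i`, `i < p`, are distinct, so linearly independent).  Let `β^p = b`, `B = ∏_{i<p} (h^i) β`.
`h B = B` (`h^p = 1`), `B^p = ∏ (h^i) b = ζ^(p(p-1)/2) b^p`.  If `p` is odd: `B^p = b^p`,
`B = ζ^c b`, `h B = ζ B ≠ B`, contradiction.  So `p = 2`, `B^2 = - b^2`, `B = ± i b` with `i^2 = -1`;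
if `h i = i` then `h B = - B ≠ B`, contradiction.  So `h i ≠ i`; if `l ≥ 2` then `h = g^2` with
`g = y^(2^(l-2))`, `g i = ± i`, `h i = i`, contradiction.  So `l = 1`. -/
def S_TOR : Prop :=
  ∀ (Ω : Type) [Field Ω] [CharZero Ω] [IsAlgClosed Ω] (p l : ℕ) (y : Ω ≃ₐ[ℚ] Ω), p.Prime →
    PPow p y → y ≠ 1 → y ^ (p ^ l) = 1 → p = 2 ∧ y ^ 2 = 1 ∧ ∀ i : Ω, i ^ 2 = -1 → y i = -i

/-- **PPT** (200 lines).  The `p`-part `z` of an automorphism `y`.  PROOF. For `n ≥ 1` let `M_n` be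
the product of all `q ≤ n`, `q ≥ 1`, `p ∤ q`, and `e_n = M_n^(φ(p^n))`.  Then `p ∤ e_n`,
`e_n ≡ 1 [MOD p^a]` and `d' ∣ e_n` for all `a ≤ n`, `d' ≤ n`, `p ∤ d'`.  For `x : Ω` the orbit under
`y` is finite (its elements are roots of the minimal polynomial of `x`); let `d = p^a d'` be its
length, `p ∤ d'`.  For `n ≥ d` the element `(y^(e_n)) x` does not depend on `n` (`e_n` modulo `d` is
determined by `1` modulo `p^a`, `0` modulo `d'`).  Define `z x` as this value.  For finitely many `x`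
one `n` works, so `z` is additive and multiplicative, a `ℚ`-algebra homomorphism, injective, and
surjective (`Algebra.IsAlgebraic.algHom_bijective`).  (i) `(y^(e_n p^a)) x = x` since
`d ∣ e_n p^a`: `PPow`.  (ii) by construction.  (iii) `(y^r) x = x`, `p ∤ r`: `d ∣ r`, so `d = d'`,
`d ∣ e_n`, `z x = x`.  (iv) `z x = x`: `d ∣ e_n`, `e_n ≡ 1 [MOD p^a]`, so `a = 0`, `r = d' = d`. -/
def S_PPT : Prop :=
  ∀ (Ω : Type) [Field Ω] [CharZero Ω], Algebra.IsAlgebraic ℚ Ω → ∀ (p : ℕ) (y : Ω ≃ₐ[ℚ] Ω),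
    p.Prime → ∃ z : Ω ≃ₐ[ℚ] Ω, PPow p z ∧
      (∀ S : Finset Ω, ∃ e : ℕ, ¬ p ∣ e ∧ ∀ x ∈ S, z x = (y ^ e) x) ∧
      (∀ (x : Ω) (r : ℕ), ¬ p ∣ r → (y ^ r) x = x → z x = x) ∧
      ∀ x : Ω, z x = x → ∃ r : ℕ, ¬ p ∣ r ∧ (y ^ r) x = x

/-! ### Fields -/

/-- **ALC** (50 lines).  An algebraic closure of `M`, algebraic over `ℚ` (`AlgebraicClosure M`; the
two `ℚ`-algebra structures are equal: `Subsingleton`). -/
def S_ALC : Prop :=
  ∀ (M : Type) [Field M] [NumberField M], ∃ (Ω : Type) (_ : Field Ω) (_ : CharZero Ω)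
    (_ : Algebra M Ω), IsAlgClosed Ω ∧ Algebra.IsAlgebraic ℚ Ω

/-- **BIG** (150 lines).  Big number fields inside `Ω`.  PROOF. `Nb` is algebraic over `M`, so it
embeds into `Ω` over `M` (`IsAlgClosed.lift`).  Let `N` be the normal closure (in `Ω`, over `ℚ`) of
the field generated by the image of `Nb` and `S` (an `IntermediateField ℚ Ω`, finite dimensional);
algebra structures `M → Nb → N → Ω`. -/
def S_BIG : Prop :=
  ∀ (M Nb Ω : Type) [Field M] [NumberField M] [Field Nb] [NumberField Nb] [Algebra M Nb]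
    [Field Ω] [CharZero Ω] [IsAlgClosed Ω] [Algebra M Ω], Algebra.IsAlgebraic ℚ Ω →
    ∀ S : Finset Ω, ∃ (N : Type) (_ : Field N) (_ : NumberField N) (_ : Algebra M N)
      (_ : Algebra Nb N) (_ : Algebra N Ω) (_ : IsGalois ℚ N),
      IsScalarTower M Nb N ∧ IsScalarTower M N Ω ∧ ∀ x ∈ S, ∃ x' : N, algebraMap N Ω x' = x

/-- The dual pair for `g` and `m` (a normal integral basis and its dual). -/
def Dual {Ω : Type} [Field Ω] [CharZero Ω] (m : ℕ) (g : Ω ≃ₐ[ℚ] Ω) (θ θ' : Ω) : Prop :=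
  IsIntegral ℤ θ ∧ IsIntegral ℤ θ' ∧ (g ^ m) θ = θ ∧ (g ^ m) θ' = θ' ∧
    ∀ k : ℕ, ∑ i ∈ Finset.range m, (g ^ i) (θ * (g ^ k) θ') = if m ∣ k then 1 else 0

/-- **CPT** (220 lines).  Compactness.  PROOF. `Gal(Ω/ℚ)` is compact (Mathlib:
`Mathlib/FieldTheory/Galois/Profinite.lean`, instance `CompactSpace Gal(K/k)`, for
`IsGalois ℚ Ω`).  For every `g` choose, for the finitely many `m ≤ J` for which `C (g|M) m` holds, a
dual pair; let `S_g` be the finite set of all these elements.  The set of `g'` which agree with `g`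
on the finite set of all `(g^i) x`, `x ∈ S_g` or `x` in (the image of) a generating set of `M`,
`i ≤ 2 J` (only the pairs `(i, k)` with `i < m`, `k < m` matter, the sum depends on `k` modulo `m`) is
an open neighbourhood of `g` (`stabilizer_isOpen_of_isIntegral` or
`IntermediateField.fixingSubgroup_isOpen`); finitely many of them cover.  Let `N` be the normal
closure over `ℚ` of the field generated by `M` and all `S_g` in question (`S_BIG` with `Nb = M` may be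
used as a hypothesis; then `AlgEquiv.restrictNormalHom` etc.).  For `g₃ ∈ Gal(N/ℚ)` take an
extension `g'` to `Ω` (surjectivity of `AlgEquiv.restrictNormalHom`); it lies in one of the
neighbourhoods, of `g` say, so the dual pair of `g` is one for `g'`, and `g'|M = g|M`.  (The powers
`(g'^i) x = (g^i) x` for `x ∈ S_g`, `i ≤ 2 J`, by induction on `i`.) -/
def S_CPT : Prop :=
  ∀ (M Ω : Type) [Field M] [NumberField M] [IsGalois ℚ M] [Field Ω] [CharZero Ω] [IsAlgClosed Ω]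
    [Algebra M Ω], Algebra.IsAlgebraic ℚ Ω →
    ∀ (C : (M ≃ₐ[ℚ] M) → ℕ → Prop) (J : ℕ),
    (∀ (g : Ω ≃ₐ[ℚ] Ω) (m : ℕ), m ≤ J → C (AlgEquiv.restrictNormalHom M g) m →
      ∃ θ θ' : Ω, Dual m g θ θ') →
    ∃ (N : Type) (_ : Field N) (_ : NumberField N) (_ : Algebra M N) (_ : IsGalois ℚ N),
      ∀ (g : N ≃ₐ[ℚ] N) (m : ℕ), m ≤ J → C (AlgEquiv.restrictNormalHom M g) m →
        ∃ θ θ' : N, Dual m g θ θ'

/-- **GNP** (350 lines, helper15).  PROOF. `h = y^(p^r) ≠ 1`; `ζ` a primitive `p`-th root of unity is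
fixed by `y` (`S_ZET`).  Case (β): some root of unity of `p`-power order is moved by `h`; take `ξ` of
minimal order: `h ξ = ζ^j ξ`, `p ∤ j`; put `b = ξ`.  Case (α): all are fixed; `b` from `S_HIL` for
`h|N'`, `N'` so big that `h|N' ≠ 1`.  Let `T' ` be the set of primes dividing the norm of `p b`, `M'`
a number field, Galois over `ℚ`, containing `M`, `N'`, `b` and a primitive `p^k`-th root of unity, `k`
large for the primes in `T'` (see `S_RES`), with `h|M' ≠ 1`.  F. K. Schmidt (`Stmt_UFK`) for `M'`,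
`T'` gives `N ⊇ M'`.  If `h|N` fixes a prime `W ∋ p b` of `N`, then it fixes `y W` as well
(`y` commutes with `h`), so `W ∩ M' = y W ∩ M'` (otherwise `h|M' = 1`): `y|M'` fixes `W ∩ M'`.  If
`p ∈ W`: contradiction (`y|M` fixes no prime above `p`).  Otherwise we are in case (α) (in case (β) `b`
is a unit), `h` fixes the `p^k`-th roots of unity, and `S_RES` shows that `y|M` is in the inertia group of
`W ∩ M`: contradiction.  So `h|N` fixes no prime `W ∋ p b`, and `S_FIX` gives `EigM p A h`. -/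
def S_GNP : Prop :=
  ∀ (Ω : Type) [Field Ω] [CharZero Ω] [IsAlgClosed Ω], Algebra.IsAlgebraic ℚ Ω →
    ∀ (M : Type) [Field M] [NumberField M] [IsGalois ℚ M] [Algebra M Ω] (p r A : ℕ)
    (y : Ω ≃ₐ[ℚ] Ω), p.Prime → PPow p y → y ^ (p ^ r) ≠ 1 → FixI p (y ^ (p ^ r)) →
    (∀ w : HeightOneSpectrum (𝓞 M), (p : 𝓞 M) ∈ w.asIdeal →
      ¬ Dec w (AlgEquiv.restrictNormalHom M y : M ≃ₐ[ℚ] M)) →
    (∀ w : HeightOneSpectrum (𝓞 M),
      ¬ FrobPow M w 1 (AlgEquiv.restrictNormalHom M y : M ≃ₐ[ℚ] M)) →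
    EigM p A (y ^ (p ^ r))

/-- The relation between an automorphism `x` and its `p`-part `y`. -/
def PPart {Ω : Type} [Field Ω] [CharZero Ω] (p : ℕ) (x y : Ω ≃ₐ[ℚ] Ω) : Prop :=
  PPow p y ∧ (∀ S : Finset Ω, ∃ e : ℕ, ¬ p ∣ e ∧ ∀ z ∈ S, y z = (x ^ e) z) ∧
    (∀ (z : Ω) (r : ℕ), ¬ p ∣ r → (x ^ r) z = z → y z = z) ∧
    ∀ z : Ω, y z = z → ∃ r : ℕ, ¬ p ∣ r ∧ (x ^ r) z = z

/-- The two possibilities for a `p`-part `y`. -/
def Alt {Ω : Type} [Field Ω] [CharZero Ω] (p m : ℕ) (y : Ω ≃ₐ[ℚ] Ω) : Prop :=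
  (∀ r A : ℕ, FixI p (y ^ (p ^ r)) → EigM p A (y ^ (p ^ r))) ∨
    (p = 2 ∧ ¬ 4 ∣ m ∧ y ^ 2 = 1 ∧ ∀ i : Ω, i ^ 2 = -1 → y i = -i)

/-- **GEN** (150 lines, helper15; from `S_PPT`, `S_TOR`, `S_GNP`).  The output of this part.
PROOF. `y` = the `p`-part of `x` (`S_PPT`).  On `M`: `y|M = (x|M)^e`, `p ∤ e`, so `y|M ∈ C` and
`ν (y|M) = ν (x|M)^e ≠ 1`.  If `y|M` is in a decomposition group above `p ∈ T`, or in an inertia group,
then `ν (y|M) = 1` by `TypeA`: contradiction.  `y ≠ 1`.  If `y^(p^r) = 1` for some `r`, the second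
alternative holds by `S_TOR` (`4 ∤ m` because `ν (x|M)^(2e) = ν (y|M)^2 = 1`, `e` odd); otherwise the
first one by `S_GNP`. -/
def S_GEN : Prop :=
  ∀ (Ω : Type) [Field Ω] [CharZero Ω] [IsAlgClosed Ω], Algebra.IsAlgebraic ℚ Ω →
    ∀ (M : Type) [Field M] [NumberField M] [IsGalois ℚ M] [Algebra M Ω] (T : Finset ℕ)
    (C : Subgroup (M ≃ₐ[ℚ] M)) (ν : C →* ℂˣ) (p : ℕ) (x : Ω ≃ₐ[ℚ] Ω)
    (hx : AlgEquiv.restrictNormalHom M x ∈ C), p.Prime → p ∈ T → TypeA T C ν →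
    p ∣ orderOf (ν ⟨AlgEquiv.restrictNormalHom M x, hx⟩) →
    ∃ y : Ω ≃ₐ[ℚ] Ω, PPart p x y ∧ Alt p (orderOf (ν ⟨AlgEquiv.restrictNormalHom M x, hx⟩)) y

/-- **THE** (architect helper35, the group ring part).  From the eigen-units to a normal integral
basis. -/
def S_THE : Prop :=
  ∀ (Ω : Type) [Field Ω] [CharZero Ω] [IsAlgClosed Ω], Algebra.IsAlgebraic ℚ Ω →
    ∀ (m : ℕ) (x : Ω ≃ₐ[ℚ] Ω), 0 < m →
    (∀ p : ℕ, p.Prime → p ∣ m → ∃ y : Ω ≃ₐ[ℚ] Ω, PPart p x y ∧ Alt p m y) →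
    ∃ θ θ' : Ω, Dual m x θ θ'

end EUN
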