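import Pool.Agent.EUN.ALL
import Pool.Agent.NBK.THE

/-!
# The key lemma and compactness: `Stmt_NIB`
-/

namespace EUN

/-- Every character of type (A) has a normal integral basis after a finite base change. -/
theorem stmt_nib : StarkC.Stmt_NIB := stmt_nib_of NBK.s_the

end EUN
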